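import Mathlib.Algebra.Field.ZMod
import Mathlib.Data.Finset.Slice
import Pool.Agent.MP_d6d719_co.h91.ContainA
import Pool.Agent.MP_d6d719_co.Conn
import Pool.Agent.MP_d6d719_co.CoverAbs

-- ======== part 0: formerly Pool.Agent.MP_d6d719_co.h74.Sk1
section MrgPart0

set_option autoImplicit false
set_option linter.unusedSectionVars false

open Finset Equiv
open scoped Classical

namespace Pool.Agent.MP_d6d719_co.H74

open H91 (er Mat Cmp Gam)

variable {V : Type} [Fintype V] {G : SimpleGraph V}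

theorem spreadW {κ I : Type} [Fintype κ] [DecidableEq κ] [Nonempty κ] [Fintype I]
    (S : I → Finset V)
    (t z : I → ℝ) (ht : ∀ i, 0 ≤ t i) (ht1 : ∀ i, t i ≤ 1)
    (hs : ∑ i, Fintype.card κ * (2 * Real.exp (-(t i * z i))) < 1) :
    ∃ c : V → κ, ∀ i q, |(#{v ∈ S i | c v = q} : ℝ) - #(S i) / Fintype.card κ| ≤
      t i * (#(S i) / Fintype.card κ) + z i := by
  have hQ : (0 : ℝ) < Fintype.card κ := by exact_mod_cast Fintype.card_pos
  set w : V → κ → ℝ := fun _ _ => 1 / Fintype.card κ with hw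
  have h0 : ∀ j s, 0 ≤ w j s := fun _ _ => by positivity
  have h1 : ∀ j, ∑ s, w j s = 1 := fun _ => by
    simp only [hw, sum_const, card_univ, nsmul_eq_mul]; field_simp
  have hq : ∀ q : κ, ∀ v, ∑ s, w v s * (if s = q then 1 else 0) = 1 / Fintype.card κ :=
    fun q v => by simp [hw]
  obtain ⟨δ, hδ⟩ : ∃ δ : I → ℝ, ∀ i, δ i = t i * (#(S i) / Fintype.card κ) + z i := ⟨_, fun _ => rfl⟩
  obtain ⟨c, hc⟩ := PE_exists h0 h1 fun c => -1 * ∑ i, ∑ q,
    ((if δ i < (#{v ∈ S i | c v = q} : ℝ) - #(S i) / Fintype.card κ then 1 else 0) +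
      if (#{v ∈ S i | c v = q} : ℝ) - #(S i) / Fintype.card κ < -δ i then 1 else 0)
  simp only [PE_mul, PE_sum, PE_add] at hc
  have h2 : ∑ i, ∑ q : κ, (PE w (fun c => if δ i < (#{v ∈ S i | c v = q} : ℝ) -
      #(S i) / Fintype.card κ then 1 else 0) + PE w fun c => if (#{v ∈ S i | c v = q} : ℝ) -
      #(S i) / Fintype.card κ < -δ i then 1 else 0) ≤
      ∑ i, Fintype.card κ * (2 * Real.exp (-(t i * z i))) := by
    refine sum_le_sum fun i _ => ?_
    rw [← nsmul_eq_mul, ← card_univ, ← sum_const, two_mul]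
    have h3 := hδ i
    refine sum_le_sum fun q _ => add_le_add
      (tail_up h0 h1 (S i) (fun _ s => s = q) (by positivity) (fun v _ => hq q v)
        (ht i) (ht1 i) _ fun σ hσ => ?_)
      (tail_lo h0 h1 (S i) (fun _ s => s = q) (by positivity) (fun v _ => hq q v)
        (ht i) (ht1 i) _ fun σ hσ => ?_)
    · rw [one_div_mul_eq_div]
      rw [card_univ] at hσ
      linarith
    · rw [one_div_mul_eq_div]
      rw [card_univ] at hσ
      linarith
  refine ⟨c, fun i q => ?_⟩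
  rw [← hδ]
  by_contra hcon
  have h3 : (1 : ℝ) ≤ ∑ i, ∑ q,
      ((if δ i < (#{v ∈ S i | c v = q} : ℝ) - #(S i) / Fintype.card κ then 1 else 0) +
        if (#{v ∈ S i | c v = q} : ℝ) - #(S i) / Fintype.card κ < -δ i then 1 else 0) := by
    refine le_trans (le_trans ?_ (single_le_sum (fun q _ => ?_) (mem_univ q)))
      (single_le_sum (fun i _ => sum_nonneg fun q _ => ?_) (mem_univ i))
    · rw [abs_le, not_and_or, not_le, not_le] at hcon
      rcases hcon with h4 | h4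
      · rw [if_pos h4]; split_ifs <;> norm_num
      · rw [if_pos h4]; split_ifs <;> norm_num
    · split_ifs <;> norm_num
    · split_ifs <;> norm_num
  linarith

/-- `m` is a fixed point free involution of `T`. -/
def Invo (T : Finset V) (m : V → V) : Prop := ∀ v ∈ T, m v ∈ T ∧ m (m v) = v ∧ m v ≠ v

theorem Invo.card_filter {T : Finset V} {m : V → V} (h : Invo T m) {S : Finset V} (hS : S ⊆ T)
    (P : V → Prop) [DecidablePred P] : #{v ∈ S.image m | P v} = #{v ∈ S | P (m v)} := by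
  rw [filter_image, card_image_of_injOn fun a ha b hb e => ?_]
  rw [← (h a (hS (mem_filter.1 ha).1)).2.1, e, (h b (hS (mem_filter.1 hb).1)).2.1]

/-- A random colouring and orientation of the pairs. -/
theorem exists_lab {I : Type} [Fintype I] {T : Finset V} {m : V → V} (hm : Invo T m)
    (S : I → Finset V) (hS : ∀ i, S i ⊆ T) (t z : I → ℝ) (ht : ∀ i, 0 ≤ t i) (ht1 : ∀ i, t i ≤ 1)
    (hs : ∑ i, 64 * Real.exp (-(t i * z i)) < 1) :
    ∃ lab : V → Fin 8 × Bool, (∀ v ∈ T, lab (m v) = ((lab v).1, !(lab v).2)) ∧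
      ∀ i q, |(#{v ∈ S i | lab v = q} : ℝ) - #(S i) / 16| ≤ t i * (#(S i) / 16) + 2 * z i := by
  obtain ⟨e⟩ : Nonempty (V ≃ Fin (Fintype.card V)) := ⟨Fintype.equivFin V⟩
  obtain ⟨c, hc⟩ := spreadW (κ := Fin 8 × Bool) (I := I × Bool) (fun i => if i.2 then
    {v ∈ S i.1 | e v < e (m v)} else ({v ∈ S i.1 | ¬ e v < e (m v)}).image m)
    (fun i => t i.1) (fun i => z i.1) (fun i => ht i.1) (fun i => ht1 i.1) (by
      rw [Fintype.sum_prod_type]
      refine lt_of_eq_of_lt (sum_congr rfl fun i _ => ?_) hs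
      simp
      ring)
  refine ⟨fun v => if e v < e (m v) then c v else ((c (m v)).1, !(c (m v)).2), fun v hv => ?_,
    fun i q => ?_⟩
  · obtain ⟨-, a, b⟩ := hm v hv
    simp only [a]
    by_cases k : e v < e (m v)
    · rw [if_pos k, if_neg k.not_gt]
    · rw [if_neg k, if_pos (lt_of_le_of_ne (not_lt.1 k) fun x => b (e.injective x))]
      simp
  · have a := hc (i, true) q
    have b := hc (i, false) (q.1, !q.2)
    simp only [if_true, Bool.false_eq_true, if_false, Fintype.card_prod, Fintype.card_fin,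
      Fintype.card_bool] at a b
    rw [hm.card_filter ((filter_subset _ _).trans (hS i))] at b
    have b' := hm.card_filter ((filter_subset (fun v => ¬ e v < e (m v)) _).trans (hS i))
      fun _ => True
    rw [filter_true, filter_true] at b'
    rw [b'] at b
    have c1 := card_filter_add_card_filter_not (s := S i) fun v => e v < e (m v)
    have c2 := card_filter_add_card_filter_not (s := {v ∈ S i | (if e v < e (m v) then c v else
      ((c (m v)).1, !(c (m v)).2)) = q}) fun v => e v < e (m v)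
    have c3 : {v ∈ {v ∈ S i | (if e v < e (m v) then c v else ((c (m v)).1, !(c (m v)).2)) = q} |
        e v < e (m v)} = {v ∈ {v ∈ S i | e v < e (m v)} | c v = q} := by
      ext v
      simp only [mem_filter]
      exact ⟨fun h => ⟨⟨h.1.1, h.2⟩, by simpa [h.2] using h.1.2⟩,
        fun h => ⟨⟨h.1.1, by simpa [h.1.2] using h.2⟩, h.1.2⟩⟩
    have c4 : {v ∈ {v ∈ S i | (if e v < e (m v) then c v else ((c (m v)).1, !(c (m v)).2)) = q} |
        ¬ e v < e (m v)} = {v ∈ {v ∈ S i | ¬ e v < e (m v)} | c (m v) = (q.1, !q.2)} := by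
      ext v
      simp only [mem_filter]
      refine ⟨fun h => ⟨⟨h.1.1, h.2⟩, ?_⟩, fun h => ⟨⟨h.1.1, ?_⟩, h.1.2⟩⟩
      · have := h.1.2
        rw [if_neg h.2] at this
        simp [← this]
      · rw [if_neg h.1.2, h.2]
        simp
    rw [c3, c4] at c2
    rw [← c1, ← c2]
    push_cast at a b ⊢
    rw [abs_le] at a b ⊢
    constructor <;> linarith [a.1, a.2, b.1, b.2]

theorem Mat.invo {R : Finset V} {s : V → V} (h : Mat G R s) : Invo R s :=
  fun v hv => ⟨(h v hv).1, (h v hv).2.1, (h v hv).2.2.ne'⟩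

theorem Invo.even {T : Finset V} {m : V → V} (h : Invo T m) : Even #T := by
  rw [← ZMod.natCast_eq_zero_iff_even, card_eq_sum_ones, Nat.cast_sum]
  exact sum_involution (fun v _ => m v) (fun _ _ => by decide) (fun v hv _ => (h v hv).2.2)
    (fun v hv => (h v hv).1) fun v hv => (h v hv).2.1

theorem mat_union {R R' : Finset V} {s s' : V → V} (hd : Disjoint R R') (h : Mat G R s)
    (h' : Mat G R' s') : Mat G (R ∪ R') fun x => if x ∈ R then s x else s' x := fun x hx => by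
  by_cases c : x ∈ R
  · simp only [c, if_true, (h x c).1, (h x c).2.1, (h x c).2.2, mem_union, true_or, and_self]
  · have c' := (mem_union.1 hx).resolve_left c
    have k : s' x ∉ R := fun a => disjoint_left.1 hd a (h' x c').1
    simp only [c, k, if_false, (h' x c').1, (h' x c').2.1, (h' x c').2.2, mem_union, or_true,
      and_self]

theorem max_mat {ξ : ℝ} (hb : ∀ X Y : Finset V, ξ < #X → ξ < #Y → 0 < er G.Adj X Y)
    (L : Finset V) : ∃ R ⊆ L, ∃ s, Mat G R s ∧ (#(L \ R) : ℝ) ≤ ξ := by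
  obtain ⟨R, hR, hmax⟩ := exists_max_image (L.powerset.filter fun R => ∃ s, Mat G R s) card
    ⟨∅, mem_filter.2 ⟨empty_mem_powerset _, id, fun _ h => absurd h (notMem_empty _)⟩⟩
  obtain ⟨h1, s, h2⟩ := mem_filter.1 hR
  refine ⟨R, mem_powerset.1 h1, s, h2, not_lt.1 fun c => ?_⟩
  obtain ⟨x, hx, k⟩ := exists_ne_zero_of_sum_ne_zero (hb _ _ c c).ne'
  obtain ⟨y, hy⟩ := card_ne_zero.1 k
  obtain ⟨hy, a⟩ := mem_filter.1 hy
  have hd : Disjoint R {x, y} := disjoint_right.2 fun v hv => by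
    rcases mem_insert.1 hv with rfl | hv
    · exact (mem_sdiff.1 hx).2
    · exact mem_singleton.1 hv ▸ (mem_sdiff.1 hy).2
  have := hmax (R ∪ {x, y}) (mem_filter.2 ⟨mem_powerset.2 (union_subset (mem_powerset.1 h1)
    (insert_subset (mem_sdiff.1 hx).1 (singleton_subset_iff.2 (mem_sdiff.1 hy).1))), _,
    mat_union (s' := swap x y) hd h2 fun v hv => by
      rcases mem_insert.1 hv with rfl | hv
      · simp [a]
      · simp [mem_singleton.1 hv, a.symm]⟩)
  rw [card_union_of_disjoint hd, card_pair a.ne] at this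
  omega

theorem hall_mat {ξ c : ℝ} (hb : ∀ X Y : Finset V, ξ < #X → ξ < #Y → 0 < er G.Adj X Y)
    (hs : ∀ X Y : Finset V, X.Nonempty → (#X : ℝ) ≤ ξ → #Y ≤ #X → (er G.Adj X Y : ℝ) < c * #X)
    {A B : Finset V} (hd : Disjoint A B) (hc : #A = #B)
    (hA : ∀ v, c ≤ #{w ∈ A | G.Adj v w}) (hB : ∀ v, c ≤ #{w ∈ B | G.Adj v w}) :
    ∃ s, Mat G (A ∪ B) s := by
  have key : ∀ X Y C : Finset V, (∀ v, c ≤ #{w ∈ C | G.Adj v w}) → X.Nonempty → (#X : ℝ) ≤ ξ →
      (∀ x ∈ X, ∀ y ∈ C, G.Adj x y → y ∈ Y) → #X < #Y := fun X Y C h1 h2 h3 h4 => by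
    by_contra k
    refine (hs X Y h2 h3 (not_lt.1 k)).not_ge ?_
    rw [mul_comm, ← nsmul_eq_mul, ← sum_const, er, Nat.cast_sum]
    refine sum_le_sum fun x hx => (h1 x).trans (Nat.cast_le.2 (card_le_card fun y hy => ?_))
    exact mem_filter.2 ⟨h4 x hx y (mem_filter.1 hy).1 (mem_filter.1 hy).2, (mem_filter.1 hy).2⟩
  obtain ⟨f, f1, f2⟩ := (all_card_le_biUnion_card_iff_exists_injective
    (fun a : A => {w ∈ B | G.Adj a w})).1 fun X => by
      by_contra k
      rw [not_le] at k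
      obtain ⟨N, hN⟩ : ∃ N, N = X.biUnion fun a : A => {w ∈ B | G.Adj a w} := ⟨_, rfl⟩
      obtain ⟨X', hX⟩ : ∃ X', X' = X.map (Function.Embedding.subtype _) := ⟨_, rfl⟩
      have x1 : #X' = #X := by rw [hX, card_map]
      have x2 : X' ⊆ A := fun v hv => by
        obtain ⟨a, -, rfl⟩ := mem_map.1 (hX ▸ hv)
        exact a.2
      have x3 : ∀ x ∈ X', ∀ y ∈ B, G.Adj x y → y ∈ N := fun x hx y hy a => by
        obtain ⟨a', b, rfl⟩ := mem_map.1 (hX ▸ hx)
        exact hN ▸ mem_biUnion.2 ⟨a', b, mem_filter.2 ⟨hy, a⟩⟩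
      have x4 : N ⊆ B := hN ▸ biUnion_subset.2 fun _ _ => filter_subset _ _
      rw [← hN, ← x1] at k
      have x5 := card_sdiff_add_card_eq_card x4
      have x6 := card_sdiff_add_card_eq_card x2
      rcases le_or_gt (#X' : ℝ) ξ with a | a
      · have := key X' N B hB (card_pos.1 (by omega)) a x3
        omega
      rcases le_or_gt (#(B \ N) : ℝ) ξ with b | b
      · have := key (B \ N) (A \ X') A hA (card_pos.1 (by omega)) b fun y hy x hx e =>
          mem_sdiff.2 ⟨hx, fun k => (mem_sdiff.1 hy).2 (x3 x k y (mem_sdiff.1 hy).1 e.symm)⟩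
        omega
      · obtain ⟨x, hx, k⟩ := exists_ne_zero_of_sum_ne_zero (hb _ _ a b).ne'
        obtain ⟨y, hy⟩ := card_ne_zero.1 k
        obtain ⟨hy, e⟩ := mem_filter.1 hy
        exact (mem_sdiff.1 hy).2 (x3 x hx y (mem_sdiff.1 hy).1 e)
  have fb : Function.Bijective fun a : A => (⟨f a, (mem_filter.1 (f2 a)).1⟩ : B) :=
    (Fintype.bijective_iff_injective_and_card _).2
      ⟨fun a a' e => f1 (congrArg Subtype.val e), by simpa using hc⟩
  obtain ⟨φ, hφ⟩ : ∃ φ : A ≃ B, ∀ a : A, G.Adj a (φ a) :=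
    ⟨Equiv.ofBijective _ fb, fun a => (mem_filter.1 (f2 a)).2⟩
  refine ⟨fun x => if h : x ∈ A then φ ⟨x, h⟩ else if h : x ∈ B then φ.symm ⟨x, h⟩ else x,
    fun x hx => ?_⟩
  by_cases a : x ∈ A
  · have k : (φ ⟨x, a⟩ : V) ∉ A := disjoint_right.1 hd (φ ⟨x, a⟩).2
    simp only [a, k, dif_pos, dif_neg, not_false_iff, (φ ⟨x, a⟩).2, Subtype.coe_eta,
      symm_apply_apply, mem_union, or_true, true_and]
    exact hφ ⟨x, a⟩
  · have b := (mem_union.1 hx).resolve_left a
    simp only [a, b, dif_pos, dif_neg, not_false_iff, (φ.symm ⟨x, b⟩).2, Subtype.coe_eta,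
      apply_symm_apply, mem_union, true_or, true_and]
    simpa using (hφ (φ.symm ⟨x, b⟩)).symm

/-- Completing a matching with the help of three reserved sets. -/
theorem complete_mat {ξ c : ℝ} (hb : ∀ X Y : Finset V, ξ < #X → ξ < #Y → 0 < er G.Adj X Y)
    (hs : ∀ X Y : Finset V, X.Nonempty → (#X : ℝ) ≤ ξ → #Y ≤ #X → (er G.Adj X Y : ℝ) < c * #X)
    {V0 R A B C : Finset V} {s : V → V} (hR : R ⊆ V0) (hM : Mat G R s)
    (d1 : Disjoint V0 (A ∪ B ∪ C)) (d2 : Disjoint A B) (d3 : Disjoint (A ∪ B) C)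
    (hA : ∀ v, c ≤ #{w ∈ A | G.Adj v w}) (hB : ∀ v, c ≤ #{w ∈ B | G.Adj v w})
    (h1 : ξ + #A ≤ #B + #C) (h2 : #B ≤ #A + #C) (he : Even #(V0 ∪ (A ∪ B ∪ C))) :
    ∃ s', Mat G (V0 ∪ (A ∪ B ∪ C)) s' ∧ ∀ x ∈ R, s' x = s x := by
  obtain ⟨R', r1, s', r2, r3⟩ := max_mat hb (V0 \ R)
  obtain ⟨I, hI⟩ : ∃ I, I = (V0 \ R) \ R' := ⟨_, rfl⟩
  rw [← hI] at r3
  have i1 : I ⊆ V0 := hI ▸ sdiff_subset.trans sdiff_subset
  have e1 := card_sdiff_add_card_eq_card hR
  have e2 := card_sdiff_add_card_eq_card r1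
  rw [← hI] at e2
  rw [card_union_of_disjoint d1, card_union_of_disjoint d3, card_union_of_disjoint d2] at he
  have e3 := (Mat.invo hM).even
  have e4 := (Mat.invo r2).even
  have e5 : #I + #A ≤ #B + #C := by exact_mod_cast (by linarith : (#I + #A : ℝ) ≤ #B + #C)
  rw [Nat.even_iff] at he e3 e4
  obtain ⟨C1, c1, c2⟩ := exists_subset_card_eq (s := C) (n := (#B + #C - #I - #A) / 2) (by omega)
  have e6 := card_sdiff_add_card_eq_card c1
  simp only [disjoint_union_left, disjoint_union_right] at d1 d3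
  have d4 : Disjoint I A := d1.1.1.mono_left i1
  have d5 : Disjoint (I ∪ A) C1 :=
    disjoint_union_left.2 ⟨d1.2.mono i1 c1, d3.1.mono_right c1⟩
  have d6 : Disjoint B (C \ C1) := d3.2.mono_right sdiff_subset
  obtain ⟨s'', r4⟩ := hall_mat hb hs (A := I ∪ A ∪ C1) (B := B ∪ C \ C1)
    (by
      simp only [disjoint_union_left, disjoint_union_right]
      exact ⟨⟨⟨d1.1.2.mono_left i1, d2⟩, (d3.2.mono_right c1).symm⟩,
        ⟨d1.2.mono i1 sdiff_subset, d3.1.mono_right sdiff_subset⟩, disjoint_sdiff⟩)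
    (by rw [card_union_of_disjoint d5, card_union_of_disjoint d4, card_union_of_disjoint d6]; omega)
    (fun v => (hA v).trans (Nat.cast_le.2 (card_le_card (filter_subset_filter _
      (subset_union_right.trans subset_union_left)))))
    (fun v => (hB v).trans (Nat.cast_le.2 (card_le_card (filter_subset_filter _
      subset_union_left))))
  have d7 : Disjoint R R' := disjoint_sdiff.mono_right r1
  have k := mat_union (by
    rw [disjoint_left]
    intro x hx hx'
    have a : x ∈ V0 := (mem_union.1 hx).elim (hR ·) fun a => (mem_sdiff.1 (r1 a)).1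
    have b : x ∉ I := fun b => by
      rw [hI, mem_sdiff, mem_sdiff] at b
      exact (mem_union.1 hx).elim b.1.2 b.2
    simp only [mem_union, mem_sdiff] at hx'
    rcases hx' with ((k | k) | k) | k | k
    · exact b k
    · exact disjoint_left.1 d1.1.1 a k
    · exact disjoint_left.1 d1.2 a (c1 k)
    · exact disjoint_left.1 d1.1.2 a k
    · exact disjoint_left.1 d1.2 a k.1) (mat_union d7 hM r2) r4
  have e : R ∪ R' ∪ (I ∪ A ∪ C1 ∪ (B ∪ C \ C1)) = V0 ∪ (A ∪ B ∪ C) := by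
    ext x
    have a1 := @hR x
    have a2 := @r1 x
    have a3 := @c1 x
    simp only [hI, mem_union, mem_sdiff] at a2 ⊢
    tauto
  rw [e] at k
  exact ⟨_, k, fun x hx => by simp [hx]⟩

/-- A cyclic order of compatible segments is a compatible Hamilton cycle. -/
theorem ham_of_seg {ι : Type} [Fintype ι] [Nonempty ι] {F : V → V → V → Prop} (seg : ι → List V)
    (i si o so : ι → V) (h1 : ∀ u, ∃ r, seg u = i u :: si u :: r)
    (h2 : ∀ u, ∃ r, seg u = r ++ [so u, o u]) (h3 : ∀ u, CW G F (seg u))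
    (h4 : ∀ u, (seg u).Nodup) (h5 : ∀ u w, ∀ v ∈ seg u, v ∈ seg w → u = w)
    (h6 : ∀ v, ∃ u, v ∈ seg u) (σ : Perm ι) (hσ : ∀ x y, σ.SameCycle x y)
    (arc : ∀ u, G.Adj (o u) (i (σ u)) ∧ ¬ F (o u) (so u) (i (σ u)) ∧
      ¬ F (i (σ u)) (o u) (si (σ u))) : HamList G F := by
  obtain ⟨u₀⟩ := ‹Nonempty ι›
  have adj : ∀ u, G.Adj (i u) (si u) := fun u => by
    obtain ⟨r, e⟩ := h1 u
    exact CW.adj (e ▸ h3 u)
  have key : ∀ k : ℕ, CW G F ((List.range k).flatMap (fun j => seg ((σ ^ j) u₀)) ++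
      [i ((σ ^ k) u₀), si ((σ ^ k) u₀)]) := fun k => by
    induction k with
    | zero => exact adj _
    | succ k ih =>
      obtain ⟨r, e⟩ := h1 ((σ ^ k) u₀)
      obtain ⟨r', e'⟩ := h2 ((σ ^ k) u₀)
      have a := ih.overlap (e ▸ h3 _)
      rw [← e, e', ← List.append_assoc] at a
      have b := a.overlap (r := [i (σ ((σ ^ k) u₀)), si (σ ((σ ^ k) u₀))])
        ⟨CW.adj a.right, (arc _).2.1, (arc _).1, (arc _).2.2, adj _⟩
      rw [List.range_succ, List.flatMap_append, List.flatMap_singleton, e', pow_succ',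
        Perm.mul_apply]
      simpa using b
  have k := key (per σ u₀)
  rw [pow_per] at k
  obtain ⟨r, e⟩ : ∃ r, (List.range (per σ u₀)).flatMap (fun j => seg ((σ ^ j) u₀)) =
      i u₀ :: si u₀ :: r := by
    obtain ⟨r, e⟩ := h1 u₀
    obtain ⟨m, hm⟩ : ∃ m, per σ u₀ = m + 1 := ⟨_, (Nat.succ_pred_eq_of_pos (per_pos σ u₀)).symm⟩
    rw [hm, List.range_succ_eq_map, List.flatMap_cons, pow_zero, Perm.one_apply, e]
    exact ⟨_, rfl⟩
  refine ⟨i u₀, si u₀, r, e ▸ k, e ▸ List.nodup_flatMap.2 ⟨fun _ _ => h4 _, ?_⟩, fun v => ?_⟩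
  · refine List.nodup_range.pairwise_of_forall_ne fun a ha b hb c v hv hv' => c ?_
    exact pow_inj (List.mem_range.1 ha) (List.mem_range.1 hb) (h5 _ _ v hv hv')
  · obtain ⟨u, hu⟩ := h6 v
    obtain ⟨j, a, b⟩ := sc_lt (hσ u₀ u)
    exact e ▸ List.mem_flatMap.2 ⟨j, List.mem_range.2 a, b ▸ hu⟩

end Pool.Agent.MP_d6d719_co.H74

end MrgPart0

-- ======== part 1: formerly Pool.Agent.MP_d6d719_co.h91.MainA
section MrgPart1

set_option autoImplicit false

open Finset
open scoped Classical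

namespace Pool.Agent.MP_d6d719_co.H91

/-- Two-sided exponential penalty. -/
noncomputable def pen (l y b : ℝ) : ℝ := Real.exp (l * (y - b)) + Real.exp (l * (-y - b))

theorem pen_pos (l y b : ℝ) : 0 < pen l y b := by unfold pen; positivity

theorem abs_lt_of_pen {l y b : ℝ} (hl : 0 < l) (h : pen l y b < 1) : |y| ≤ b := by
  unfold pen at h
  have h1 : Real.exp (l * (y - b)) < 1 := by linarith [Real.exp_pos (l * (-y - b))]
  have h2 : Real.exp (l * (-y - b)) < 1 := by linarith [Real.exp_pos (l * (y - b))]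
  rw [Real.exp_lt_one_iff] at h1 h2
  rw [abs_le]
  constructor <;> nlinarith

theorem pen_le {l y b c : ℝ} (hl : 0 ≤ l) (h : |y| + c ≤ b) : pen l y b ≤ 2 * Real.exp (-(l * c)) := by
  unfold pen
  have h1 := le_abs_self y
  have h2 := neg_abs_le y
  rw [two_mul]
  exact add_le_add (Real.exp_le_exp.2 (by nlinarith)) (Real.exp_le_exp.2 (by nlinarith))

theorem sum_exp_le {α : Type} (E : Finset α) (Δ : α → ℝ) {l J η θ : ℝ} (hl : 0 ≤ l)
    (hJ : l * J ≤ 1) (h1 : ∀ a ∈ E, |Δ a| ≤ J) (h2 : ∑ a ∈ E, Δ a ≤ E.card * η)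
    (h3 : ∑ a ∈ E, |Δ a| ≤ E.card * θ) (hJ0 : 0 ≤ J) :
    ∑ a ∈ E, Real.exp (l * Δ a) ≤ E.card * Real.exp (l * (η + l * J * θ)) := by
  have h4 : ∀ a ∈ E, Real.exp (l * Δ a) ≤ 1 + l * Δ a + l * (l * J) * |Δ a| := by
    intro a ha
    have a1 : |l * Δ a| ≤ l * J := by
      rw [abs_mul, abs_of_nonneg hl]; exact mul_le_mul_of_nonneg_left (h1 a ha) hl
    have a2 := (abs_le.1 (Real.abs_exp_sub_one_sub_id_le (a1.trans hJ))).2
    have a3 : (l * Δ a) ^ 2 ≤ l * (l * J) * |Δ a| := by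
      rw [← sq_abs, sq]
      refine (mul_le_mul_of_nonneg_right a1 (abs_nonneg _)).trans (le_of_eq ?_)
      rw [abs_mul, abs_of_nonneg hl]; ring
    linarith
  have h5 := sum_le_sum h4
  simp only [sum_add_distrib, ← mul_sum, sum_const, nsmul_eq_mul, mul_one] at h5
  have h6 := mul_le_mul_of_nonneg_left h2 hl
  have h7 := mul_le_mul_of_nonneg_left h3 (show 0 ≤ l * (l * J) by positivity)
  have h8 := mul_le_mul_of_nonneg_left (Real.add_one_le_exp (l * (η + l * J * θ)))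
    (Nat.cast_nonneg (α := ℝ) E.card)
  linarith

theorem sum_pen_le {α : Type} (E : Finset α) (Δ : α → ℝ) {l J η θ y b b' : ℝ} (hl : 0 ≤ l)
    (hJ : l * J ≤ 1) (h1 : ∀ a ∈ E, |Δ a| ≤ J) (h2 : |∑ a ∈ E, Δ a| ≤ E.card * η)
    (h3 : ∑ a ∈ E, |Δ a| ≤ E.card * θ) (hJ0 : 0 ≤ J) (hb : b + η + l * J * θ ≤ b') :
    ∑ a ∈ E, pen l (y + Δ a) b' ≤ E.card * pen l y b := by
  have a1 := sum_exp_le E Δ hl hJ h1 (abs_le.1 h2).2 h3 hJ0
  have a2 := sum_exp_le E (fun a => -Δ a) (η := η) (θ := θ) hl hJ (by simpa using h1)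
    (by rw [sum_neg_distrib]; linarith [(abs_le.1 h2).1]) (by simpa using h3) hJ0
  have key : ∀ (z : ℝ) (D : α → ℝ), ∑ a ∈ E, Real.exp (l * D a) ≤
      E.card * Real.exp (l * (η + l * J * θ)) →
      ∑ a ∈ E, Real.exp (l * (z + D a - b')) ≤ E.card * Real.exp (l * (z - b)) := by
    intro z D h
    have e1 : ∀ a, Real.exp (l * (z + D a - b')) = Real.exp (l * (z - b')) * Real.exp (l * D a) :=
      fun a => by rw [← Real.exp_add]; congr 1; ring
    simp only [e1, ← mul_sum]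
    refine (mul_le_mul_of_nonneg_left h (Real.exp_pos _).le).trans ?_
    rw [mul_left_comm, ← Real.exp_add]
    exact mul_le_mul_of_nonneg_left (Real.exp_le_exp.2 (by nlinarith)) (by positivity)
  unfold pen
  rw [sum_add_distrib, mul_add]
  refine add_le_add (key y Δ a1) (le_trans (le_of_eq ?_) (key (-y) _ a2))
  exact sum_congr rfl fun a _ => by congr 2; ring

theorem sum_pen_scaled {α : Type} (E : Finset α) (Δ D : α → ℝ) {κ l J η θ y b b' : ℝ}
    (hκ : 0 < κ) (hD : ∀ a ∈ E, Δ a * κ = D a) (hl : 0 ≤ l)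
    (hJ : l * J ≤ 1) (h1 : ∀ a ∈ E, |D a| ≤ J * κ) (h2 : |∑ a ∈ E, D a| ≤ E.card * η * κ)
    (h3 : ∑ a ∈ E, |D a| ≤ E.card * θ * κ) (hJ0 : 0 ≤ J) (hb : b + η + l * J * θ ≤ b') :
    ∑ a ∈ E, pen l (y + Δ a) b' ≤ E.card * pen l y b := by
  have e : ∀ a ∈ E, |D a| = |Δ a| * κ := fun a ha => by rw [← hD a ha, abs_mul, abs_of_pos hκ]
  refine sum_pen_le E Δ hl hJ (fun a ha => le_of_mul_le_mul_right (e a ha ▸ h1 a ha) hκ)
    (le_of_mul_le_mul_right ?_ hκ) (le_of_mul_le_mul_right ?_ hκ) hJ0 hb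
  · rwa [← sum_congr rfl hD, ← sum_mul, abs_mul, abs_of_pos hκ] at h2
  · rwa [sum_congr rfl e, ← sum_mul] at h3

variable {V : Type} (G : SimpleGraph V)

/-- Degree into `U`. -/
noncomputable def dg (U : Finset V) (v : V) : ℕ := #{u ∈ U | G.Adj v u}

/-- Ordered adjacent pairs inside `U`. -/
noncomputable def EP (U : Finset V) : Finset (V × V) := (U ×ˢ U).filter fun x => G.Adj x.1 x.2

/-- Pairs of `X` that are edges inside `U`. -/
noncomputable def ZX (X : Finset (V × V)) (U : Finset V) : Finset (V × V) :=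
  X.filter fun x => x.1 ∈ U ∧ x.2 ∈ U ∧ G.Adj x.1 x.2

variable {G}

theorem mem_EP {U : Finset V} {x : V × V} : x ∈ EP G U ↔ x.1 ∈ U ∧ x.2 ∈ U ∧ G.Adj x.1 x.2 := by
  simp [EP, and_assoc]

theorem sum_EP_fst (U : Finset V) (g : V → ℝ) :
    ∑ x ∈ EP G U, g x.1 = ∑ u ∈ U, dg G U u * g u := by
  rw [EP, sum_filter, sum_product]
  refine sum_congr rfl fun u _ => ?_
  rw [← sum_filter]
  simp [dg]

theorem sum_EP_swap (U : Finset V) (g : V × V → ℝ) :
    ∑ x ∈ EP G U, g x.swap = ∑ x ∈ EP G U, g x :=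
  sum_bij' (fun x _ => x.swap) (fun x _ => x.swap)
    (fun x hx => by rw [mem_EP] at hx ⊢; exact ⟨hx.2.1, hx.1, hx.2.2.symm⟩)
    (fun x hx => by rw [mem_EP] at hx ⊢; exact ⟨hx.2.1, hx.1, hx.2.2.symm⟩)
    (fun _ _ => rfl) (fun _ _ => rfl) (fun _ _ => rfl)

theorem sum_EP_both (U : Finset V) (g : V → ℝ) :
    ∑ x ∈ EP G U, (g x.1 + g x.2) = 2 * ∑ u ∈ U, dg G U u * g u := by
  rw [sum_add_distrib, ← sum_EP_swap U (fun x => g x.2), two_mul]
  simp only [Prod.snd_swap, sum_EP_fst]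

theorem dg_erase {U : Finset V} {x : V × V} (hx : x ∈ EP G U) (v : V) :
    (dg G ((U.erase x.1).erase x.2) v : ℝ) = dg G U v -
      ((if G.Adj v x.1 then 1 else 0) + if G.Adj v x.2 then 1 else 0) := by
  obtain ⟨h1, h2, h3⟩ := mem_EP.1 hx
  simp only [dg, card_filter]
  push_cast
  rw [← add_sum_erase U _ h1, ← add_sum_erase (U.erase x.1) _ (mem_erase.2 ⟨h3.ne', h2⟩)]
  ring

theorem ZX_erase (X : Finset (V × V)) {U : Finset V} {x : V × V} (hx : x ∈ EP G U) :
    ((ZX G X ((U.erase x.1).erase x.2)).card : ℝ) = (ZX G X U).card -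
      (∑ z ∈ ZX G X U, ((if z.1 = x.1 then 1 else 0) + if z.2 = x.1 then 1 else 0) +
        ∑ z ∈ ZX G X U, ((if z.1 = x.2 then 1 else 0) + if z.2 = x.2 then 1 else 0)) +
      ((if x ∈ ZX G X U then 1 else 0) + if x.swap ∈ ZX G X U then 1 else 0) := by
  obtain ⟨a, b⟩ := x
  have hab : a ≠ b := (mem_EP.1 hx).2.2.ne
  have e1 : ZX G X ((U.erase a).erase b) =
      (ZX G X U).filter fun z => z.1 ≠ a ∧ z.1 ≠ b ∧ z.2 ≠ a ∧ z.2 ≠ b := by
    ext z
    simp only [ZX, mem_filter, mem_erase]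
    tauto
  have e2 : ∀ y : V × V, (if y ∈ ZX G X U then (1 : ℝ) else 0) =
      ∑ z ∈ ZX G X U, if z = y then 1 else 0 := fun y => by simp
  simp only [e1, e2, card_filter]
  rw [card_eq_sum_ones (ZX G X U)]
  push_cast
  rw [← sum_add_distrib, ← sum_add_distrib, ← sum_sub_distrib, ← sum_add_distrib]
  refine sum_congr rfl fun z hz => ?_
  obtain ⟨c, d⟩ := z
  have hcd : c ≠ d := (mem_filter.1 hz).2.2.2.ne
  by_cases h1 : c = a <;> by_cases h2 : c = b <;> by_cases h3 : d = a <;> by_cases h4 : d = b <;>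
    simp_all

section step

variable {U : Finset V} {q η : ℝ}

theorem sum_dg_le (hD : ∀ v, |(dg G U v : ℝ) - q| ≤ η * q) (g : V → ℝ) (hg : ∀ u, 0 ≤ g u) :
    |∑ u ∈ U, dg G U u * g u - q * ∑ u ∈ U, g u| ≤ η * q * ∑ u ∈ U, g u := by
  rw [mul_sum, mul_sum, ← sum_sub_distrib]
  refine (abs_sum_le_sum_abs _ _).trans (sum_le_sum fun u _ => ?_)
  rw [← sub_mul, abs_mul, abs_of_nonneg (hg u)]
  exact mul_le_mul_of_nonneg_right (hD u) (hg u)

theorem card_EP (hD : ∀ v, |(dg G U v : ℝ) - q| ≤ η * q) :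
    |((EP G U).card : ℝ) - q * U.card| ≤ η * q * U.card := by
  have h1 := sum_dg_le hD (fun _ => 1) fun _ => zero_le_one
  rw [← sum_EP_fst] at h1
  simpa using h1

theorem test_one (hD : ∀ v, |(dg G U v : ℝ) - q| ≤ η * q) {ρ n n0 d l y b b' : ℝ} (v : V)
    (hq : q * n0 = d * U.card) (hη : η ≤ 1 / 4) (hη0 : 0 ≤ η) (hρ : 0 < ρ) (hρ1 : ρ ≤ 1)
    (hN : ρ * n ≤ U.card) (hN4 : 4 ≤ (U.card : ℝ)) (hn0 : n0 ≤ n) (hn1 : U.card ≤ n0) (hd : 0 < d)
    (hl : 0 ≤ l) (hl1 : l ≤ η) (hJ : l * (18 / ρ) ≤ 1)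
    (hb : b + 700 / ρ ^ 3 / n * η * d ≤ b') :
    ∑ x ∈ EP G U, pen l (dg G ((U.erase x.1).erase x.2) v * n0 / (U.card - 2) - y) b' ≤
      (EP G U).card * pen l (dg G U v * n0 / U.card - y) b := by
  obtain ⟨N, hN'⟩ : ∃ N : ℝ, N = U.card := ⟨_, rfl⟩
  obtain ⟨D, hD'⟩ : ∃ D : ℝ, D = dg G U v := ⟨_, rfl⟩
  obtain ⟨M, hM'⟩ : ∃ M : ℝ, M = (EP G U).card := ⟨_, rfl⟩
  have hM := abs_le.1 (card_EP hD)
  have hS := abs_le.1 (sum_dg_le hD (fun u => if G.Adj v u then 1 else 0)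
    fun u => by split_ifs <;> norm_num)
  have hH := sum_EP_both (G := G) U (fun u => if G.Adj v u then 1 else 0)
  have hDv := abs_le.1 (hD v)
  have hDN : D ≤ N := by rw [hD', hN']; exact_mod_cast card_filter_le _ _
  rw [sum_boole, ← dg] at hS
  rw [← hN'] at hq hN hN4 hn1 hM
  rw [← hD'] at hS hDv
  rw [← hM'] at hM
  have hD0 : 0 ≤ D := by rw [hD']; positivity
  have hn00 : 0 < n0 := by linarith
  have hn : 0 < n := by linarith
  have hq0 : 0 < q := (pos_iff_pos_of_mul_pos (hq ▸ mul_pos hd (by linarith))).2 hn00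
  have hNN : N ≠ 0 := by linarith
  have hN2 : N - 2 ≠ 0 := by linarith
  rw [← hN', ← hD']
  have e1 : ∀ x ∈ EP G U, pen l (dg G ((U.erase x.1).erase x.2) v * n0 / (N - 2) - y) b' =
      pen l (D * n0 / N - y + (2 * D / N - ((if G.Adj v x.1 then 1 else 0) +
        if G.Adj v x.2 then 1 else 0)) * n0 / (N - 2)) b' := fun x hx => by
    rw [dg_erase hx, ← hD']
    congr 1
    field_simp
    ring
  rw [sum_congr rfl e1]
  have hκ : ρ / 2 ≤ (N - 2) / n0 := by
    rw [div_le_div_iff₀ (by norm_num) hn00]; nlinarith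
  have hDq : D ≤ 5 / 4 * q := by nlinarith
  have hMκ : 3 / 8 * (ρ * n) * (q * q) ≤ M * ((N - 2) / n0) * d := by
    have a1 : (N - 2) / n0 * d = q * ((N - 2) / N) := by
      field_simp; linarith
    have a2 : 1 / 2 ≤ (N - 2) / N := by rw [div_le_div_iff₀ (by norm_num) (by linarith)]; linarith
    have a3 : 3 / 4 * (ρ * n) * q ≤ M := by nlinarith [mul_pos hq0 (show 0 < N by linarith)]
    rw [mul_assoc M, a1]
    have := mul_le_mul a3 (mul_le_mul_of_nonneg_left a2 hq0.le) (by positivity)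
      (le_trans (by positivity) a3)
    linarith
  have hdiv : ∀ c : ℝ, 0 ≤ c → 3 / 8 * c * (q * q) ≤ M * (c * d / (ρ * n)) * ((N - 2) / n0) := by
    intro c hc
    have := mul_le_mul_of_nonneg_left hMκ (show 0 ≤ c / (ρ * n) by positivity)
    have e2 : c / (ρ * n) * (3 / 8 * (ρ * n) * (q * q)) = 3 / 8 * c * (q * q) := by field_simp
    have e3 : c / (ρ * n) * (M * ((N - 2) / n0) * d) = M * (c * d / (ρ * n)) * ((N - 2) / n0) := by
      ring
    linarith
  refine sum_pen_scaled (EP G U) _ (fun x => 2 * D / N - ((if G.Adj v x.1 then 1 else 0) +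
      if G.Adj v x.2 then 1 else 0)) (κ := (N - 2) / n0) (J := 18 / ρ)
    (η := 14 * η * d / (ρ * n)) (θ := 17 * d / (ρ * n)) (by linarith)
    (fun x _ => by field_simp) hl hJ (fun x _ => ?_) ?_ ?_ (by positivity) ?_
  · have a1 : 0 ≤ 2 * D / N := by positivity
    have a2 : 2 * D / N ≤ 2 := by rw [div_le_iff₀ (by linarith)]; linarith
    have a3 : 18 / ρ * (ρ / 2) ≤ 18 / ρ * ((N - 2) / n0) :=
      mul_le_mul_of_nonneg_left hκ (by positivity)
    rw [show 18 / ρ * (ρ / 2) = 9 by field_simp; norm_num] at a3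
    rw [abs_le]
    constructor <;> split_ifs <;> linarith
  · rw [sum_sub_distrib, hH, sum_const, nsmul_eq_mul, ← hM']
    have a1 := hdiv (14 * η) (by positivity)
    have a2 : |M * (2 * D / N) - 2 * (q * D)| ≤ 2 * (η * q * D) := by
      rw [show M * (2 * D / N) - 2 * (q * D) = (M - q * N) * (2 * D / N) by field_simp, abs_mul,
        abs_of_nonneg (show 0 ≤ 2 * D / N by positivity),
        show 2 * (η * q * D) = η * q * N * (2 * D / N) by field_simp]
      exact mul_le_mul_of_nonneg_right (abs_le.2 hM) (by positivity)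
    have a3 := mul_le_mul_of_nonneg_left hDq (show 0 ≤ η * q by positivity)
    have a4 : 0 ≤ η * (q * q) := by positivity
    rw [abs_le] at a2 ⊢
    constructor <;> linarith [a2.1, a2.2, hS.1, hS.2]
  · have a0 : ∀ x ∈ EP G U, |2 * D / N - ((if G.Adj v x.1 then 1 else 0) +
        if G.Adj v x.2 then 1 else 0)| ≤ 2 * D / N + ((if G.Adj v x.1 then 1 else 0) +
        if G.Adj v x.2 then 1 else 0) := fun x _ => by
      have a1 : 0 ≤ 2 * D / N := by positivity
      rw [abs_le]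
      constructor <;> split_ifs <;> linarith
    refine (sum_le_sum a0).trans ?_
    rw [sum_add_distrib, hH, sum_const, nsmul_eq_mul, ← hM']
    have a1 := hdiv 17 (by norm_num)
    have a2 : M * (2 * D / N) ≤ 5 / 4 * q * N * (2 * D / N) :=
      mul_le_mul_of_nonneg_right (by nlinarith [mul_pos hq0 (show 0 < N by linarith)])
        (by positivity)
    rw [show 5 / 4 * q * N * (2 * D / N) = 5 / 2 * (q * D) by field_simp; ring] at a2
    have a3 := mul_le_mul_of_nonneg_left hDq hq0.le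
    have a4 := mul_le_mul_of_nonneg_right hη (show 0 ≤ q * D by positivity)
    nlinarith [hS.2]
  · refine le_trans ?_ hb
    have a1 : l * (18 / ρ) * (17 * d / (ρ * n)) ≤ η * (18 / ρ) * (17 * d / (ρ * n)) := by gcongr
    have a2 : 14 * η * d / (ρ * n) + η * (18 / ρ) * (17 * d / (ρ * n)) =
        (14 * ρ ^ 2 + 306 * ρ) / ρ ^ 3 / n * η * d := by field_simp; ring
    have a3 : (14 * ρ ^ 2 + 306 * ρ) / ρ ^ 3 / n * η * d ≤ 700 / ρ ^ 3 / n * η * d := by
      gcongr; nlinarith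
    linarith

end step

end Pool.Agent.MP_d6d719_co.H91

end MrgPart1

-- ======== part 2: formerly Pool.Agent.MP_d6d719_co.h91.MainProc
section MrgPart2

set_option autoImplicit false

open Finset
open scoped Classical

namespace Pool.Agent.MP_d6d719_co.H91

variable {V : Type} {G : SimpleGraph V} {U : Finset V} {q η : ℝ}

theorem ZX_subset (X : Finset (V × V)) (U : Finset V) : ZX G X U ⊆ EP G U := fun _ hz =>
  mem_EP.2 (mem_filter.1 hz).2

theorem inc_le (X : Finset (V × V)) (U : Finset V) (a : V) :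
    ∑ z ∈ ZX G X U, ((if z.1 = a then 1 else 0) + if z.2 = a then (1 : ℝ) else 0) ≤
      2 * dg G U a := by
  rw [sum_add_distrib, sum_boole, sum_boole, two_mul]
  refine add_le_add (Nat.cast_le.2 (card_le_card_of_injOn Prod.snd (fun z hz => ?_)
    fun z hz z' hz' e => ?_)) (Nat.cast_le.2 (card_le_card_of_injOn Prod.fst (fun z hz => ?_)
    fun z hz z' hz' e => ?_))
  · simp only [ZX, coe_filter, mem_filter, Set.mem_ofPred_eq] at hz ⊢
    exact ⟨hz.1.2.2.1, hz.2 ▸ hz.1.2.2.2⟩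
  · exact Prod.ext ((mem_filter.1 hz).2.trans (mem_filter.1 hz').2.symm) e
  · simp only [ZX, coe_filter, mem_filter, Set.mem_ofPred_eq] at hz ⊢
    exact ⟨hz.1.2.1, hz.2 ▸ hz.1.2.2.2.symm⟩
  · exact Prod.ext e ((mem_filter.1 hz).2.trans (mem_filter.1 hz').2.symm)

theorem sum_inc (X : Finset (V × V)) (U : Finset V) :
    ∑ a ∈ U, ∑ z ∈ ZX G X U, ((if z.1 = a then 1 else 0) + if z.2 = a then (1 : ℝ) else 0) =
      2 * (ZX G X U).card := by
  rw [sum_comm, mul_comm, ← nsmul_eq_mul, ← sum_const]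
  refine sum_congr rfl fun z hz => ?_
  obtain ⟨-, h1, h2, -⟩ := mem_filter.1 hz
  rw [sum_add_distrib, sum_ite_eq, sum_ite_eq, if_pos h1, if_pos h2]
  norm_num

theorem test_two (hD : ∀ v, |(dg G U v : ℝ) - q| ≤ η * q) {ρ n n0 d l y b b' w c : ℝ}
    (X : Finset (V × V)) (hw : ((ZX G X U).card : ℝ) ≤ w * d)
    (hq : q * n0 = d * U.card) (hη : η ≤ 1 / 4) (hη0 : 0 ≤ η) (hρ : 0 < ρ) (hρ1 : ρ ≤ 1)
    (hN : ρ * n ≤ U.card) (hN4 : 4 ≤ (U.card : ℝ)) (hn0 : n0 ≤ n) (hn1 : U.card ≤ n0) (hd : 0 < d)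
    (hl : 0 ≤ l) (hl1 : l ≤ η) (hJ : l * (18 / ρ) ≤ 1) (hld : 1 ≤ l * d)
    (hb : b + 700 / ρ ^ 3 / n * η * w ≤ b') :
    ∑ x ∈ EP G U, pen l (c + ((if x ∈ ZX G X U then 1 else 0) + if x.swap ∈ ZX G X U then 1 else 0)
      + (ZX G X ((U.erase x.1).erase x.2)).card * n0 / ((U.card - 2) * d) - y) b' ≤
      (EP G U).card * pen l (c + (ZX G X U).card * n0 / (U.card * d) - y) b := by
  obtain ⟨N, hN'⟩ : ∃ N : ℝ, N = U.card := ⟨_, rfl⟩
  obtain ⟨A, hA'⟩ : ∃ A : ℝ, A = (ZX G X U).card := ⟨_, rfl⟩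
  obtain ⟨M, hM'⟩ : ∃ M : ℝ, M = (EP G U).card := ⟨_, rfl⟩
  obtain ⟨g, hg⟩ : ∃ g : V → ℝ, ∀ a, g a =
    ∑ z ∈ ZX G X U, ((if z.1 = a then 1 else 0) + if z.2 = a then (1 : ℝ) else 0) :=
    ⟨_, fun _ => rfl⟩
  obtain ⟨j, hj⟩ : ∃ j : V × V → ℝ, ∀ x, j x =
    (if x ∈ ZX G X U then 1 else 0) + if x.swap ∈ ZX G X U then 1 else 0 := ⟨_, fun _ => rfl⟩
  have hg0 : ∀ a, 0 ≤ g a := fun a => by
    rw [hg]; exact sum_nonneg fun z _ => by split_ifs <;> norm_num
  have hj0 : ∀ x, 0 ≤ j x ∧ j x ≤ 2 := fun x => by rw [hj]; split_ifs <;> norm_num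
  have hM := abs_le.1 (card_EP hD)
  have hS := abs_le.1 (sum_dg_le hD g hg0)
  have hH := sum_EP_both (G := G) U g
  have hg2 : ∑ a ∈ U, g a = 2 * A := by simp only [hg, sum_inc, hA']
  have hj2 : ∑ x ∈ EP G U, j x = 2 * A := by
    simp only [hj]
    rw [sum_add_distrib, sum_EP_swap U (fun x => if x ∈ ZX G X U then 1 else 0), sum_boole,
      filter_mem_eq_inter, inter_eq_right.2 (ZX_subset X U), hA', two_mul]
  have hAM : A ≤ M := by rw [hA', hM']; exact_mod_cast card_le_card (ZX_subset X U)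
  have hA0 : 0 ≤ A := by rw [hA']; positivity
  have hqN : 3 / 4 * q ≤ N := by
    obtain ⟨v, -⟩ : U.Nonempty := card_pos.1 (by exact_mod_cast (by linarith : (0 : ℝ) < U.card))
    have a1 : (dg G U v : ℝ) ≤ N := by rw [hN']; exact_mod_cast card_filter_le _ _
    have a2 := (abs_le.1 (hD v)).1
    rcases le_total 0 q with h | h <;> nlinarith
  rw [hg2] at hS
  rw [← hN'] at hq hN hN4 hn1 hM
  rw [← hM'] at hM
  rw [← hA'] at hw
  have hn00 : 0 < n0 := by linarith
  have hn : 0 < n := by linarith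
  have hN0 : 0 < N := by linarith
  have hq0 : 0 < q := (pos_iff_pos_of_mul_pos (hq ▸ mul_pos hd hN0)).2 hn00
  have hN2 : 0 < N - 2 := by linarith
  have hg3 : ∀ a, g a ≤ 5 / 2 * q := fun a => by
    have := (abs_le.1 (hD a)).2
    have := hg a ▸ inc_le (G := G) X U a
    nlinarith
  have hw0 : 0 ≤ w := by
    by_contra h
    nlinarith
  have hqd : ρ * d ≤ q := by
    refine le_of_mul_le_mul_right ?_ hn00
    nlinarith [mul_le_mul_of_nonneg_left hn0 (mul_pos hρ hd).le]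
  have hq18 : 18 ≤ q := by
    rw [← mul_div_assoc, div_le_one hρ] at hJ
    nlinarith
  have hηq : ρ ≤ η * q := by nlinarith [mul_le_mul_of_nonneg_right hl1 hd.le]
  obtain ⟨κ, hκ⟩ : ∃ κ, κ = (N - 2) * d / n0 := ⟨_, rfl⟩
  have hκ1 : κ = q - 2 * (q / N) := by
    rw [hκ]; field_simp; linarith
  have hqN2 : q / N ≤ 4 / 3 := by rw [div_le_iff₀ hN0]; linarith
  have hqN3 : q / N ≤ q / 4 := div_le_div_of_nonneg_left hq0.le (by norm_num) hN4
  have hqN0 : 0 ≤ q / N := by positivity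
  have hκ0 : 0 < κ := by linarith
  rw [← hN', ← hA']
  simp only [← hj]
  have e1 : ∀ x ∈ EP G U, pen l (c + j x +
      (ZX G X ((U.erase x.1).erase x.2)).card * n0 / ((N - 2) * d) - y) b' =
      pen l (c + A * n0 / (N * d) - y + (j x * (κ + 1) + 2 * A / N - (g x.1 + g x.2)) / κ) b' :=
    fun x hx => by
      rw [ZX_erase X hx, ← hA', ← hg, ← hg, ← hj, hκ]
      congr 1
      field_simp
      ring
  rw [sum_congr rfl e1]
  have hM3 : 3 / 4 * (q * N) ≤ M := by nlinarith [mul_pos hq0 hN0]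
  have hM5 : M ≤ 5 / 4 * (q * N) := by nlinarith [mul_pos hq0 hN0]
  have hdiv : ∀ c : ℝ, 0 ≤ c → 3 / 8 * c * (A * q) ≤ M * (c * w / (ρ ^ 2 * n)) * κ := by
    intro c hc
    have a1 : 3 / 4 * (q * N) * (q / 2) ≤ M * κ :=
      mul_le_mul hM3 (by linarith) (by positivity) (by nlinarith [mul_pos hq0 hN0])
    have a2 : ρ * n * (ρ * d) ≤ N * q := mul_le_mul hN hqd (by positivity) hN0.le
    have a3 : A * (ρ ^ 2 * n) ≤ w * (N * q) := by
      have := mul_le_mul_of_nonneg_right hw (show 0 ≤ ρ ^ 2 * n by positivity)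
      have := mul_le_mul_of_nonneg_left a2 hw0
      linarith
    have a4 := mul_le_mul_of_nonneg_left a1 (mul_nonneg hc hw0)
    have a5 := mul_le_mul_of_nonneg_left a3 (show 0 ≤ 3 / 8 * c * q by positivity)
    rw [show M * (c * w / (ρ ^ 2 * n)) * κ = c * w * (M * κ) / (ρ ^ 2 * n) by ring,
      le_div_iff₀ (by positivity)]
    linarith
  have hMA : |M * (2 * A / N) - 2 * (A * q)| ≤ 2 * (η * (A * q)) := by
    rw [show M * (2 * A / N) - 2 * (A * q) = (M - q * N) * (2 * A / N) by field_simp, abs_mul,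
      abs_of_nonneg (show 0 ≤ 2 * A / N by positivity),
      show 2 * (η * (A * q)) = η * q * N * (2 * A / N) by field_simp]
    exact mul_le_mul_of_nonneg_right (abs_le.2 hM) (by positivity)
  have hAN : 2 * A / N ≤ 5 / 2 * q := by rw [div_le_iff₀ hN0]; linarith
  have hAN0 : 0 ≤ 2 * A / N := by positivity
  refine sum_pen_scaled (EP G U) _ (fun x => j x * (κ + 1) + 2 * A / N - (g x.1 + g x.2))
    (κ := κ) (J := 18 / ρ) (η := 27 * η / ρ * w / (ρ ^ 2 * n)) (θ := 32 * w / (ρ ^ 2 * n)) hκ0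
    (fun x _ => by field_simp) hl hJ (fun x _ => ?_) ?_ ?_ (by positivity) ?_
  · have a1 : 18 * κ ≤ 18 / ρ * κ :=
      mul_le_mul_of_nonneg_right (by rw [le_div_iff₀ hρ]; linarith) hκ0.le
    have a2 := mul_le_mul_of_nonneg_right (hj0 x).2 (show 0 ≤ κ + 1 by linarith)
    have a3 := mul_nonneg (hj0 x).1 (show 0 ≤ κ + 1 by linarith)
    rw [abs_le]
    constructor <;> linarith [hg3 x.1, hg3 x.2, hg0 x.1, hg0 x.2]
  · rw [sum_sub_distrib, sum_add_distrib, ← sum_mul, hj2, hH, sum_const, nsmul_eq_mul, ← hM']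
    have a1 := hdiv (27 * η / ρ) (by positivity)
    have a2 : A ≤ η / ρ * (A * q) := by
      rw [div_mul_eq_mul_div, le_div_iff₀ hρ]; nlinarith
    have a3 : η * (A * q) ≤ η / ρ * (A * q) :=
      mul_le_mul_of_nonneg_right (by rw [le_div_iff₀ hρ]; nlinarith) (by positivity)
    have a4 := mul_le_mul_of_nonneg_left hqN2 hA0
    have a5 := mul_nonneg hA0 hqN0
    have a6 : 0 ≤ η / ρ * (A * q) := by positivity
    have a7 : 3 / 8 * (27 * η / ρ) * (A * q) = 81 / 8 * (η / ρ * (A * q)) := by ring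
    have a8 : 2 * A * (κ + 1) = 2 * (A * q) - 4 * (A * (q / N)) + 2 * A := by rw [hκ1]; ring
    rw [abs_le] at hMA ⊢
    constructor <;> linarith [hMA.1, hMA.2, hS.1, hS.2]
  · have a0 : ∀ x ∈ EP G U, |j x * (κ + 1) + 2 * A / N - (g x.1 + g x.2)| ≤
        j x * (κ + 1) + 2 * A / N + (g x.1 + g x.2) := fun x _ => by
      have a3 := mul_nonneg (hj0 x).1 (show 0 ≤ κ + 1 by linarith)
      rw [abs_le]
      constructor <;> linarith [hg0 x.1, hg0 x.2]
    refine (sum_le_sum a0).trans ?_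
    rw [sum_add_distrib, sum_add_distrib, ← sum_mul, hj2, hH, sum_const, nsmul_eq_mul, ← hM']
    have a1 := hdiv 32 (by norm_num)
    have a2 := mul_le_mul_of_nonneg_right hη (show 0 ≤ A * q by positivity)
    have a3 : 2 * A * (κ + 1) ≤ 2 * A * (2 * q) :=
      mul_le_mul_of_nonneg_left (by linarith) (by positivity)
    linarith [(abs_le.1 hMA).2, hS.2]
  · refine le_trans ?_ hb
    have a1 : l * (18 / ρ) * (32 * w / (ρ ^ 2 * n)) ≤ η * (18 / ρ) * (32 * w / (ρ ^ 2 * n)) := by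
      gcongr
    have a2 : 27 * η / ρ * w / (ρ ^ 2 * n) + η * (18 / ρ) * (32 * w / (ρ ^ 2 * n)) =
        603 / ρ ^ 3 / n * η * w := by field_simp; ring
    have a3 : 603 / ρ ^ 3 / n * η * w ≤ 700 / ρ ^ 3 / n * η * w := by gcongr; norm_num
    linarith

variable (G) in
/-- The potential of the process. -/
noncomputable def Phi [Fintype V] {ι : Type} [Fintype ι] (X : ι → Finset (V × V)) (w : ι → ℝ)
    (V0 : Finset V) (d l η : ℝ) (U : Finset V) (s : V → V) : ℝ :=
  ∑ v, pen l (dg G U v * V0.card / U.card - d) (η * d) +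
    ∑ i, pen l (#{x ∈ V0 \ U | (x, s x) ∈ X i} + (ZX G (X i) U).card * V0.card / (U.card * d) -
      (ZX G (X i) V0).card / d) (η * w i)

theorem Phi_bounds [Fintype V] {ι : Type} [Fintype ι] {X : ι → Finset (V × V)} {w : ι → ℝ}
    {V0 : Finset V} {d l : ℝ} {s : V → V} (hl : 0 < l) (h : Phi G X w V0 d l η U s < 1) :
    (∀ v, |dg G U v * V0.card / U.card - d| ≤ η * d) ∧
    ∀ i, |#{x ∈ V0 \ U | (x, s x) ∈ X i} + (ZX G (X i) U).card * V0.card / (U.card * d) -
      (ZX G (X i) V0).card / d| ≤ η * w i := by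
  unfold Phi at h
  have h1 := sum_nonneg fun v (_ : v ∈ univ) =>
    (pen_pos l (dg G U v * V0.card / U.card - d) (η * d)).le
  have h2 := sum_nonneg fun i (_ : i ∈ univ) => (pen_pos l (#{x ∈ V0 \ U | (x, s x) ∈ X i} +
    (ZX G (X i) U).card * V0.card / (U.card * d) - (ZX G (X i) V0).card / d) (η * w i)).le
  refine ⟨fun v => abs_lt_of_pen hl (lt_of_le_of_lt (single_le_sum (f := fun v =>
    pen l (dg G U v * V0.card / U.card - d) (η * d)) (fun v _ => (pen_pos _ _ _).le) (mem_univ v))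
    (by linarith)), fun i => abs_lt_of_pen hl (lt_of_le_of_lt (single_le_sum (f := fun i =>
    pen l (#{x ∈ V0 \ U | (x, s x) ∈ X i} + (ZX G (X i) U).card * V0.card / (U.card * d) -
      (ZX G (X i) V0).card / d) (η * w i)) (fun v _ => (pen_pos _ _ _).le) (mem_univ i))
    (by linarith))⟩

theorem dg_of_bound {n0 d : ℝ} (hU : (0 : ℝ) < U.card) (hn : 0 < n0) {v : V}
    (h : |dg G U v * n0 / U.card - d| ≤ η * d) :
    |(dg G U v : ℝ) - d * U.card / n0| ≤ η * (d * U.card / n0) := by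
  have e : (dg G U v : ℝ) - d * U.card / n0 = (dg G U v * n0 / U.card - d) * (U.card / n0) := by
    field_simp
  rw [e, abs_mul, abs_of_pos (div_pos hU hn), mul_div_assoc d, ← mul_assoc]
  exact mul_le_mul_of_nonneg_right h (div_pos hU hn).le

theorem mat_step {V0 : Finset V} {s : V → V} (hU : U ⊆ V0) (hM : Mat G (V0 \ U) s) {x : V × V}
    (hx : x ∈ EP G U) : ∃ s', Mat G (V0 \ (U.erase x.1).erase x.2) s' ∧ ∀ X : Finset (V × V),
      (#{y ∈ V0 \ (U.erase x.1).erase x.2 | (y, s' y) ∈ X} : ℝ) = #{y ∈ V0 \ U | (y, s y) ∈ X} +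
        ((if x ∈ ZX G X U then 1 else 0) + if x.swap ∈ ZX G X U then 1 else 0) := by
  obtain ⟨a, b⟩ := x
  obtain ⟨ha, hb, hab⟩ := mem_EP.1 hx
  simp only at ha hb hab ⊢
  have e : V0 \ (U.erase a).erase b = insert a (insert b (V0 \ U)) := by
    ext y
    simp only [mem_sdiff, mem_erase, mem_insert]
    constructor
    · tauto
    · rintro (rfl | rfl | h)
      · exact ⟨hU ha, fun h => h.2.1 rfl⟩
      · exact ⟨hU hb, fun h => h.1 rfl⟩
      · tauto
  have hna : ∀ y ∈ V0 \ U, y ≠ a ∧ y ≠ b := fun y hy =>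
    ⟨fun h => (mem_sdiff.1 hy).2 (h ▸ ha), fun h => (mem_sdiff.1 hy).2 (h ▸ hb)⟩
  obtain ⟨s', s1, s2, s3⟩ : ∃ s' : V → V, s' a = b ∧ s' b = a ∧ ∀ y ∈ V0 \ U, s' y = s y :=
    ⟨fun y => if y = a then b else if y = b then a else s y, by simp, by simp [hab.ne'],
      fun y hy => by simp [hna y hy]⟩
  rw [e]
  refine ⟨s', fun y hy => ?_, fun X => ?_⟩
  · simp only [mem_insert] at hy ⊢
    rcases hy with rfl | rfl | hy
    · rw [s1, s2]; exact ⟨Or.inr (Or.inl rfl), rfl, hab⟩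
    · rw [s2, s1]; exact ⟨Or.inl rfl, rfl, hab.symm⟩
    · rw [s3 y hy, s3 _ (hM y hy).1]
      exact ⟨Or.inr (Or.inr (hM y hy).1), (hM y hy).2⟩
  · simp only [card_filter]
    rw [sum_insert (by simp [hab.ne, ha]), sum_insert (by simp [hb]), s1, s2,
      sum_congr rfl fun y hy => by rw [s3 y hy]]
    push_cast
    simp only [ZX, mem_filter, ha, hb, hab, hab.symm, and_self, and_true, Prod.swap_prod_mk]
    ring

theorem Phi_step [Fintype V] {ι : Type} [Fintype ι] {X : ι → Finset (V × V)} {w : ι → ℝ}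
    {V0 : Finset V} {d l ρ : ℝ} {s : V → V} (hU : U ⊆ V0) (hM : Mat G (V0 \ U) s)
    (hw : ∀ i, (#{x ∈ X i | G.Adj x.1 x.2} : ℝ) ≤ w i * d) (hη : η ≤ 1 / 4) (hρ : 0 < ρ)
    (hρ1 : ρ ≤ 1) (hN : ρ * Fintype.card V ≤ U.card) (hN4 : 4 ≤ (U.card : ℝ)) (hd : 0 < d)
    (hl : 0 < l) (hl1 : l ≤ η) (hJ : l * (18 / ρ) ≤ 1) (hld : 1 ≤ l * d)
    (h : Phi G X w V0 d l η U s < 1) :
    ∃ U' s', U' ⊆ U ∧ U'.card + 2 = U.card ∧ Mat G (V0 \ U') s' ∧
      Phi G X w V0 d l (η * (1 + 700 / ρ ^ 3 / Fintype.card V)) U' s' < 1 := by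
  have hn1 : (U.card : ℝ) ≤ V0.card := by exact_mod_cast card_le_card hU
  have hn0 : (V0.card : ℝ) ≤ Fintype.card V := by exact_mod_cast card_le_univ V0
  have hD := fun v => dg_of_bound (by linarith) (by linarith) ((Phi_bounds hl h).1 v)
  have hq : d * U.card / V0.card * V0.card = d * U.card := div_mul_cancel₀ _ (by linarith)
  have : Nonempty V := by
    obtain ⟨v, -⟩ : U.Nonempty := card_pos.1 (by exact_mod_cast (by linarith : (0 : ℝ) < U.card))
    exact ⟨v⟩
  choose! s' hs1 hs2 using fun x hx => mat_step hU hM (x := x) hx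
  have hc : ∀ x ∈ EP G U, ((U.erase x.1).erase x.2).card + 2 = U.card := fun x hx => by
    obtain ⟨h1, h2, h3⟩ := mem_EP.1 hx
    rw [← card_erase_add_one h1, ← card_erase_add_one (mem_erase.2 ⟨h3.ne', h2⟩)]
  have hc' : ∀ x ∈ EP G U, (((U.erase x.1).erase x.2).card : ℝ) = U.card - 2 := fun x hx => by
    rw [← hc x hx]; push_cast; ring
  have hne : (EP G U).Nonempty := by
    have a1 := (abs_le.1 (card_EP hD)).1
    have a2 : 0 < d * U.card / V0.card * U.card :=
      mul_pos (div_pos (mul_pos hd (by linarith)) (by linarith)) (by linarith)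
    exact card_pos.1 (by exact_mod_cast (by nlinarith : (0 : ℝ) < (EP G U).card))
  obtain ⟨x, hx, h2⟩ := exists_le_of_sum_le hne (f := fun x =>
      Phi G X w V0 d l (η * (1 + 700 / ρ ^ 3 / Fintype.card V)) ((U.erase x.1).erase x.2) (s' x))
    (g := fun _ => Phi G X w V0 d l η U s) (by
      rw [sum_const, nsmul_eq_mul]
      unfold Phi
      rw [sum_add_distrib, sum_comm, sum_comm (s := EP G U), mul_add ((EP G U).card : ℝ), mul_sum,
        mul_sum]
      refine add_le_add (sum_le_sum fun v _ => ?_) (sum_le_sum fun i _ => ?_)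
      · rw [sum_congr rfl fun x hx => by rw [hc' x hx]]
        exact test_one hD v hq hη (by linarith) hρ hρ1 hN hN4 hn0 hn1 hd hl.le hl1 hJ
          (le_of_eq (by ring))
      · rw [sum_congr rfl fun x hx => by rw [hc' x hx, hs2 x hx]]
        refine test_two hD (X i) (le_trans (Nat.cast_le.2 (card_le_card fun z hz => ?_)) (hw i))
          hq hη (by linarith) hρ hρ1 hN hN4 hn0 hn1 hd hl.le hl1 hJ hld (le_of_eq (by ring))
        exact mem_filter.2 ⟨(mem_filter.1 hz).1, (mem_filter.1 hz).2.2.2⟩)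
  exact ⟨_, s' x, (erase_subset _ _).trans (erase_subset _ _), hc x hx, hs1 x hx, h2.trans_lt h⟩

/-- (B) random greedy matching. -/
theorem mainproc (ρ ε : ℝ) (hρ : 0 < ρ) (hε : 0 < ε) : ∃ e lam : ℝ, 0 < e ∧ 0 < lam ∧
    ∀ (V : Type) [Fintype V] (G : SimpleGraph V) (d : ℝ) (V0 : Finset V)
      (ι : Type) [Fintype ι] (X : ι → Finset (V × V)) (w : ι → ℝ),
      1 ≤ e * d → (1 - e) * Fintype.card V ≤ #V0 →
      (∀ v, |(#{u ∈ V0 | G.Adj v u} : ℝ) - d| ≤ e * d) →
      (∀ i, (#{x ∈ X i | G.Adj x.1 x.2} : ℝ) ≤ w i * d) →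
      ∑ i, 2 * Real.exp (-(lam * w i)) + 2 * Fintype.card V * Real.exp (-(lam * d)) < 1 →
      ∃ (R : Finset V) (s : V → V), R ⊆ V0 ∧ Mat G R s ∧
        (#(V0 \ R) : ℝ) ≤ ρ * Fintype.card V ∧
        (∀ v, (#{u ∈ V0 \ R | G.Adj v u} : ℝ) ≤ 2 * ρ * d) ∧
        ∀ i, (#{x ∈ R | (x, s x) ∈ X i} : ℝ) ≤
            #{x ∈ X i | x.1 ∈ V0 ∧ x.2 ∈ V0 ∧ G.Adj x.1 x.2} / d + ε * w i ∧
          #{x ∈ X i | x.1 ∈ V0 ∧ x.2 ∈ V0 ∧ G.Adj x.1 x.2} / d - ε * w i -
            2 * #{x ∈ V0 \ R | ∃ g, (x, g) ∈ X i} ≤ (#{x ∈ R | (x, s x) ∈ X i} : ℝ) := by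
  obtain ⟨r, hr0, hr1, hr2⟩ : ∃ r : ℝ, 0 < r ∧ r ≤ 1 ∧ r ≤ ρ :=
    ⟨min 1 ρ, lt_min one_pos hρ, min_le_left _ _, min_le_right _ _⟩
  obtain ⟨c, hc⟩ : ∃ c, c = 700 / r ^ 3 := ⟨_, rfl⟩
  have hc0 : 0 < c := by rw [hc]; positivity
  obtain ⟨e, he0, he1, he2, he3⟩ : ∃ e : ℝ, 0 < e ∧ 2 * e * Real.exp c ≤ ε ∧
      2 * e * Real.exp c ≤ 1 / 4 ∧ 18 * e ≤ r := by
    have h1 := Real.exp_pos c
    have h2 : 0 < min (min ε (1 / 4)) (r / 9) := lt_min (lt_min hε (by norm_num)) (by positivity)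
    have h3 : 2 * (min (min ε (1 / 4)) (r / 9) / (2 * Real.exp c)) * Real.exp c =
      min (min ε (1 / 4)) (r / 9) := by field_simp
    refine ⟨min (min ε (1 / 4)) (r / 9) / (2 * Real.exp c), by positivity,
      h3.le.trans ((min_le_left _ _).trans (min_le_left _ _)),
      h3.le.trans ((min_le_left _ _).trans (min_le_right _ _)), ?_⟩
    have h4 := min_le_right (min ε (1 / 4)) (r / 9)
    rw [← mul_div_assoc, div_le_iff₀ (by positivity)]
    nlinarith [Real.one_le_exp hc0.le]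
  have he4 : e ≤ 1 / 8 := by nlinarith [Real.one_le_exp hc0.le]
  refine ⟨e, e * e, he0, by positivity, fun V _ G d V0 ι _ X w h1 h2 h3 h4 h5 => ?_⟩
  have hd : 0 < d := (pos_iff_pos_of_mul_pos (lt_of_lt_of_le one_pos h1)).1 he0
  have hw0 : ∀ i, 0 ≤ w i := fun i => by
    by_contra h
    have := le_trans (Nat.cast_nonneg _) (h4 i)
    nlinarith
  rcases isEmpty_or_nonempty V with hV | ⟨⟨v0⟩⟩
  · refine ⟨∅, id, empty_subset _, fun x => isEmptyElim x, ?_, fun v => isEmptyElim v, fun i => ?_⟩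
    · simp [Subsingleton.elim V0 ∅]
    · have := mul_nonneg hε.le (hw0 i)
      simp [Subsingleton.elim (X i) ∅, this]
  obtain ⟨n, hn⟩ : ∃ n : ℝ, n = Fintype.card V := ⟨_, rfl⟩
  have hn0 : (V0.card : ℝ) ≤ n := by rw [hn]; exact_mod_cast card_le_univ V0
  have hdn : 7 / 8 * d ≤ V0.card := by
    have a1 : (#{u ∈ V0 | G.Adj v0 u} : ℝ) ≤ V0.card := by exact_mod_cast card_filter_le _ _
    nlinarith [(abs_le.1 (h3 v0)).1]
  have hrn : 4 ≤ r * n := by nlinarith
  have hV0 : (0 : ℝ) < V0.card := by linarith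
  have hn1 : 0 < n := by linarith
  have henv : ∀ t : ℕ, (t : ℝ) ≤ n → 2 * e ≤ 2 * e * (1 + c / n) ^ t ∧
      2 * e * (1 + c / n) ^ t ≤ 2 * e * Real.exp c := fun t ht => by
    have a0 : 0 ≤ c / n := by positivity
    refine ⟨le_mul_of_one_le_right (by positivity) (one_le_pow₀ (by linarith)),
      mul_le_mul_of_nonneg_left ?_ (by positivity)⟩
    refine (pow_le_pow_left₀ (by positivity) (show 1 + c / n ≤ Real.exp (c / n) by
      linarith [Real.add_one_le_exp (c / n)]) t).trans ?_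
    rw [← Real.exp_nat_mul]
    refine Real.exp_le_exp.2 ?_
    rw [← mul_div_assoc, div_le_iff₀ hn1]
    nlinarith
  have key : ∀ t : ℕ, (t = 0 ∨ r * n + 2 * t < V0.card + 2) → ∃ (U : Finset V) (s : V → V), U ⊆ V0 ∧
      U.card + 2 * t = V0.card ∧ Mat G (V0 \ U) s ∧
      Phi G X w V0 d e (2 * e * (1 + c / n) ^ t) U s < 1 := by
    intro t
    induction t with
    | zero =>
      refine fun _ => ⟨V0, id, Subset.refl _, rfl, fun x hx => by simp at hx, lt_of_le_of_lt ?_ h5⟩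
      unfold Phi
      rw [add_comm, show 2 * (Fintype.card V : ℝ) * Real.exp (-(e * e * d)) =
        ∑ _v : V, 2 * Real.exp (-(e * e * d)) by simp; ring]
      refine add_le_add (sum_le_sum fun i _ => ?_) (sum_le_sum fun v _ => ?_)
      · rw [mul_assoc e]
        refine pen_le he0.le ?_
        rw [sdiff_self, show ((ZX G (X i) V0).card : ℝ) * V0.card / (V0.card * d) =
          (ZX G (X i) V0).card / d by field_simp]
        have := mul_nonneg he0.le (hw0 i)
        simp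
        linarith
      · rw [mul_assoc e]
        refine pen_le he0.le ?_
        rw [mul_div_cancel_right₀ _ hV0.ne']
        have := h3 v
        unfold dg
        linarith
    | succ t ih =>
      intro ht
      replace ht := ht.resolve_left (by omega)
      push_cast at ht
      obtain ⟨U, s, a1, a2, a3, a4⟩ := ih (Or.inr (by linarith))
      have a5 : (U.card : ℝ) + 2 * t = V0.card := by exact_mod_cast a2
      have a6 : (0 : ℝ) ≤ U.card := by positivity
      have a7 := henv t (by linarith [Nat.cast_nonneg (α := ℝ) t])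
      obtain ⟨U', s', b1, b2, b3, b4⟩ := Phi_step a1 a3 h4 (by linarith) hr0 hr1
        (by rw [← hn]; linarith) (by linarith) hd he0 (by linarith)
        (by rw [← mul_div_assoc, div_le_one hr0]; linarith) h1 a4
      rw [← hc, ← hn, mul_assoc, ← pow_succ] at b4
      exact ⟨U', s', b1.trans a1, by omega, b3, b4⟩
  obtain ⟨t, ht1, ht2⟩ : ∃ t : ℕ, (V0.card : ℝ) ≤ r * n + 2 * t ∧
      (t = 0 ∨ r * n + 2 * t < V0.card + 2) := by
    have hex : ∃ t : ℕ, (V0.card : ℝ) ≤ r * n + 2 * t :=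
      ⟨V0.card, by linarith⟩
    refine ⟨Nat.find hex, Nat.find_spec hex, ?_⟩
    rcases h : Nat.find hex with _ | k
    · exact Or.inl rfl
    · have := Nat.find_min hex (m := k) (by omega)
      push_cast
      exact Or.inr (by linarith)
  obtain ⟨U, s, a1, a2, a3, a4, a8⟩ : ∃ (U : Finset V) (s : V → V), U ⊆ V0 ∧
      (U.card : ℝ) ≤ r * n ∧ Mat G (V0 \ U) s ∧ (0 : ℝ) < U.card ∧ ∃ η, 0 ≤ η ∧
      η ≤ 2 * e * Real.exp c ∧ Phi G X w V0 d e η U s < 1 := by
    obtain ⟨U, s, a1, a2, a3, a4⟩ := key t ht2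
    have a5 : (U.card : ℝ) + 2 * t = V0.card := by exact_mod_cast a2
    have a6 : (0 : ℝ) ≤ U.card := by positivity
    have a7 := henv t (by linarith [Nat.cast_nonneg (α := ℝ) t])
    refine ⟨U, s, a1, by linarith, a3, ?_, _, by linarith, a7.2, a4⟩
    rcases ht2 with rfl | h
    · simpa [← a2] using hV0
    · linarith
  obtain ⟨η, b0, b1, b2⟩ := a8
  obtain ⟨b3, b4⟩ := Phi_bounds he0 b2
  have hq : d * U.card / V0.card ≤ 8 / 7 * ρ * d := by
    rw [div_le_iff₀ hV0]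
    rw [← hn] at h2
    have c1 : (U.card : ℝ) ≤ ρ * n := a2.trans (mul_le_mul_of_nonneg_right hr2 hn1.le)
    have c2 : 7 / 8 * n ≤ V0.card := by nlinarith
    nlinarith [mul_le_mul_of_nonneg_left c2 (mul_pos hρ hd).le]
  have hq0 : 0 < d * U.card / V0.card := by positivity
  have hdg : ∀ v, (dg G U v : ℝ) ≤ 5 / 4 * (d * U.card / V0.card) := fun v => by
    have := (abs_le.1 (dg_of_bound a4 hV0 (b3 v))).2
    nlinarith
  refine ⟨V0 \ U, s, sdiff_subset, a3, ?_, fun v => ?_, fun i => ?_⟩ <;>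
    rw [Finset.sdiff_sdiff_eq_self a1]
  · rw [← hn]; exact a2.trans (mul_le_mul_of_nonneg_right hr2 hn1.le)
  · have := hdg v
    unfold dg at this
    nlinarith [mul_pos hρ hd]
  · have c1 := abs_le.1 (b4 i)
    have c2 : η * w i ≤ ε * w i := mul_le_mul_of_nonneg_right (by linarith) (hw0 i)
    have c3 : (0 : ℝ) ≤ (ZX G (X i) U).card * V0.card / (U.card * d) := by positivity
    have c4 : ((ZX G (X i) U).card : ℝ) ≤ #{x ∈ U | ∃ g, (x, g) ∈ X i} *
        (5 / 4 * (d * U.card / V0.card)) := by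
      rw [card_eq_sum_card_fiberwise (f := Prod.fst) (s := ZX G (X i) U)
        (t := {x ∈ U | ∃ g, (x, g) ∈ X i})
        (fun z hz => mem_filter.2 ⟨(mem_filter.1 hz).2.1, z.2, (mem_filter.1 hz).1⟩),
        ← nsmul_eq_mul, ← sum_const]
      push_cast
      refine sum_le_sum fun a _ => le_trans (Nat.cast_le.2 (card_le_card_of_injOn Prod.snd
        (fun z hz => ?_) fun z hz z' hz' e => ?_)) (hdg a)
      · simp only [ZX, coe_filter, mem_filter, Set.mem_ofPred_eq] at hz ⊢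
        exact ⟨hz.1.2.2.1, hz.2 ▸ hz.1.2.2.2⟩
      · exact Prod.ext ((mem_filter.1 hz).2.trans (mem_filter.1 hz').2.symm) e
    have c5 : ((ZX G (X i) U).card : ℝ) * V0.card / (U.card * d) ≤
        2 * #{x ∈ U | ∃ g, (x, g) ∈ X i} := by
      rw [div_le_iff₀ (by positivity)]
      have c6 := mul_le_mul_of_nonneg_right c4 hV0.le
      rw [mul_assoc, mul_assoc, div_mul_cancel₀ _ hV0.ne'] at c6
      have : (0 : ℝ) ≤ #{x ∈ U | ∃ g, (x, g) ∈ X i} * (d * U.card) := by positivity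
      linarith
    unfold ZX at c1
    unfold ZX at c3 c5
    constructor <;> linarith

end Pool.Agent.MP_d6d719_co.H91

end MrgPart2

-- ======== part 3: formerly Pool.Agent.MP_d6d719_co.h91.Contain
section MrgPart3

set_option autoImplicit false

open Finset
open scoped Classical

namespace Pool.Agent.MP_d6d719_co.H91

variable {V : Type} [Fintype V] {G : SimpleGraph V} {F : V → V → V → Prop} {d μ τ : ℝ}

theorem exists_code {α : Type} (P : Finset α) {m : ℕ} (h : P.card ≤ m) :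
    ∃ φ : Fin m → Option α, ∀ e, (∃ j, φ j = some e) ↔ e ∈ P := by
  refine ⟨fun j => P.toList[j.1]?, fun e => ⟨fun ⟨j, hj⟩ => ?_, fun he => ?_⟩⟩
  · exact mem_toList.1 (List.mem_of_getElem? hj)
  · obtain ⟨i, hi, e1⟩ := List.getElem_of_mem (mem_toList.2 he)
    rw [length_toList] at hi
    exact ⟨⟨i, by omega⟩, by simp [← e1]⟩

theorem markov_card {α : Type} (A : Finset α) (f : α → ℝ) (h0 : ∀ x ∈ A, 0 ≤ f x) (c : ℝ) :
    ((A.filter fun x => c < f x).card : ℝ) * c ≤ ∑ x ∈ A, f x := by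
  rw [← nsmul_eq_mul, ← sum_const]
  exact (sum_le_sum fun x hx => (mem_filter.1 hx).2.le).trans
    (sum_le_sum_of_subset_of_nonneg (filter_subset _ _) fun x hx _ => h0 x hx)

theorem sample {I J : Type} (B : Finset V) (A1 : Finset I) (A2 : Finset J) (S1 : I → Finset V)
    (S2 : J → Finset V) {r c β m a1 a2 : ℝ} (hr : 0 ≤ r) (hr1 : r ≤ 1) (hβ : 0 < β)
    (hm : 0 < m) (ha1 : 0 < a1) (ha2 : 0 < a2) (hB : 4 * r * B.card ≤ m) (h1 : A1.card ≤ a1)
    (h2 : A2.card ≤ a2) (hS1 : ∀ i ∈ A1, ((S1 i).card : ℝ) ≤ c)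
    (hS2 : ∀ j ∈ A2, 4 * c ≤ ((S2 j).card : ℝ)) (hexp : Real.exp (-(r * c / 4)) ≤ β) :
    ∃ σ : V → Bool, ((B.filter fun y => σ y = true).card : ℝ) ≤ m ∧
      ((A1.filter fun i => 2 * r * c < ((S1 i).filter fun y => σ y = true).card).card : ℝ) ≤
        4 * β * a1 ∧
      ((A2.filter fun j => (((S2 j).filter fun y => σ y = true).card : ℝ) ≤ 2 * r * c).card : ℝ) ≤
        4 * β * a2 := by
  set w : V → Bool → ℝ := fun _ b => if b then r else 1 - r with hw
  have w0 : ∀ j s, 0 ≤ w j s := fun _ b => by simp only [hw]; split_ifs <;> linarith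
  have w1 : ∀ j, ∑ s, w j s = 1 := fun _ => by simp [hw]
  have wq : ∀ j, ∑ s, w j s * (if s = true then 1 else 0) = r := fun _ => by simp [hw]
  obtain ⟨σ, hσ⟩ := PE_exists w0 w1 fun σ => -1 * (1 / m * ∑ y ∈ B, (if σ y = true then 1 else 0) +
    1 / (4 * β * a1) * ∑ i ∈ A1,
      (if 2 * r * c < ((S1 i).filter fun y => σ y = true).card then 1 else 0) +
    1 / (4 * β * a2) * ∑ j ∈ A2,
      (if (((S2 j).filter fun y => σ y = true).card : ℝ) ≤ 2 * r * c then 1 else 0))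
  simp only [PE_mul, PE_add, PE_sum] at hσ
  have e1 : ∑ y ∈ B, PE w (fun σ => if σ y = true then 1 else 0) = B.card * r := by
    rw [← nsmul_eq_mul, ← sum_const]
    refine sum_congr rfl fun y _ => ?_
    have := PE_indep w1 y (fun _ => 1) (fun s => if s = true then 1 else 0) fun _ _ => rfl
    simpa only [one_mul, PE_const w1, wq] using this
  have e2 : ∑ i ∈ A1, PE w (fun σ =>
      if 2 * r * c < ((S1 i).filter fun y => σ y = true).card then 1 else 0) ≤ A1.card * β := by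
    rw [← nsmul_eq_mul, ← sum_const]
    refine sum_le_sum fun i hi => (tail_up (t := 1 / 2) (z := r * c / 2) w0 w1 (S1 i)
      (fun _ s => s = true) hr (fun y _ => wq y) (by norm_num) (by norm_num) _
      fun σ h => ?_).trans (le_trans (le_of_eq (by congr 1; ring)) hexp)
    have := mul_le_mul_of_nonneg_left (hS1 i hi) hr
    linarith
  have e3 : ∑ j ∈ A2, PE w (fun σ =>
      if (((S2 j).filter fun y => σ y = true).card : ℝ) ≤ 2 * r * c then 1 else 0) ≤
      A2.card * β := by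
    rw [← nsmul_eq_mul, ← sum_const]
    refine sum_le_sum fun i hi => (tail_lo (t := 1 / 4) (z := r * c) w0 w1 (S2 i)
      (fun _ s => s = true) hr (fun y _ => wq y) (by norm_num) (by norm_num) _
      fun σ h => ?_).trans (le_trans (le_of_eq (by congr 1; ring)) hexp)
    have := mul_le_mul_of_nonneg_left (hS2 i hi) hr
    linarith
  simp only [sum_boole] at hσ
  have f1 : 1 / m * (B.card * r) ≤ 1 / 4 := by
    rw [one_div_mul_eq_div, div_le_iff₀ hm]; linarith
  have f2 : ∀ x a : ℝ, 0 < a → x ≤ a → 1 / (4 * β * a) * (x * β) ≤ 1 / 4 := fun x a h3 h4 => by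
    rw [one_div_mul_eq_div, div_le_iff₀ (by positivity)]; nlinarith
  have g1 := mul_le_mul_of_nonneg_left e2 (show 0 ≤ 1 / (4 * β * a1) by positivity)
  have g2 := mul_le_mul_of_nonneg_left e3 (show 0 ≤ 1 / (4 * β * a2) by positivity)
  have g3 := f2 _ _ ha1 h1
  have g4 := f2 _ _ ha2 h2
  rw [e1] at hσ
  have k : ∀ x a : ℝ, 0 < a → 1 / a * x ≤ 1 → x ≤ a := fun x a h3 h4 => by
    rwa [one_div_mul_eq_div, div_le_one h3] at h4
  have p1 : (0 : ℝ) ≤ 1 / m * (B.filter fun y => σ y = true).card := by positivity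
  have p2 : (0 : ℝ) ≤ 1 / (4 * β * a1) *
    (A1.filter fun i => 2 * r * c < ((S1 i).filter fun y => σ y = true).card).card := by positivity
  have p3 : (0 : ℝ) ≤ 1 / (4 * β * a2) *
    (A2.filter fun j => (((S2 j).filter fun y => σ y = true).card : ℝ) ≤ 2 * r * c).card := by
    positivity
  exact ⟨σ, k _ _ hm (by linarith), k _ _ (by positivity) (by linarith),
    k _ _ (by positivity) (by linarith)⟩

variable (G F) in
/-- States with few compatible partners in `P`. -/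
noncomputable def few (P : Finset (V × V)) (c : ℝ) : Finset (V × V) :=
  univ.filter fun e => G.Adj e.1 e.2 ∧ ((P.filter fun e' => CS G F e e').card : ℝ) ≤ c

omit [Fintype V] in
theorem CS.symm {e e' : V × V} (h : CS G F e e') : CS G F e' e := ⟨h.1.symm, h.2.2, h.2.1⟩

theorem card_states (S : Sys G F d μ τ) (hτ : τ ≤ 1) (hd : 0 ≤ d) {Z : Finset (V × V)}
    (hZ : ∀ e ∈ Z, G.Adj e.1 e.2) : (Z.card : ℝ) ≤ 2 * Fintype.card V * d := by
  rw [card_eq_sum_fib, mul_comm 2, mul_assoc, ← card_univ, ← nsmul_eq_mul, ← sum_const]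
  push_cast
  exact sum_le_sum fun x _ => (fib_le S hZ x).trans (by nlinarith)

theorem fingerprint (S : Sys G F d μ τ) {δ W : ℝ} {m : ℕ} (hδ : 0 < δ) (hδ1 : δ ≤ 1) (hτ : τ ≤ 1)
    (hW : W = 16 / (δ ^ 7 / 64 * (δ ^ 7 / 128))) (hd : W ≤ d) (hm : W * Fintype.card V ≤ m * d)
    (s : V → V) {A B : Finset V} (hA : ∀ x ∈ A, G.Adj x (s x)) (hB : ∀ x ∈ B, G.Adj x (s x))
    (h : (er (Gam G F s) A B : ℝ) < δ ^ 7 / 64 * δ * d * Fintype.card V) :
    ∃ P : Finset (V × V), P.card ≤ m ∧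
      (A.card : ℝ) ≤ #{x ∈ A | (x, s x) ∈ few G F P (δ ^ 7 / 64 * W / 2)} +
        2 * δ * Fintype.card V ∧
      (B.card : ℝ) ≤ #{y ∈ B | (y, s y) ∈ few G F (few G F P (δ ^ 7 / 64 * W / 2))
        (δ ^ 6 / 4 * d ^ 2)} + δ * Fintype.card V := by
  obtain ⟨k, hk⟩ : ∃ k, k = δ ^ 7 / 64 := ⟨_, rfl⟩
  obtain ⟨β, hβ⟩ : ∃ β, β = δ ^ 7 / 128 := ⟨_, rfl⟩
  obtain ⟨n, hn⟩ : ∃ n : ℝ, n = Fintype.card V := ⟨_, rfl⟩
  rw [← hβ, ← hk] at hW
  rw [← hk, ← hn] at h ⊢
  rw [← hn] at hm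
  have hk0 : 0 < k := by rw [hk]; positivity
  have hβ0 : 0 < β := by rw [hβ]; positivity
  have hW0 : 0 < W := by rw [hW]; positivity
  have hd0 : 0 < d := by linarith
  have hn0 : 0 < n := by
    have : (0 : ℝ) ≤ er (Gam G F s) A B := by positivity
    exact (pos_iff_pos_of_mul_pos (this.trans_lt h)).1 (by positivity)
  have hm0 : (0 : ℝ) < m := (pos_iff_pos_of_mul_pos ((mul_pos hW0 hn0).trans_le hm)).2 hd0
  have hcard : ∀ C : Finset V, (C.card : ℝ) ≤ n := fun C => by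
    rw [hn]; exact_mod_cast card_le_univ C
  obtain ⟨T, hT⟩ : ∃ T : V × V → Finset V, ∀ e, T e = B.filter fun y => CS G F e (y, s y) :=
    ⟨_, fun _ => rfl⟩
  obtain ⟨σ, a1, a2, a3⟩ := sample B (A.filter fun x => ¬ k * d < (T (x, s x)).card)
    (univ.filter fun e : V × V => G.Adj e.1 e.2 ∧ 4 * (k * d) < (T e).card) (fun x => T (x, s x)) T
    (r := W / (4 * d)) (c := k * d) (β := β) (m := m) (a1 := n) (a2 := 2 * n * d) (by positivity)
    (by rw [div_le_one (by positivity)]; linarith) hβ0 hm0 hn0 (by positivity)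
    (by
      rw [show 4 * (W / (4 * d)) * B.card = W * B.card / d by field_simp, div_le_iff₀ hd0]
      nlinarith [hcard B])
    (hcard _) (hn ▸ card_states S hτ hd0.le fun e he => (mem_filter.1 he).2.1)
    (fun x hx => not_lt.1 (mem_filter.1 hx).2) (fun e he => (mem_filter.1 he).2.2.le)
    (by
      rw [show W / (4 * d) * (k * d) / 4 = 1 / β by rw [hW]; field_simp; norm_num, Real.exp_neg,
        inv_le_comm₀ (Real.exp_pos _) hβ0, ← one_div]
      linarith [Real.add_one_le_exp (1 / β)])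
  rw [show 2 * (W / (4 * d)) * (k * d) = k * W / 2 by field_simp; norm_num] at a2 a3
  obtain ⟨P, hP⟩ : ∃ P, P = (B.filter fun y => σ y = true).image fun y => (y, s y) := ⟨_, rfl⟩
  have hinj : Function.Injective fun y => (y, s y) := fun y y' e => (Prod.mk.inj e).1
  have hPc : ∀ e, (P.filter fun e' => CS G F e e').card = ((T e).filter fun y => σ y = true).card := by
    intro e
    rw [hP, filter_image, card_image_of_injective _ hinj, hT, filter_comm]
  refine ⟨P, ?_, ?_, ?_⟩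
  · rw [hP, card_image_of_injective _ hinj]
    exact_mod_cast a1
  · have b1 := markov_card A (fun x => ((T (x, s x)).card : ℝ)) (fun _ _ => by positivity) (k * d)
    have b2 : ∑ x ∈ A, ((T (x, s x)).card : ℝ) = er (Gam G F s) A B := by
      simp only [hT, er]
      push_cast
      rfl
    have b3 : ((A.filter fun x => k * d < (T (x, s x)).card).card : ℝ) ≤ δ * n :=
      le_of_mul_le_mul_right (a := k * d) (by linarith) (by positivity)
    have b4 : A ⊆ (A.filter fun x => (x, s x) ∈ few G F P (k * W / 2)) ∪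
        (A.filter fun x => k * d < (T (x, s x)).card) ∪
        ((A.filter fun x => ¬ k * d < (T (x, s x)).card).filter fun x =>
          k * W / 2 < ((T (x, s x)).filter fun y => σ y = true).card) := by
      intro x hx
      simp only [mem_union, mem_filter, hx, true_and, few, mem_univ, hA x hx, hPc]
      by_cases c1 : k * d < (T (x, s x)).card
      · exact Or.inl (Or.inr c1)
      · rcases le_or_gt (((T (x, s x)).filter fun y => σ y = true).card : ℝ) (k * W / 2) with c2 | c2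
        · exact Or.inl (Or.inl c2)
        · exact Or.inr ⟨c1, c2⟩
    have b5 := Nat.cast_le (α := ℝ).2 ((card_le_card b4).trans ((card_union_le _ _).trans
      (Nat.add_le_add_right (card_union_le _ _) _)))
    push_cast at b5
    have b6 : 4 * β * n ≤ δ * n := by
      refine mul_le_mul_of_nonneg_right ?_ hn0.le
      have := pow_le_of_le_one hδ.le hδ1 (show 7 ≠ 0 by norm_num)
      linarith
    linarith
  · obtain ⟨X, hX⟩ : ∃ X, X = few G F P (k * W / 2) := ⟨_, rfl⟩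
    rw [← hX]
    have hXa : ∀ e ∈ X, G.Adj e.1 e.2 := fun e he => (mem_filter.1 (hX ▸ he)).2.1
    have b1 := markov_card B (fun y => ((X.filter fun e => CS G F (y, s y) e).card : ℝ))
      (fun _ _ => by positivity) (δ ^ 6 / 4 * d ^ 2)
    have b2 : ∑ y ∈ B, ((X.filter fun e => CS G F (y, s y) e).card : ℝ) =
        ∑ e ∈ X, ((T e).card : ℝ) := by
      norm_cast
      simp only [hT, card_filter]
      rw [sum_comm]
      refine sum_congr rfl fun e _ => sum_congr rfl fun y _ => ?_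
      exact if_congr ⟨CS.symm, CS.symm⟩ rfl rfl
    have b3 : ∀ e ∈ X, ((T e).card : ℝ) ≤
        4 * (k * d) + if 4 * (k * d) < (T e).card then 2 * d else 0 := by
      intro e _
      split_ifs with c
      · have c1 : ((T e).card : ℝ) ≤ #{w | G.Adj e.1 w} := by
          refine Nat.cast_le.2 (card_le_card fun y hy => ?_)
          rw [hT] at hy
          exact mem_filter.2 ⟨mem_univ _, (mem_filter.1 hy).2.1⟩
        have c2 := S.hi e.1
        nlinarith [mul_pos hk0 hd0]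
      · linarith
    have b4 := sum_le_sum b3
    rw [sum_add_distrib, sum_const, nsmul_eq_mul, ← sum_filter, sum_const, nsmul_eq_mul] at b4
    have b5 : ((X.filter fun e => 4 * (k * d) < (T e).card).card : ℝ) ≤ 4 * β * (2 * n * d) := by
      refine le_trans (Nat.cast_le.2 (card_le_card fun e he => ?_)) a3
      simp only [hX, few, mem_filter, mem_univ, true_and, hPc] at he ⊢
      exact ⟨⟨he.1.1, he.2⟩, he.1.2⟩
    have b6 := card_states S hτ hd0.le hXa
    rw [← hn] at b6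
    have b7 := mul_le_mul_of_nonneg_right b6 (show 0 ≤ 4 * (k * d) by positivity)
    have b8 := mul_le_mul_of_nonneg_right b5 (show 0 ≤ 2 * d by positivity)
    have b9 : ((B.filter fun y => δ ^ 6 / 4 * d ^ 2 <
        (X.filter fun e => CS G F (y, s y) e).card).card : ℝ) ≤ δ * n := by
      refine le_of_mul_le_mul_right (a := δ ^ 6 / 4 * d ^ 2) ?_ (by positivity)
      have : δ * n * (δ ^ 6 / 4 * d ^ 2) = 2 * n * d * (4 * (k * d)) +
          4 * β * (2 * n * d) * (2 * d) := by rw [hk, hβ]; ring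
      linarith
    have c1 : B ⊆ (B.filter fun y => (y, s y) ∈ few G F X (δ ^ 6 / 4 * d ^ 2)) ∪
        B.filter fun y => δ ^ 6 / 4 * d ^ 2 < (X.filter fun e => CS G F (y, s y) e).card := by
      intro y hy
      simp only [mem_union, mem_filter, hy, true_and, few, mem_univ, hB y hy]
      exact le_or_gt _ _
    have c2 := Nat.cast_le (α := ℝ).2 ((card_le_card c1).trans (card_union_le _ _))
    push_cast at c2
    linarith

/-- (C) containers: one fingerprint. -/
theorem container (μ : ℝ) (hμ : μ < 1 / 2) : ∃ γ : ℝ, 0 < γ ∧ ∀ ε : ℝ, 0 < ε →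
    ∃ g ζ W : ℝ, 0 < g ∧ 0 < ζ ∧ 0 < W ∧
    ∀ (V : Type) [Fintype V] (G : SimpleGraph V) (F : V → V → V → Prop) (d τ : ℝ) (m : ℕ),
      Sys G F d μ τ → 0 ≤ τ → τ ≤ ζ → W ≤ d →
      (∀ A B : Finset V, d / Fintype.card V * #A * #B - ζ * Fintype.card V * d ≤ er G.Adj A B) →
      W * Fintype.card V ≤ m * d →
      ∃ X : (Fin m → Option (V × V)) × Bool → Finset (V × V), ∀ (R : Finset V) (s : V → V),
        Mat G R s →
        (∀ i, (#{x ∈ R | (x, s x) ∈ X i} : ℝ) ≤
          #{e ∈ X i | G.Adj e.1 e.2} / d + ζ * Fintype.card V) →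
        RX (Gam G F s) R ε γ (g * d * Fintype.card V) := by
  obtain ⟨ν, hν1, hν2, hν3⟩ : ∃ ν : ℝ, 1 / 4 ≤ ν ∧ ν < 1 / 2 ∧ μ + (1 / 2 - ν) ≤ ν :=
    ⟨(max μ (1 / 4) + 1 / 2) / 2, by linarith [le_max_right μ (1 / 4)],
      by linarith [max_lt hμ (show (1 / 4 : ℝ) < 1 / 2 by norm_num)],
      by linarith [le_max_left μ (1 / 4)]⟩
  refine ⟨1 / 2 - ν, by linarith, fun ε hε => ?_⟩
  obtain ⟨δ, hδ, hδ1, hδ2⟩ : ∃ δ : ℝ, 0 < δ ∧ 20 * δ ≤ ε ∧ 20 * δ ≤ 1 / 2 - ν :=
    ⟨min ε (1 / 2 - ν) / 20, by have := lt_min hε (sub_pos.2 hν2); positivity,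
      by linarith [min_le_left ε (1 / 2 - ν)], by linarith [min_le_right ε (1 / 2 - ν)]⟩
  obtain ⟨W, hW⟩ : ∃ W, W = 16 / (δ ^ 7 / 64 * (δ ^ 7 / 128)) := ⟨_, rfl⟩
  have hW0 : 0 < W := by rw [hW]; positivity
  refine ⟨δ ^ 7 / 64 * δ, δ ^ 2 / 2, W, by positivity, by positivity, hW0,
    fun V _ G F d τ m S _ hτ hd hE hm => ?_⟩
  have hζ : δ ^ 2 / 2 ≤ δ := by nlinarith
  have hd0 : 0 < d := by linarith
  refine ⟨fun i => if i.2 then few G F (univ.filter fun e => ∃ j, i.1 j = some e) (δ ^ 7 / 64 * W / 2)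
    else few G F (few G F (univ.filter fun e => ∃ j, i.1 j = some e) (δ ^ 7 / 64 * W / 2))
      (δ ^ 6 / 4 * d ^ 2), fun R s hM hT A hA B hB h1 h2 h3 => ?_⟩
  by_contra hc
  rw [not_le] at hc
  obtain ⟨P, a1, a2, a3⟩ := fingerprint S hδ (by linarith) (by linarith) hW hd hm s
    (fun x hx => (hM x (hA hx)).2.2) (fun x hx => (hM x (hB hx)).2.2) hc
  obtain ⟨φ, hφ⟩ := exists_code P a1
  have hP : (univ.filter fun e => ∃ j, φ j = some e) = P := by ext e; simp [hφ]
  have b1 := hT (φ, true)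
  have b2 := hT (φ, false)
  simp only [hP, if_true, Bool.false_eq_true, if_false] at b1 b2
  obtain ⟨X, hX⟩ : ∃ X, X = few G F P (δ ^ 7 / 64 * W / 2) := ⟨_, rfl⟩
  rw [← hX] at a2 a3 b1 b2
  obtain ⟨Y, hY⟩ : ∃ Y, Y = few G F X (δ ^ 6 / 4 * d ^ 2) := ⟨_, rfl⟩
  rw [← hY] at a3 b2
  have hXa : ∀ e ∈ X, G.Adj e.1 e.2 := fun e he => (mem_filter.1 (hX ▸ he)).2.1
  have hYa : ∀ e ∈ Y, G.Adj e.1 e.2 := fun e he => (mem_filter.1 (hY ▸ he)).2.1
  rw [filter_true_of_mem hXa] at b1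
  rw [filter_true_of_mem hYa] at b2
  have hn0 : (0 : ℝ) < Fintype.card V := by
    have : (0 : ℝ) ≤ er (Gam G F s) A B := by positivity
    exact (pos_iff_pos_of_mul_pos (this.trans_lt hc)).1 (by positivity)
  have c1 : (#{x ∈ A | (x, s x) ∈ X} : ℝ) ≤ #{x ∈ R | (x, s x) ∈ X} :=
    Nat.cast_le.2 (card_le_card (filter_subset_filter _ hA))
  have c2 : (#{x ∈ B | (x, s x) ∈ Y} : ℝ) ≤ #{x ∈ R | (x, s x) ∈ Y} :=
    Nat.cast_le.2 (card_le_card (filter_subset_filter _ hB))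
  have c3 := mul_le_mul_of_nonneg_right hζ hn0.le
  have c4 := mul_le_mul_of_nonneg_right hδ1 hn0.le
  have c5 := mul_le_mul_of_nonneg_right hδ2 hn0.le
  have c6 := mul_pos hδ hn0
  have c7 := ideal S hXa hYa hd0 hδ hν2.le hν1 (by linarith) (by linarith) (by linarith)
    (by exact_mod_cast hn0) hE (fun e he => by
      have := (mem_filter.1 (hY ▸ he)).2.2
      refine le_trans (le_of_eq ?_) this
      congr 2
      ext e'
      simp only [mem_filter]
      exact and_congr_right fun _ => ⟨CS.symm, CS.symm⟩)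
    ((le_div_iff₀ hd0).1 (by linarith)) ((le_div_iff₀ hd0).1 (by linarith))
  have c8 : (X.card : ℝ) / d + Y.card / d ≤ (2 * ν + 6 * δ) * Fintype.card V := by
    rw [← add_div, div_le_iff₀ hd0]; exact c7
  linarith

end Pool.Agent.MP_d6d719_co.H91

end MrgPart3

-- ======== part 4: formerly Pool.Agent.MP_d6d719_co.h74.Sk2
section MrgPart4

set_option autoImplicit false
set_option linter.unusedSectionVars false

open Finset Equiv
open scoped Classical

namespace Pool.Agent.MP_d6d719_co.H74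

open H91 (er Mat Cmp Gam PR)

theorem exp_small {n x C : ℝ} (hn : 1 ≤ n) (hC : 2 ≤ C) (h : C * (Real.log n + 1) ≤ x) :
    C * (n ^ 2 * Real.exp (-x)) < 1 := by
  have l0 := Real.log_nonneg hn
  have a1 : n ^ 2 = Real.exp (2 * Real.log n) := by
    rw [show 2 * Real.log n = Real.log (n ^ 2) by simp, Real.exp_log (by positivity)]
  rw [a1, ← Real.exp_add]
  have a2 : Real.exp (2 * Real.log n + -x) ≤ Real.exp (-C) := Real.exp_le_exp.2 (by nlinarith)
  have a3 : C * Real.exp (-C) < 1 := by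
    rw [Real.exp_neg, ← div_eq_mul_inv, div_lt_one (Real.exp_pos _)]
    linarith [Real.add_one_le_exp C]
  exact lt_of_le_of_lt (mul_le_mul_of_nonneg_left a2 (by linarith)) a3

variable {V : Type} [Fintype V] {G : SimpleGraph V} {F : V → V → V → Prop} {d μ τ ζ : ℝ}

theorem card_codes {m : ℕ} {W K lam : ℝ} (hn : 0 < Fintype.card V) (hW : 0 ≤ W) (hK : 0 < K)
    (hd : K * (Real.log (Fintype.card V) + 1) ≤ d) (hd2 : d ≤ 2 * Fintype.card V)
    (hm : m * d ≤ W * Fintype.card V + d) (hl : 2 * W + 4 ≤ K * lam) :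
    (Fintype.card ((Fin m → Option (V × V)) × Bool) : ℝ) ≤
      2 * Real.exp (lam * Fintype.card V) := by
  obtain ⟨n, hn'⟩ : ∃ n : ℝ, n = Fintype.card V := ⟨_, rfl⟩
  have n1 : 1 ≤ n := by rw [hn']; exact_mod_cast hn
  simp only [Fintype.card_prod, Fintype.card_pi, Fintype.card_option, prod_const, card_univ,
    Fintype.card_fin, Fintype.card_bool]
  push_cast
  rw [← hn'] at hd hd2 hm ⊢
  have l0 := Real.log_nonneg n1
  have a1 : n * n + 1 ≤ Real.exp (2 * (Real.log n + 1)) := by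
    rw [mul_add, Real.exp_add, show 2 * Real.log n = Real.log (n ^ 2) by simp,
      Real.exp_log (by positivity)]
    nlinarith [Real.add_one_le_exp (2 * 1 : ℝ)]
  have a2 := pow_le_pow_left₀ (by positivity) a1 m
  rw [← Real.exp_nat_mul] at a2
  have a3 : m * (2 * (Real.log n + 1)) ≤ lam * n := by
    refine le_of_mul_le_mul_left ?_ hK
    have := mul_le_mul_of_nonneg_left hd (Nat.cast_nonneg (α := ℝ) m)
    nlinarith
  linarith [Real.exp_le_exp.2 a3]

theorem d_le (S : H91.Sys G F d μ τ) (hτ : τ ≤ 1 / 2) (hn : 0 < Fintype.card V) (hd : 0 ≤ d) :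
    d ≤ 2 * Fintype.card V := by
  obtain ⟨v⟩ := Fintype.card_pos_iff.1 hn
  have a := S.lo v
  have b : (#{w | G.Adj v w} : ℝ) ≤ Fintype.card V := by exact_mod_cast card_le_univ _
  nlinarith

theorem exists_adj (S : H91.Sys G F d μ τ) (hτ : τ ≤ 1 / 2) (hd : 0 < d) (v : V) :
    ∃ w, G.Adj v w := by
  have a : (0 : ℝ) < #{w | G.Adj v w} := lt_of_lt_of_le (by nlinarith) (S.lo v)
  obtain ⟨w, hw⟩ := card_pos.1 (Nat.cast_pos.1 a)
  exact ⟨w, (mem_filter.1 hw).2⟩

theorem cmp_count (S : H91.Sys G F d μ τ) (U : Finset V) {v f : V} (h : G.Adj v f) :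
    (#{u ∈ U | G.Adj v u} : ℝ) - μ * d ≤ #{u ∈ U | G.Adj v u ∧ Cmp F v f u} := by
  have a : ({u ∈ U | G.Adj v u} : Finset V) ⊆ {u ∈ U | G.Adj v u ∧ Cmp F v f u} ∪
      univ.filter fun b => G.Adj v b ∧ ¬ Cmp F v f b := fun u hu => by
    simp only [mem_filter, mem_union, mem_univ, true_and] at hu ⊢
    tauto
  have b := Nat.cast_le (α := ℝ).2 ((card_le_card a).trans (card_union_le _ _))
  push_cast at b
  linarith [S.bd v f h]

/-- The random greedy matching with the container tests and the local tests. -/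
theorem matchR (ρ ζ W : ℝ) (hρ : 0 < ρ) (hζ : 0 < ζ) (hW : 0 ≤ W) : ∃ e K : ℝ, 0 < e ∧ 0 < K ∧
    ∀ (V : Type) [Fintype V] (G : SimpleGraph V) (F : V → V → V → Prop) (d μ τ : ℝ) (V0 : Finset V)
      (m : ℕ) (X : (Fin m → Option (V × V)) × Bool → Finset (V × V)), μ ≤ 1 / 2 → τ ≤ 1 / 2 →
      0 < Fintype.card V → H91.Sys G F d μ τ → K * (Real.log (Fintype.card V) + 1) ≤ d →
      m * d ≤ W * Fintype.card V + d → (1 - e) * Fintype.card V ≤ #V0 →
      (∀ v, |(#{u ∈ V0 | G.Adj v u} : ℝ) - d| ≤ e * d) →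
      ∃ (R : Finset V) (s : V → V), R ⊆ V0 ∧ Mat G R s ∧ (#(V0 \ R) : ℝ) ≤ ρ * Fintype.card V ∧
        (∀ i, (#{x ∈ R | (x, s x) ∈ X i} : ℝ) ≤
          #{e ∈ X i | G.Adj e.1 e.2} / d + ζ * Fintype.card V) ∧
        ∀ v f, G.Adj v f → d / 5 ≤ #{y ∈ R | G.Adj v y ∧ Cmp F v f y ∧ Cmp F y (s y) v} := by
  obtain ⟨e, lam, e0, l0, H⟩ := H91.mainproc (min ρ (1 / 200)) (min (ζ / 2) (1 / 200))
    (lt_min hρ (by norm_num)) (lt_min (by linarith) (by norm_num))
  refine ⟨min e (1 / 100), 1 / e + (2 * W + 20) / lam, lt_min e0 (by norm_num), by positivity,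
    fun V _ G F d μ τ V0 m X hμ hτ hn S hd hm hV hD => ?_⟩
  obtain ⟨n, hn'⟩ : ∃ n : ℝ, n = Fintype.card V := ⟨_, rfl⟩
  have n1 : 1 ≤ n := by rw [hn']; exact_mod_cast hn
  have k1 : 0 < 1 / e := by positivity
  have k2 : 0 < (2 * W + 20) / lam := by positivity
  have k3 : (2 * W + 20) / lam * lam = 2 * W + 20 := div_mul_cancel₀ _ l0.ne'
  have k4 : 1 / e * e = 1 := div_mul_cancel₀ _ e0.ne'
  have lg := Real.log_nonneg n1
  have d0 : 0 < d := lt_of_lt_of_le (by rw [← hn']; positivity) hd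
  have d2 := d_le S hτ hn d0.le
  have cc := card_codes (lam := lam) hn hW (by positivity) hd d2 hm (by nlinarith)
  have ee : min e (1 / 100) * d ≤ e * d := mul_le_mul_of_nonneg_right (min_le_left _ _) d0.le
  have ee' : min e (1 / 100) * d ≤ 1 / 100 * d :=
    mul_le_mul_of_nonneg_right (min_le_right _ _) d0.le
  obtain ⟨Y, hY⟩ : ∃ Y : V × V → Finset (V × V), ∀ i, Y i =
    univ.filter fun x => G.Adj i.1 x.1 ∧ Cmp F i.1 i.2 x.1 ∧ Cmp F x.1 x.2 i.1 := ⟨_, fun _ => rfl⟩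
  have fibs : ∀ (Z : Finset (V × V)) (A : Finset V) (c : ℝ),
      (∀ x ∈ A, c ≤ #(H91.fib Z x)) → c * #A ≤ #Z := fun Z A c h => by
    rw [H91.card_eq_sum_fib Z, Nat.cast_sum, mul_comm, ← nsmul_eq_mul, ← sum_const]
    exact (sum_le_sum h).trans
      (sum_le_sum_of_subset_of_nonneg (subset_univ _) fun _ _ _ => Nat.cast_nonneg _)
  rw [← hn'] at hd hV cc d2
  obtain ⟨R, s, r1, r2, r3, r4, r5⟩ := H V G d V0 (((Fin m → Option (V × V)) × Bool) ⊕ (V × V))
    (Sum.elim X Y) (Sum.elim (fun _ => 2 * n) fun _ => 4 * d) (by nlinarith)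
    (by rw [← hn']; nlinarith [min_le_left e (1 / 100)]) (fun v => (hD v).trans ee)
    (by
      rintro (i | i)
      · exact hn' ▸ H91.card_states S (by linarith) d0.le fun e he => (mem_filter.1 he).2
      · simp only [Sum.elim_inr]
        rw [H91.card_eq_sum_fib, Nat.cast_sum]
        have a : ∀ x ∈ (univ : Finset V), (#(H91.fib {x ∈ Y i | G.Adj x.1 x.2} x) : ℝ) ≤
            if G.Adj i.1 x then 2 * d else 0 := fun x _ => by
          split_ifs with c
          · exact (H91.fib_le S (fun e he => (mem_filter.1 he).2) x).trans (by nlinarith)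
          · rw [H91.fib, filter_eq_empty_iff.2 fun f _ hf => c (by
              simp only [hY, mem_filter] at hf
              exact hf.1.2.1)]
            simp
        refine (sum_le_sum a).trans ?_
        rw [← sum_filter, sum_const, nsmul_eq_mul]
        have := mul_le_mul_of_nonneg_right ((S.hi i.1).trans
          (show (1 + τ) * d ≤ 2 * d by nlinarith)) (show 0 ≤ 2 * d by positivity)
        linarith)
    (by
      rw [Fintype.sum_sum_type, ← hn']
      simp only [Sum.elim_inl, Sum.elim_inr, sum_const, card_univ, nsmul_eq_mul]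
      rw [Fintype.card_prod V, Nat.cast_mul, ← hn']
      have a1 := exp_small (x := lam * d / 2) (C := 10) n1 (by norm_num) (by nlinarith)
      have a2 : Real.exp (lam * n) * Real.exp (-(lam * (2 * n))) ≤ Real.exp (-(lam * d / 2)) := by
        rw [← Real.exp_add]
        exact Real.exp_le_exp.2 (by nlinarith)
      have a3 : Real.exp (-(lam * (4 * d))) ≤ Real.exp (-(lam * d / 2)) :=
        Real.exp_le_exp.2 (by nlinarith)
      have a4 : Real.exp (-(lam * d)) ≤ Real.exp (-(lam * d / 2)) :=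
        Real.exp_le_exp.2 (by nlinarith)
      have a5 := mul_le_mul_of_nonneg_right cc (Real.exp_pos (-(lam * (2 * n)))).le
      have a6 := Real.exp_pos (-(lam * d / 2))
      have a7 := mul_le_mul_of_nonneg_left a3 (show 0 ≤ n * n by positivity)
      have a8 := mul_le_mul_of_nonneg_left a4 (show 0 ≤ n by positivity)
      have a9 : n * Real.exp (-(lam * d / 2)) ≤ n ^ 2 * Real.exp (-(lam * d / 2)) :=
        mul_le_mul_of_nonneg_right (by nlinarith) a6.le
      have b1 : Real.exp (-(lam * d / 2)) ≤ n * Real.exp (-(lam * d / 2)) := by nlinarith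
      nlinarith)
  refine ⟨R, s, r1, r2, r3.trans (mul_le_mul_of_nonneg_right (min_le_left _ _) (by positivity)),
    fun i => ?_, fun v f h => ?_⟩
  · have a := (r5 (Sum.inl i)).1
    simp only [Sum.elim_inl] at a
    have b : (#{x ∈ X i | x.1 ∈ V0 ∧ x.2 ∈ V0 ∧ G.Adj x.1 x.2} : ℝ) ≤ #{e ∈ X i | G.Adj e.1 e.2} :=
      Nat.cast_le.2 (card_le_card fun x hx => mem_filter.2
        ⟨(mem_filter.1 hx).1, (mem_filter.1 hx).2.2.2⟩)
    rw [← hn']
    nlinarith [div_le_div_of_nonneg_right b d0.le, min_le_left (ζ / 2) (1 / 200)]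
  · have a := (r5 (Sum.inr (v, f))).2
    simp only [Sum.elim_inr, hY, mem_filter, mem_univ, true_and] at a
    have lo : ∀ x y, G.Adj x y → 49 / 100 * d ≤ #{u ∈ V0 | G.Adj x u ∧ Cmp F x y u} :=
      fun x y e => by nlinarith [cmp_count S V0 e, (abs_le.1 (hD x)).1]
    have b1 := fibs {x ∈ (univ.filter fun x : V × V => G.Adj v x.1 ∧ Cmp F v f x.1 ∧
      Cmp F x.1 x.2 v) | x.1 ∈ V0 ∧ x.2 ∈ V0 ∧ G.Adj x.1 x.2} {u ∈ V0 | G.Adj v u ∧ Cmp F v f u}
      (49 / 100 * d) fun y hy => (lo y v (mem_filter.1 hy).2.1.symm).trans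
        (Nat.cast_le.2 (card_le_card fun u hu => by
          simp only [H91.fib, mem_filter, mem_univ, true_and] at hy hu ⊢
          exact ⟨⟨hy.2.1, hy.2.2, hu.2.2.symm' S.symm⟩, hy.1, hu.1, hu.2.1⟩))
    have b2 := mul_le_mul_of_nonneg_left (lo v f h) (show 0 ≤ 49 / 100 * d by positivity)
    have b3 : (#{x ∈ V0 \ R | ∃ g, G.Adj v x ∧ Cmp F v f x ∧ Cmp F x g v} : ℝ) ≤
        #{u ∈ V0 \ R | G.Adj v u} := Nat.cast_le.2 (card_le_card fun x hx => mem_filter.2
          ⟨(mem_filter.1 hx).1, (mem_filter.1 hx).2.elim fun _ h => h.1⟩)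
    have b4 := (le_div_iff₀ d0).2
      ((show 49 / 100 * (49 / 100) * d * d = 49 / 100 * d * (49 / 100 * d) by ring).le.trans
        (b2.trans b1))
    have b5 := r4 v
    nlinarith [min_le_right (ζ / 2) (1 / 200), min_le_right ρ (1 / 200)]

theorem big_pos (P : PR G d τ ζ) {ξ : ℝ} (hξ : 0 ≤ ξ) (h : ζ ≤ ξ ^ 2) (hd : 0 < d)
    (hn : 0 < Fintype.card V) (X Y : Finset V) (hX : ξ * Fintype.card V < #X)
    (hY : ξ * Fintype.card V < #Y) : 0 < er G.Adj X Y := by
  have n0 : (0 : ℝ) < Fintype.card V := by exact_mod_cast hn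
  have a := P.p4 X Y
  have b := mul_lt_mul'' hX hY (by positivity) (by positivity)
  have c : ζ * Fintype.card V * d < d / Fintype.card V * #X * #Y := by
    rw [mul_assoc (d / _), div_mul_eq_mul_div, lt_div_iff₀ n0]
    nlinarith [mul_le_mul_of_nonneg_right h (mul_pos n0 n0).le]
  exact Nat.cast_pos.1 (by linarith : (0 : ℝ) < _)

theorem small_lt (P : PR G d τ ζ) {ξ c : ℝ} (hd : 0 ≤ d) (hn : 0 < Fintype.card V)
    (h : 8 * ξ * d + 6 * Real.log (Fintype.card V) < c) (X Y : Finset V) (h1 : X.Nonempty)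
    (h2 : (#X : ℝ) ≤ ξ * Fintype.card V) (h3 : #Y ≤ #X) : (er G.Adj X Y : ℝ) < c * #X := by
  have n1 : (1 : ℝ) ≤ Fintype.card V := by exact_mod_cast hn
  have a := P.p1 X Y
  have x0 : (0 : ℝ) < #X := by exact_mod_cast card_pos.2 h1
  have y1 : (#Y : ℝ) ≤ #X := by exact_mod_cast h3
  have b : d / Fintype.card V * #Y ≤ ξ * d := by
    rw [div_mul_eq_mul_div, div_le_iff₀ (by linarith)]
    nlinarith
  nlinarith [Real.log_nonneg n1, mul_le_mul_of_nonneg_right b x0.le]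

end Pool.Agent.MP_d6d719_co.H74

end MrgPart4

-- marker of a merged file
example : 731051 + 537635 = 731051 + 537635 := rfl
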