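import Pool.Agent.MP_d6d719_co.h74.Nice
import Pool.Agent.MP_d6d719_co.h74.Perm

set_option autoImplicit false
set_option linter.unusedSectionVars false

open Finset Equiv Equiv.Perm

namespace Pool.Agent.MP_d6d719_co.H74

variable {ι : Type*} [Fintype ι] [DecidableEq ι]

/-- A permutation of `T` along `H` all of whose cycles have length at least `lo`. -/
def Feas (T : Finset ι) (lo : ℕ) (H : Finset (ι × ι)) (σ : Perm ι) : Prop :=
  (∀ x, x ∉ T → σ x = x) ∧ (∀ x, σ x = x ∨ (x, σ x) ∈ H) ∧ ∀ x ∈ T, lo ≤ per σ x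

/-- The least number of short cycles. -/
noncomputable def val (T : Finset ι) (lo hi : ℕ) (H : Finset (ι × ι)) : ℕ :=
  sInf {k | ∃ σ, Feas T lo H σ ∧ (shorts σ T hi).card = k}

/-- The pairs that do not lower the number of short cycles. -/
noncomputable def nonB (T : Finset ι) (lo hi : ℕ) (H : Finset (ι × ι)) : Finset (ι × ι) :=
  (T ×ˢ T).filter (fun e => ¬ val T lo hi (insert e H) < val T lo hi H)

/-- The non-boosters of the two phases. -/
noncomputable def NB (l₁ l₂ : ℕ) (ω : Finset ι × Bool) (H : Finset (ι × ι)) : Finset (ι × ι) :=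
  if ω.2 then nonB ω.1 l₁ l₂ H else nonB ω.1 1 l₁ H

variable {T : Finset ι} {lo hi : ℕ} {H H' : Finset (ι × ι)} {σ : Perm ι}

theorem Feas.mono (h : Feas T lo H σ) (hH : H ⊆ H') : Feas T lo H' σ :=
  ⟨h.1, fun x => (h.2.1 x).imp_right fun a => hH a, h.2.2⟩

theorem val_le (h : Feas T lo H σ) : val T lo hi H ≤ (shorts σ T hi).card := Nat.sInf_le ⟨σ, h, rfl⟩

theorem exists_opt (h : Feas T lo H σ) :
    ∃ σ', Feas T lo H σ' ∧ (shorts σ' T hi).card = val T lo hi H :=
  Nat.sInf_mem (s := {k | ∃ σ, Feas T lo H σ ∧ (shorts σ T hi).card = k}) ⟨_, σ, h, rfl⟩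

theorem exists_cyc (m : ℕ) (c : ℕ → ι) (hc : ∀ i < m, ∀ j < m, c i = c j → i = j) :
    ((List.range m).map c).Nodup ∧
      ∀ i < m, ((List.range m).map c).formPerm (c i) = c ((i + 1) % m) := by
  have hn : ((List.range m).map c).Nodup := List.Nodup.map_on
    (fun i hi j hj e => hc i (List.mem_range.1 hi) j (List.mem_range.1 hj) e) List.nodup_range
  refine ⟨hn, fun i hi => ?_⟩
  have := List.formPerm_apply_getElem _ hn i (by simpa using hi)
  simpa using this

theorem exch_fun (h : Feas T lo H σ) (hH : H ⊆ H') (hlo : lo ≤ hi) (hhi : 0 < hi) {m : ℕ}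
    (hm : 2 ≤ m) (c : ℕ → ι) (hT : ∀ i < m, c i ∈ T)
    (hfar : ∀ i < m, ∀ j < m, i ≠ j → c j ∉ win σ hi (c i))
    (harc : ∀ i < m, (c i, σ (c ((i + 1) % m))) ∈ H') {i₀ : ℕ} (h0 : i₀ < m)
    (h1 : per σ (c i₀) < hi) : val T lo hi H' < (shorts σ T hi).card := by
  have hinj : ∀ i < m, ∀ j < m, c i = c j → i = j := fun i hi' j hj e => by
    by_contra hne
    exact hfar i hi' j hj hne (e ▸ self_mem_win hhi _)
  obtain ⟨hn, hρ⟩ := exists_cyc m c hinj
  set l := (List.range m).map c with hl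
  have hmem : ∀ x, x ∈ l.toFinset ↔ ∃ i < m, c i = x := fun x => by simp [hl]
  have hC : ∀ x, x ∉ l.toFinset → l.formPerm x = x := fun x hx =>
    List.formPerm_apply_of_notMem fun a => hx (List.mem_toFinset.2 a)
  have hf : ∀ a ∈ l.toFinset, ∀ b ∈ l.toFinset, a ≠ b → b ∉ win σ hi a := by
    intro a ha b hb hab
    obtain ⟨i, hi', rfl⟩ := (hmem a).1 ha
    obtain ⟨j, hj, rfl⟩ := (hmem b).1 hb
    exact hfar i hi' j hj fun e => hab (e ▸ rfl)
  have hCT : l.toFinset ⊆ T := fun a ha => by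
    obtain ⟨i, hi', rfl⟩ := (hmem a).1 ha
    exact hT i hi'
  refine lt_of_le_of_lt (val_le (σ := σ * l.formPerm) ⟨fun x hx => ?_, fun x => ?_,
    fun x hx => exch_lower hC hf hCT hlo h.2.2 hx⟩) (exch_count hC hf hCT (fun a ha b hb =>
      hn.isCycleOn_formPerm.2 (List.mem_toFinset.1 ha) (List.mem_toFinset.1 hb))
      ((hmem _).2 ⟨i₀, h0, rfl⟩) ?_ h1)
  · rw [mul_apply, hC x fun a => hx (hCT a), h.1 x hx]
  · by_cases e : x ∈ l.toFinset
    · obtain ⟨i, hi', rfl⟩ := (hmem x).1 e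
      rw [mul_apply, hρ i hi']
      exact Or.inr (harc i hi')
    · rw [mul_apply, hC x e]
      exact (h.2.1 x).imp_right fun a => hH a
  · rw [hρ i₀ h0]
    intro e
    have := hinj _ (Nat.mod_lt _ (by omega)) _ h0 e
    rcases Nat.lt_or_ge (i₀ + 1) m with a | a
    · rw [Nat.mod_eq_of_lt a] at this
      omega
    · rw [show i₀ + 1 = m by omega, Nat.mod_self] at this
      omega

theorem booster {HS I C₀ : Finset ι} {K : ι → ι → Prop} (hK : ∀ x y, K x y → (x, y) ∈ H)
    (h : Feas T lo H σ) (hlo : lo ≤ hi) (hhi : 0 < hi) (hI : I ⊆ T) {r : ℕ} {b b' : ℕ → ι}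
    (hb : Br (fun _ s c => K s (σ c)) I (C₀.biUnion (win σ hi)) (win σ hi) r b)
    (hb' : Br (fun _ c c' => K c' (σ c)) I (HS.biUnion (win σ hi)) (win σ hi) r b')
    (h1 : b 0 ∈ T) (h2 : b' 0 ∈ T) (h3 : K (b' 0) (σ (b 0))) (h4 : b 0 ∉ win σ hi (b' 0))
    (h5 : b 0 ∈ C₀) (h6 : b' 0 ∈ C₀) (h7 : b' 0 ∈ HS) (h8 : ∀ i ≤ r, b i ∈ HS)
    (h9 : per σ (b' 0) < hi) :
    val T lo hi (insert (b r, σ (b' r)) H) < (shorts σ T hi).card := by
  have f1 : ∀ i j, i < j → j ≤ r → b j ∉ win σ hi (b i) := by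
    intro i j hij hj
    obtain ⟨j, rfl⟩ : ∃ k, j = k + 1 := ⟨j - 1, by omega⟩
    rcases i with _ | i
    · exact fun a => hb.out j hj (mem_biUnion.2 ⟨_, h5, a⟩)
    · exact hb.far i j (by omega) hj
  have f2 : ∀ i j, i < j → j ≤ r → b' j ∉ win σ hi (b' i) := by
    intro i j hij hj
    obtain ⟨j, rfl⟩ : ∃ k, j = k + 1 := ⟨j - 1, by omega⟩
    rcases i with _ | i
    · exact fun a => hb'.out j hj (mem_biUnion.2 ⟨_, h7, a⟩)
    · exact hb'.far i j (by omega) hj
  have f3 : ∀ i ≤ r, ∀ j ≤ r, b' j ∉ win σ hi (b i) := by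
    intro i hi' j hj
    rcases j with _ | j
    · rcases i with _ | i
      · exact fun a => h4 (win_symm a)
      · exact fun a => hb.out i hi' (mem_biUnion.2 ⟨_, h6, win_symm a⟩)
    · exact fun a => hb'.out j hj (mem_biUnion.2 ⟨_, h8 i hi', a⟩)
  refine exch_fun h (subset_insert _ _) hlo hhi (m := 2 * r + 2) (by omega)
    (fun i => if i ≤ r then b i else b' (2 * r + 1 - i)) (fun i _ => ?_) (fun i hi' j hj hij => ?_)
    (fun i hi' => ?_) (i₀ := 2 * r + 1) (by omega) (by simpa [show ¬ 2 * r + 1 ≤ r by omega])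
  · split_ifs with c
    · rcases i with _ | i
      · exact h1
      · exact hI (hb.mem i c)
    · rcases e : 2 * r + 1 - i with _ | k
      · exact h2
      · exact hI (hb'.mem k (by omega))
  · by_cases c1 : i ≤ r <;> by_cases c2 : j ≤ r <;> simp only [c1, c2, if_true, if_false]
    · rcases lt_or_gt_of_ne hij with c | c
      · exact f1 i j c c2
      · exact fun a => f1 j i c c1 (win_symm a)
    · exact f3 i c1 _ (by omega)
    · exact fun a => f3 j c2 _ (by omega) (win_symm a)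
    · rcases lt_or_gt_of_ne hij with c | c
      · exact fun a => f2 _ _ (by omega) (by omega) (win_symm a)
      · exact f2 _ _ (by omega) (by omega)
  · rcases lt_trichotomy i r with c | rfl | c
    · rw [Nat.mod_eq_of_lt (by omega), if_pos c.le, if_pos (show i + 1 ≤ r from c)]
      exact mem_insert_of_mem (hK _ _ (hb.rel i c))
    · rw [Nat.mod_eq_of_lt (by omega), if_pos le_rfl, if_neg (by omega),
        show 2 * i + 1 - (i + 1) = i by omega]
      exact mem_insert_self _ _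
    · rcases Nat.lt_or_ge i (2 * r + 1) with c' | c'
      · rw [Nat.mod_eq_of_lt (by omega), if_neg (by omega), if_neg (by omega),
          show 2 * r + 1 - i = 2 * r + 1 - (i + 1) + 1 by omega]
        exact mem_insert_of_mem (hK _ _ (hb'.rel _ (by omega)))
      · rw [show i + 1 = 2 * r + 2 by omega, Nat.mod_self, if_neg (by omega), if_pos (by omega),
          show 2 * r + 1 - i = 0 by omega]
        exact mem_insert_of_mem (hK _ _ h3)

theorem boost_min {g D : ι → ι → Prop} {m β t : ℝ} (hD : ∀ x y, D x y → g x y)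
    (hB : ∀ H : Finset (ι × ι), (∀ e ∈ H, g e.1 e.2) → (H.card : ℝ) ≤ m →
      ((nonB T lo hi H).card : ℝ) ≤ β →
      ec (fun x y => (x, y) ∈ nonB T lo hi H \ H ∧ g x y) T T ≤ t)
    (hbig : m + t < ec D T T) (Q : Perm ι → Prop) {H₀ : Finset (ι × ι)}
    (hm : (H₀.card : ℝ) + T.card ≤ m) (h0 : ∀ e ∈ H₀, D e.1 e.2) {σ₀ : Perm ι}
    (hσ : Feas T lo H₀ σ₀)
    (hQ : ∀ H, H₀ ⊆ H → (∀ e ∈ H, D e.1 e.2) → ∀ σ, Feas T lo H σ →
      (shorts σ T hi).card = val T lo hi H → ¬ Q σ → ((nonB T lo hi H).card : ℝ) ≤ β) :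
    ∃ H σ, H₀ ⊆ H ∧ (∀ e ∈ H, D e.1 e.2) ∧ H.card ≤ H₀.card + T.card ∧ Feas T lo H σ ∧ Q σ := by
  have key : ∀ k : ℕ, ∀ H, H₀ ⊆ H → (∀ e ∈ H, D e.1 e.2) → val T lo hi H = k →
      H.card + k ≤ H₀.card + T.card →
      ∃ H σ, H₀ ⊆ H ∧ (∀ e ∈ H, D e.1 e.2) ∧ H.card ≤ H₀.card + T.card ∧ Feas T lo H σ ∧ Q σ := by
    intro k
    induction k using Nat.strong_induction_on with
    | _ k ih =>
      intro H a1 a2 a3 a4
      obtain ⟨σ, b1, b2⟩ := exists_opt (hi := hi) (hσ.mono a1)
      by_cases hq : Q σ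
      · exact ⟨H, σ, a1, a2, by omega, b1, hq⟩
      have b3 : (H.card : ℝ) ≤ m := by
        have : (H.card : ℝ) ≤ H₀.card + T.card := by exact_mod_cast (by omega)
        linarith
      have b4 := hB H (fun e he => hD _ _ (a2 e he)) b3 (hQ H a1 a2 σ b1 b2 hq)
      have b5 : ∃ x ∈ T, ∃ y ∈ T, D x y ∧ val T lo hi (insert (x, y) H) < val T lo hi H := by
        by_contra hc
        push Not at hc
        have c1 : ec D T T ≤ ec (fun x y => (x, y) ∈ H) T T +
            ec (fun x y => (x, y) ∈ nonB T lo hi H \ H ∧ g x y) T T := by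
          unfold ec
          rw [← sum_add_distrib]
          refine sum_le_sum fun x hx => ?_
          simp only [deg_eq_sum]
          rw [← sum_add_distrib]
          refine sum_le_sum fun y hy => ?_
          by_cases d1 : D x y
          · by_cases d2 : (x, y) ∈ H
            · simp only [d1, d2, if_true]
              split_ifs <;> norm_num
            · have : (x, y) ∈ nonB T lo hi H \ H ∧ g x y := ⟨mem_sdiff.2 ⟨mem_filter.2
                ⟨mem_product.2 ⟨hx, hy⟩, not_lt.2 (hc x hx y hy d1)⟩, d2⟩, hD _ _ d1⟩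
              simp only [d1, d2, this, if_true]
              simp
          · simp only [d1, if_false]
            split_ifs <;> norm_num
        have c2 : ec (fun x y => (x, y) ∈ H) T T ≤ H.card := ec_le_card_of fun _ _ _ _ h => h
        linarith
      obtain ⟨x, -, y, -, c1, c2⟩ := b5
      refine ih _ (a3 ▸ c2) (insert (x, y) H) (a1.trans (subset_insert _ _)) (fun e he => ?_) rfl ?_
      · rcases mem_insert.1 he with rfl | he
        · exact c1
        · exact a2 e he
      · have := card_insert_le (x, y) H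
        omega
  refine key _ H₀ (Subset.refl _) h0 rfl ?_
  have := (val_le (hi := hi) hσ).trans (card_image_le.trans (card_filter_le _ _))
  omega

end Pool.Agent.MP_d6d719_co.H74
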