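import Pool.Agent.MP_d6d719_co.h74.Boost

set_option autoImplicit false
set_option linter.unusedSectionVars false

open Finset Equiv Equiv.Perm

namespace Pool.Agent.MP_d6d719_co.H74

variable {ι : Type*} [Fintype ι] [DecidableEq ι]

/-- All properties of the contracted digraph `D`, its host `g` and its sparse part `HS`. -/
structure Host (p : Par) (P : Fin 8 → Finset ι) (HS : Finset (ι × ι)) (g D : ι → ι → Prop)
    (u₀ : ι) : Prop where
  fwd : Nice p P (fun x y => (x, y) ∈ HS) g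
  bwd : Nice p P (fun y x => (x, y) ∈ HS) (fun y x => g x y)
  HD : ∀ e ∈ HS, D e.1 e.2
  Dg : ∀ x y, D x y → g x y
  Hc : (HS.card : ℝ) ≤ p.mH
  Dd : ∀ x j, p.cD ≤ deg D x (P j)
  sparse : Sparse g p.κ p.s₄
  diag : ∀ u, u ≠ u₀ → g u u
  few1 : FewBad g (p.l₂ + 1) (2 * p.r + 2) p.a p.b
  few2 : FewBad (fun y x => g x y) (p.l₂ + 1) (2 * p.r + 2) p.a p.b
  boost : Boost g (NB p.l₁ p.l₂) p.m p.β p.t
  disj : ∀ i j, i ≠ j → Disjoint (P i) (P j)
  cover : ∀ x, ∃ i, x ∈ P i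
  lo : ∀ i, p.n' - p.s / 8 ≤ (P i).card
  hi : ∀ i, ((P i).card : ℝ) ≤ p.n' + p.s / 8

variable {p : Par} {P : Fin 8 → Finset ι} {HS : Finset (ι × ι)} {K g D : ι → ι → Prop} {u₀ : ι}

theorem Nice.deg_ge (h : Nice p P K g) (α β : Perm ι) {I Z : Finset ι} (j : Fin 8)
    (h4 : ∀ y, β y ∈ P j → y ∈ I ∨ y ∈ Z) {x : ι}
    (h5 : deg (fun x y => g (α x) (β y)) x Z ≤ p.a) :
    p.c - p.a ≤ deg (fun x y => K (α x) (β y)) x I := by
  have b1 := h.mindeg (α x) j
  have b2 := deg_map (R := K) (x := α x) β.toEmbedding ((P j).map β.symm.toEmbedding)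
  rw [map_map] at b2
  have b3 : β.symm.toEmbedding.trans β.toEmbedding = Function.Embedding.refl _ := by
    ext; simp
  rw [b3, map_refl] at b2
  have b4 := deg_le_add (R := fun x y => K (α x) (β y)) (x := x)
    (Y := (P j).map β.symm.toEmbedding) (Y₁ := I) (Y₂ := Z) fun y hy _ => h4 y (by
      obtain ⟨z, hz, rfl⟩ := mem_map.1 hy
      simpa using hz)
  have b5 := deg_mono_rel (R := fun x y => K (α x) (β y)) (R' := fun x y => g (α x) (β y))
    (x := x) (Y := Z) fun y => h.le _ _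
  have b6 : deg K (α x) (P j) = deg (fun x y => K (α x) (β y)) x
    ((P j).map β.symm.toEmbedding) := b2
  linarith

theorem deg_le_sdiff {R R' : ι → ι → Prop} (h : ∀ x y, R x y → R' x y) (x : ι) (I W : Finset ι) :
    deg R x I ≤ deg R x (I \ W) + deg R' x W := by
  have b1 := deg_le_add (R := R) (x := x) (Y := I) (Y₁ := I \ W) (Y₂ := W) fun y hy _ => by
    by_cases c : y ∈ W
    · exact Or.inr c
    · exact Or.inl (mem_sdiff.2 ⟨hy, c⟩)
  linarith [deg_mono_rel (x := x) (Y := W) (h x)]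

theorem many_boosters (h : Host p P HS g D u₀) (ok : p.OK (Fintype.card ι)) {T Z Pt : Finset ι}
    (hT : Reg p P T) {j : Fin 8} (hj : P j ⊆ T) {lo hi q : ℕ} {H : Finset (ι × ι)} (hH : HS ⊆ H)
    {σ : Perm ι} (hσ : Feas T lo H σ) (hopt : (shorts σ T hi).card = val T lo hi H)
    (hlo : lo ≤ hi) (hhi : 0 < hi) (hZ : (Z.card : ℝ) ≤ p.s)
    (l1 : Loc (fun s c => g s (σ c)) (win σ hi) (T \ Z) q p.a)
    (l2 : Loc (fun c c' => g c' (σ c)) (win σ hi) (T \ Z) q p.a)
    (z1 : ∀ x ∈ T \ Z, deg (fun s c => g s (σ c)) x Z ≤ p.a)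
    (z2 : ∀ x ∈ T \ Z, deg (fun c c' => g c' (σ c)) x Z ≤ p.a)
    {u : ι} (hu : u ∈ T \ Z) (hs : per σ u < hi) (q1 : Pt.card + p.r + 2 ≤ q)
    (q2 : 2 * p.r + 2 ≤ q)
    (hP : ∀ (c : ι) (C : Finset ι), C.card ≤ p.r → (∀ x ∈ C, x ∉ Pt.biUnion (win σ hi)) →
      p.a < deg (fun c c' => (c', σ c) ∈ HS) u
        ((T \ Z) \ (insert u (insert c C)).biUnion (win σ hi))) :
    ((nonB T lo hi H).card : ℝ) ≤ p.β := by
  classical
  have hσT : ∀ x ∈ T, σ x ∈ T := fun x => apply_mem_of_supp hσ.1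
  have hI : ∀ y ∈ T, y ∈ T \ Z ∨ y ∈ Z := fun y hy => by
    by_cases c : y ∈ Z
    · exact Or.inr c
    · exact Or.inl (mem_sdiff.2 ⟨hy, c⟩)
  have hI1 : ∀ y, σ y ∈ P j → y ∈ T \ Z ∨ y ∈ Z := fun y hy => hI y (by
    by_contra c
    exact c (hσ.1 y c ▸ hj hy))
  have hTI : (T.card : ℝ) ≤ (T \ Z).card + p.s := by
    have := Nat.cast_le (α := ℝ).2 (card_le_card_sdiff_add_card (s := T) (t := Z))
    push_cast at this
    linarith
  have s0 : 0 ≤ p.s := by linarith [ok.s1]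
  have e0 : ∀ α : Perm ι, (∀ x ∈ T, α x ∈ T) →
      (((T \ Z).filter fun x => α x ∉ T).card : ℝ) ≤ p.s := fun α hα => by
    rw [filter_eq_empty_iff.2 fun x hx => not_not.2 (hα x (mem_sdiff.1 hx).1)]
    simpa using s0
  have G1 := h.fwd.grow ok 1 σ hT (e0 1 fun _ a => a) (e0 σ hσT) (by linarith) j hI1 z1
  have G2 := h.bwd.grow ok σ 1 hT (e0 σ hσT) (e0 1 fun _ a => a) (by linarith) j
    (fun y hy => hI y (hj hy)) z2
  have d1 : ∀ x ∈ T \ Z, p.c - p.a ≤ deg (fun s c => (s, σ c) ∈ HS) x (T \ Z) := fun x hx =>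
    h.fwd.deg_ge 1 σ j hI1 (z1 x hx)
  have le1 : ∀ x y, (x, σ y) ∈ HS → g x (σ y) := fun x y => h.fwd.le _ _
  obtain ⟨c₁, c1, c2, c3, c4⟩ : ∃ c ∈ T \ Z, (u, σ c) ∈ HS ∧ c ∉ win σ hi u ∧
      deg (fun s c => g s (σ c)) c ((insert u Pt).biUnion (win σ hi)) ≤ p.a := by
    by_contra hc
    push Not at hc
    have b1 := l1.many (insert u Pt) ((card_insert_le _ _).trans (by omega))
      ((T \ Z).filter fun c => p.a < deg (fun s c => g s (σ c)) c
        ((insert u Pt).biUnion (win σ hi))) (filter_subset _ _) fun x hx => (mem_filter.1 hx).2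
    have b2 := deg_le_sdiff le1 u (T \ Z) (win σ hi u)
    have b3 := deg_le_of_subset (R := fun s c => (s, σ c) ∈ HS) (x := u)
      (Y := (T \ Z) \ win σ hi u) (S := (T \ Z).filter fun c => p.a < deg (fun s c => g s (σ c)) c
        ((insert u Pt).biUnion (win σ hi))) fun y hy hr =>
      mem_filter.2 ⟨(mem_sdiff.1 hy).1, hc y (mem_sdiff.1 hy).1 hr (mem_sdiff.1 hy).2⟩
    linarith [d1 u hu, l1.one u hu u, ok.ac, ok.a0]
  obtain ⟨L, L1, L2, L3⟩ := reach_loc ok (R := fun _ s c => (s, σ c) ∈ HS)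
    (g := fun _ s c => g s (σ c)) (C₀ := insert c₁ (insert u Pt)) (s₀ := c₁) (fun _ => le1)
    (fun _ => l1) (by
      have := card_insert_le c₁ (insert u Pt)
      have := card_insert_le u Pt
      omega) (by
      have b1 := deg_le_sdiff le1 c₁ (T \ Z) ((insert c₁ (insert u Pt)).biUnion (win σ hi))
      have b2 := deg_le_add (R := fun s c => g s (σ c)) (x := c₁)
        (Y := (insert c₁ (insert u Pt)).biUnion (win σ hi)) (Y₁ := win σ hi c₁)
        (Y₂ := (insert u Pt).biUnion (win σ hi)) fun y hy _ => by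
          rwa [biUnion_insert, mem_union] at hy
      linarith [d1 c₁ c1, l1.one c₁ c1 c₁, ok.ac, ok.a0]) fun _ => G1
  have key : ∀ x ∈ L, deg (fun x y => ¬ val T lo hi (insert (x, y) H) < val T lo hi H) x T ≤
      8 * p.ε + 2 * p.s := by
    intro x hx
    obtain ⟨b, b0, b1, rfl⟩ := L3 x hx
    obtain ⟨L', M1, M2, M3⟩ := reach_loc ok (R := fun _ c c' => (c', σ c) ∈ HS)
      (g := fun _ c c' => g c' (σ c)) (C₀ := insert u (insert c₁ (piv p.r b))) (s₀ := u)
      (fun _ x y => h.fwd.le _ _) (fun _ => l2) (by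
        have := card_insert_le u (insert c₁ (piv p.r b))
        have := card_insert_le c₁ (piv p.r b)
        have := card_piv_le p.r b
        omega) (hP c₁ _ (card_piv_le _ _) fun x hx hm => by
          obtain ⟨i, hi', rfl⟩ := mem_piv.1 hx
          exact b1.out i hi' (biUnion_subset_biUnion_of_subset_left _
            ((subset_insert _ _).trans (subset_insert _ _)) hm)) fun _ => G2
    have b2 : L'.map σ.toEmbedding ⊆ T := fun y hy => by
      obtain ⟨z, hz, rfl⟩ := mem_map.1 hy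
      exact hσT z (mem_sdiff.1 (M1 hz)).1
    refine le_trans (deg_le_of_subset (S := T \ L'.map σ.toEmbedding) fun y hy hr =>
      mem_sdiff.2 ⟨hy, fun hm => hr ?_⟩) ?_
    · obtain ⟨z, hz, rfl⟩ := mem_map.1 hm
      obtain ⟨b', e0, e1, rfl⟩ := M3 z hz
      rw [← hopt]
      refine booster (K := fun x y => (x, y) ∈ HS) (fun _ _ a => hH a) hσ hlo hhi sdiff_subset b1 e1
        (b0 ▸ (mem_sdiff.1 c1).1) (e0 ▸ (mem_sdiff.1 hu).1) (by rw [b0, e0]; exact c2)
        (by rw [b0, e0]; exact c3) (by simp [b0]) (by simp [e0]) (by simp [e0]) (fun i hi' => ?_)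
        (e0 ▸ hs)
      rcases i with _ | i
      · simp [b0]
      · exact mem_insert_of_mem (mem_insert_of_mem (mem_piv.2 ⟨i, hi', rfl⟩))
    · rw [card_sdiff_of_subset b2, Nat.cast_sub (card_le_card b2), card_map]
      linarith
  have hLT : L ⊆ T := L1.trans sdiff_subset
  have b1 : ((nonB T lo hi H).card : ℝ) ≤
      ec (fun x y => ¬ val T lo hi (insert (x, y) H) < val T lo hi H) T T :=
    card_le_ec_of fun e he => ⟨(mem_product.1 (mem_filter.1 he).1).1,
      (mem_product.1 (mem_filter.1 he).1).2, (mem_filter.1 he).2⟩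
  have b2 : ec (fun x y => ¬ val T lo hi (insert (x, y) H) < val T lo hi H) T T =
      ec (fun x y => ¬ val T lo hi (insert (x, y) H) < val T lo hi H) (T \ L) T +
      ec (fun x y => ¬ val T lo hi (insert (x, y) H) < val T lo hi H) L T :=
    (sum_sdiff hLT).symm
  have b3 := ec_le_of_deg key
  have b4 := ec_le_of_deg (R := fun x y => ¬ val T lo hi (insert (x, y) H) < val T lo hi H)
    (X := T \ L) (Y := T) fun _ _ => deg_le_card
  rw [card_sdiff_of_subset hLT, Nat.cast_sub (card_le_card hLT)] at b4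
  have b5 : (T.card : ℝ) ≤ Fintype.card ι := by exact_mod_cast card_le_univ T
  have b6 : (L.card : ℝ) ≤ Fintype.card ι := by exact_mod_cast card_le_univ L
  have b7 : 0 ≤ 8 * p.ε + 2 * p.s := by linarith [ok.ε0]
  have b8 := mul_le_mul_of_nonneg_left b6 b7
  have b9 : (T.card : ℝ) * (T.card - L.card) ≤ Fintype.card ι * (8 * p.ε + 2 * p.s) :=
    (mul_le_mul_of_nonneg_left (by linarith) (Nat.cast_nonneg _)).trans
      (mul_le_mul_of_nonneg_right b5 b7)
  linarith [ok.ββ]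

theorem Host.nonB_bound (h : Host p P HS g D u₀) (T : Finset ι) (ω : Bool) {lo hi : ℕ}
    (e : ∀ H, NB p.l₁ p.l₂ (T, ω) H = nonB T lo hi H) (H : Finset (ι × ι))
    (h1 : ∀ e ∈ H, g e.1 e.2) (h2 : (H.card : ℝ) ≤ p.m) (h3 : ((nonB T lo hi H).card : ℝ) ≤ p.β) :
    ec (fun x y => (x, y) ∈ nonB T lo hi H \ H ∧ g x y) T T ≤ p.t := by
  classical
  have := h.boost (T, ω) H h1 h2 (by rwa [e])
  rw [e] at this
  refine le_trans (ec_le_card_of fun x _ y _ a => ?_) this
  simpa using a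

theorem cover (h : Host p P HS g D u₀) (ok : p.OK (Fintype.card ι)) {T : Finset ι}
    (hT : Reg p P T) {j : Fin 8} (hj : P j ⊆ T) :
    ∃ σ : Perm ι, (∀ x, x ∉ T → σ x = x) ∧ (∀ x ∈ T, D x (σ x) ∧ p.l₁ ≤ per σ x) ∧
      ((T.filter fun x => per σ x < p.l₂).card : ℝ) ≤ 4 * p.b := by
  classical
  have b5 : (T.card : ℝ) ≤ Fintype.card ι := by exact_mod_cast card_le_univ T
  have hbig : p.m + p.t < ec D T T := by
    have b1 := le_ec_of_deg (R := D) (X := T) (Y := T) fun x _ => (h.Dd x j).trans (deg_mono hj)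
    have b2 : ((P j).card : ℝ) ≤ T.card := by exact_mod_cast card_le_card hj
    have b3 := h.lo j
    have b4 : 0 ≤ ec D T T := ec_nonneg
    rcases le_total 0 p.cD with c | c
    · have : p.cD * (p.n' / 2) ≤ p.cD * T.card :=
        mul_le_mul_of_nonneg_left (by linarith [ok.big, ok.ε0, ok.s1]) c
      linarith [ok.tt]
    · have : p.cD * (p.n' / 2) ≤ 0 :=
        mul_nonpos_of_nonpos_of_nonneg c (by linarith [ok.big, ok.ε0, ok.s1])
      linarith [ok.tt]
  have harc : ∀ (H : Finset (ι × ι)) lo σ, (∀ e ∈ H, D e.1 e.2) → Feas T lo H σ →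
      ∀ w, σ w = w ∨ g w (σ w) := fun H lo σ a b w => (b.2.1 w).imp_right fun c => h.Dg _ _ (a _ c)
  have l2 := ok.l2
  have hb0 : 0 ≤ p.b := le_trans (by simp) (h.few1 1 ∅ (by simp))
  obtain ⟨H₂, σ₂, a1, a2, a3, a4, a5⟩ := boost_min (lo := 1) (hi := p.l₁) h.Dg
    (h.nonB_bound T false fun _ => rfl) hbig (fun σ => ∀ x ∈ T, p.l₁ ≤ per σ x) (H₀ := HS)
    (by linarith [h.Hc, ok.mm]) h.HD (σ₀ := 1)
    ⟨fun _ _ => rfl, fun _ => Or.inl rfl, fun x _ => per_pos _ x⟩ (by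
      intro H c1 c2 σ c3 c4 c5
      push Not at c5
      obtain ⟨u, hu, hs⟩ := c5
      obtain ⟨m1, m2⟩ := loc_both h.sparse h.diag (harc H _ σ c2 c3)
        (ok.win1.mono (show p.l₁ ≤ 2 * p.l₁ + 2 * p.r by omega))
      have hu' : u ∈ T \ ∅ := by simpa using hu
      have d1 := h.bwd.deg_ge σ 1 (I := T \ ∅) (Z := ∅) j
        (fun y hy => Or.inl (by simpa using hj hy)) (x := u)
        (by rw [deg_eq_zero (by simp)]; exact ok.a0)
      have d2 : (0 : ℝ) ≤ p.r := Nat.cast_nonneg _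
      have d3 := Nat.floor_le (show 0 ≤ 3 * p.a by linarith [ok.a0])
      have d4 := Nat.lt_floor_add_one (3 * p.a)
      obtain ⟨Pt, P1, P2⟩ := exists_subset_card_eq
        (s := nb (fun c c' => (c', σ c) ∈ HS) u (T \ ∅)) (n := ⌊3 * p.a⌋₊ + 1) (by
          have : ((⌊3 * p.a⌋₊ + 1 : ℕ) : ℝ) ≤ deg (fun c c' => (c', σ c) ∈ HS) u (T \ ∅) := by
            push_cast
            exact le_trans (by linarith [ok.ac, ok.ra]) d1
          unfold deg at this
          exact_mod_cast this)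
      have d5 : (Pt.card : ℝ) = ⌊3 * p.a⌋₊ + 1 := by rw [P2]; push_cast; rfl
      refine many_boosters h ok hT hj c1 c3 c4 (by omega) (by omega) (Z := ∅)
        (by simpa using le_trans zero_le_one ok.s1) (m1.mono (subset_univ _))
        (m2.mono (subset_univ _)) (fun _ _ => by rw [deg_eq_zero (by simp)]; exact ok.a0)
        (fun _ _ => by rw [deg_eq_zero (by simp)]; exact ok.a0) hu' hs (Pt := Pt) ?_ ?_
        fun c C _ hC => ?_
      · have : (Pt.card : ℝ) + p.r + 2 ≤ p.q := by linarith [ok.qa]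
        exact_mod_cast this
      · have : 2 * (p.r : ℝ) + 2 ≤ p.q := by linarith [ok.qa, ok.ra]
        exact_mod_cast this
      · have f1 := le_deg_of_subset (R := fun c c' => (c', σ c) ∈ HS) (x := u) (Y := Pt) (S := Pt)
          fun y hy => ⟨hy, (mem_nb.1 (P1 hy)).2⟩
        have le2 : ∀ x y, (y, σ x) ∈ HS → g y (σ x) := fun x y => h.fwd.le _ _
        have f2 := deg_le_sdiff le2 u Pt (win σ p.l₁ u)
        have f3 := deg_le_sdiff le2 u (Pt \ win σ p.l₁ u) (win σ p.l₁ c)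
        have f4 := deg_mono (R := fun c c' => (c', σ c) ∈ HS) (x := u)
          (Y := (Pt \ win σ p.l₁ u) \ win σ p.l₁ c)
          (Y' := (T \ ∅) \ (insert u (insert c C)).biUnion (win σ p.l₁)) fun y hy => by
            obtain ⟨g1, g2⟩ := mem_sdiff.1 hy
            obtain ⟨g3, g4⟩ := mem_sdiff.1 g1
            refine mem_sdiff.2 ⟨(mem_nb.1 (P1 g3)).1, fun hm => ?_⟩
            obtain ⟨z, g5, g6⟩ := mem_biUnion.1 hm
            rcases mem_insert.1 g5 with rfl | g5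
            · exact g4 g6
            rcases mem_insert.1 g5 with rfl | g5
            · exact g2 g6
            · exact hC z g5 (mem_biUnion.2 ⟨y, g3, win_symm g6⟩)
        linarith [m2.one u (mem_univ _) u, m2.one u (mem_univ _) c])
  have a3' : (H₂.card : ℝ) ≤ HS.card + T.card := by exact_mod_cast a3
  obtain ⟨H₃, σ, -, e2, -, e4, e5⟩ := boost_min (lo := p.l₁) (hi := p.l₂) h.Dg
    (h.nonB_bound T true fun _ => rfl) hbig
    (fun σ => ((T.filter fun x => per σ x < p.l₂).card : ℝ) ≤ 4 * p.b) (H₀ := H₂)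
    (by linarith [h.Hc, ok.mm]) a2 (σ₀ := σ₂) ⟨a4.1, a4.2.1, a5⟩ (by
      intro H c1 c2 σ c3 c4 c5
      obtain ⟨Z₀, z1, z2, z3, z4⟩ := loc_big h.few1 h.few2 (by omega) ok.a0 σ
      obtain ⟨E, f1, f2⟩ := closure (h.fwd.small.pull (Function.Embedding.refl _) σ.toEmbedding)
        (h.bwd.small.pull σ.toEmbedding (Function.Embedding.refl _)) ok.D4 Z₀ z1
        (by linarith [ok.bs])
      have f3 : 4 * (2 * p.b) / p.D ≤ 2 * p.b := by
        rw [div_le_iff₀ (by linarith [ok.D4])]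
        nlinarith [ok.D4]
      have f4 : ((Z₀ ∪ E).card : ℝ) ≤ 4 * p.b := by
        have := Nat.cast_le (α := ℝ).2 (card_union_le Z₀ E)
        push_cast at this
        linarith
      obtain ⟨u, hu, hu'⟩ : ∃ u ∈ T.filter fun x => per σ x < p.l₂, u ∉ Z₀ ∪ E := by
        by_contra hc
        push Not at hc
        exact c5 (le_trans (by exact_mod_cast card_le_card hc) f4)
      have f5 : T \ (Z₀ ∪ E) ⊆ Z₀ᶜ := fun x hx =>
        mem_compl.2 fun a => (mem_sdiff.1 hx).2 (mem_union_left _ a)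
      have f6 : ∀ x ∈ T \ (Z₀ ∪ E), x ∉ E := fun x hx a => (mem_sdiff.1 hx).2 (mem_union_right _ a)
      have f7 : u ∈ T \ (Z₀ ∪ E) := mem_sdiff.2 ⟨(mem_filter.1 hu).1, hu'⟩
      refine many_boosters h ok hT hj (a1.trans c1) c3 c4 ok.l12 (by linarith [ok.l12])
        (Z := Z₀ ∪ E) (by linarith [ok.bs]) (z2.mono f5) (z3.mono f5)
        (fun x hx => (f2 x (f6 x hx)).1.le) (fun x hx => (f2 x (f6 x hx)).2.le) f7
        (mem_filter.1 hu).2 (Pt := ∅) (by simp; omega) le_rfl fun c C hC _ => ?_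
      have d1 := h.bwd.deg_ge σ 1 (I := T \ (Z₀ ∪ E)) (Z := Z₀ ∪ E) j (fun y hy => by
        by_cases c : y ∈ Z₀ ∪ E
        · exact Or.inr c
        · exact Or.inl (mem_sdiff.2 ⟨hj hy, c⟩)) (x := u) (f2 u (f6 u f7)).2.le
      have le2 : ∀ x y, (y, σ x) ∈ HS → g y (σ x) := fun x y => h.fwd.le _ _
      have d2 := deg_le_sdiff le2 u (T \ (Z₀ ∪ E)) ((insert u (insert c C)).biUnion (win σ p.l₂))
      have d3 := z4 u (f5 f7) (insert u (insert c C)) (by
        have := card_insert_le u (insert c C)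
        have := card_insert_le c C
        omega)
      have d4 : p.c - p.a ≤ deg (fun c c' => (c', σ c) ∈ HS) u (T \ (Z₀ ∪ E)) := d1
      linarith [ok.ac, ok.a0])
  refine ⟨σ, e4.1, fun x hx => ⟨?_, e4.2.2 x hx⟩, e5⟩
  exact e2 _ ((e4.2.1 x).resolve_left (ne_of_per (l2.trans (e4.2.2 x hx))))

end Pool.Agent.MP_d6d719_co.H74
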