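import Pool.Agent.MP_d6d719_co.h74.Insert

set_option autoImplicit false
set_option linter.unusedSectionVars false

open Finset Equiv Equiv.Perm

namespace Pool.Agent.MP_d6d719_co.H74

variable {ι : Type*} [Fintype ι] [DecidableEq ι]
variable {p : Par} {P : Fin 8 → Finset ι} {HS : Finset (ι × ι)} {g D : ι → ι → Prop} {u₀ : ι}
variable {τ π : Perm ι} {Uc A Hd : Finset ι}

/-- The resource used by a cut point. -/
def res (r : ℕ) (π : Perm ι) (c : ℕ → ι) (t : ℕ) : Finset ι :=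
  if t + 1 = r + 1 then {c (t + 1)} else orb π (c (t + 1))

theorem Ins.memU (B : Base p P D τ π Uc A Hd) {c : ℕ → ι} (I : Ins p.r P D π Uc Hd c) {t : ℕ}
    (ht : t < 2 * p.r + 2) (t0 : t ≠ 0) : c t ∈ Uc := by
  by_cases e : t = p.r + 1
  · exact e ▸ B.sub (mem_union_right _ I.host.1)
  · obtain ⟨y, a, b⟩ := I.piv t ht t0 e
    exact B.memU (B.sub (mem_union_left _ a)) b

theorem Base.not7 (B : Base p P D τ π Uc A Hd) {x y : ι} (hx : x ∈ P 5 ∪ P 6) (hy : y ∈ P 7) :
    ¬ π.SameCycle x y := fun e => by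
  rcases mem_union.1 hx with a | a <;>
    exact absurd (B.col' (by decide) (by decide) a hy e) (by decide)

theorem all_ins (h : Host p P HS g D u₀) (ok : p.OK (Fintype.card ι))
    (B : Base p P D τ π Uc A Hd) : ∃ C : Finset ι → ℕ → ι,
    (∀ O ∈ ((Uc ∪ A)ᶜ).image (orb π), C O 0 ∈ O ∧ Ins p.r P D π Uc Hd (C O)) ∧
    ∀ O ∈ ((Uc ∪ A)ᶜ).image (orb π), ∀ O' ∈ ((Uc ∪ A)ᶜ).image (orb π), ∀ t < 2 * p.r + 1,
      ∀ t' < 2 * p.r + 1, res p.r π (C O) t = res p.r π (C O') t' → O = O' := by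
  classical
  have : Nonempty ι := ⟨u₀⟩
  obtain ⟨T, hT⟩ : ∃ T, T = ((Uc ∪ A)ᶜ).image (orb π) := ⟨_, rfl⟩
  rw [← hT]
  have hO : ∀ O ∈ T, (∃ x, O = orb π x) ∧ p.l₁ ≤ O.card := fun O a => by
    obtain ⟨x, hx, rfl⟩ := mem_image.1 (hT ▸ a)
    exact ⟨⟨x, rfl⟩, (B.out x (mem_compl.1 hx)).2⟩
  have l1 : (0 : ℝ) < p.l₁ := by exact_mod_cast (by linarith [ok.l2] : 0 < p.l₁)
  have l2 : (0 : ℝ) < p.l₂ := by exact_mod_cast (by linarith [ok.l2, ok.l12] : 0 < p.l₂)
  obtain ⟨W, hW⟩ : ∃ W : ℝ, W = (2 * p.r + 1) * (2 * p.l₁ + 2 * p.r) := ⟨_, rfl⟩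
  have W0 : 0 ≤ W := by rw [hW]; positivity
  have cT : 8 * W * T.card ≤ p.s - 1 := by
    have b1 := card_orbs (σ := π) (J := T.filter fun O => O.card < p.l₂) (l := p.l₁)
      (S := ((Uc ∪ A)ᶜ).filter fun x => per π x < p.l₂) fun O a => by
        obtain ⟨a1, a2⟩ := mem_filter.1 a
        refine ⟨(hO O a1).1, (hO O a1).2, fun y hy => ?_⟩
        obtain ⟨x, hx, rfl⟩ := mem_image.1 (hT ▸ a1)
        refine mem_filter.2 ⟨mem_compl.2 fun c => mem_compl.1 hx ?_, ?_⟩
        · rcases mem_union.1 c with c | c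
          · exact mem_union_left _ (B.memU c (mem_orb.1 hy).symm)
          · exact mem_union_right _ (B.eqA c (mem_orb.1 hy).symm ▸ c)
        · rw [← per_eq (mem_orb.1 hy)]
          exact a2
    have b2 := card_orbs (σ := π) (J := T.filter fun O => ¬ O.card < p.l₂) (l := p.l₂)
      (S := univ) fun O a =>
        ⟨(hO O (mem_filter.1 a).1).1, not_lt.1 (mem_filter.1 a).2, subset_univ _⟩
    have b3 := card_filter_add_card_filter_not (s := T) fun O => O.card < p.l₂
    rw [card_univ] at b2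
    have c1 := (Nat.cast_le (α := ℝ).2 b1).trans B.few
    have c2 := Nat.cast_le (α := ℝ).2 b2
    have c3 := congrArg (Nat.cast : ℕ → ℝ) b3
    push_cast at c1 c2 c3
    have c4 : (T.card : ℝ) * (p.l₁ * p.l₂) ≤ 4 * p.b * p.l₂ + Fintype.card ι * p.l₁ := by
      rw [← c3]
      nlinarith [mul_le_mul_of_nonneg_right c1 l2.le, mul_le_mul_of_nonneg_right c2 l1.le]
    have c5 := ok.fin
    rw [mul_assoc 8, ← hW] at c5
    refine le_of_mul_le_mul_right ?_ (mul_pos l1 l2)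
    nlinarith [mul_le_mul_of_nonneg_left c4 W0]
  obtain ⟨M, M1, M2⟩ := haxell T (fun O e => ∃ c, (c 0 ∈ O ∧ Ins p.r P D π Uc Hd c) ∧
    e = (range (2 * p.r + 1)).image (res p.r π c)) (2 * p.r + 1)
    (fun O e ⟨c, _, he⟩ => he ▸ card_image_le.trans (card_range _).le) (by
      intro J hJ hne R hR
      obtain ⟨Z, hZ⟩ : ∃ Z : Finset ι,
        Z = (R.filter fun X => X.card ≤ 2 * p.l₁ + 2 * p.r).biUnion id := ⟨_, rfl⟩
      have b1 : (Z.card : ℝ) ≤ 2 * W * J.card := by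
        have a1 := (card_biUnion_le (s := R.filter fun X => X.card ≤ 2 * p.l₁ + 2 * p.r)
          (t := id)).trans (sum_le_sum (g := fun _ => 2 * p.l₁ + 2 * p.r)
            fun X hX => (mem_filter.1 hX).2)
        rw [sum_const, smul_eq_mul, ← hZ] at a1
        have a2 := a1.trans (Nat.mul_le_mul_right _ ((card_filter_le _ _).trans hR))
        have a3 := Nat.cast_le (α := ℝ).2 a2
        push_cast at a3
        rw [hW]
        linarith
      have b2 : (J.card : ℝ) ≤ T.card := by exact_mod_cast card_le_card hJ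
      have b3 : (0 : ℝ) < J.card := by exact_mod_cast card_pos.2 hne
      have b4 := mul_le_mul_of_nonneg_left b2 W0
      have b5 := mul_nonneg W0 b3.le
      obtain ⟨E, f1, f2⟩ := closure (h.fwd.small.pull (Function.Embedding.refl _) π.toEmbedding)
        (h.bwd.small.pull π.toEmbedding (Function.Embedding.refl _)) ok.D4 Z b1 (by linarith)
      have D0 : 0 < p.D := by linarith [ok.D4]
      rw [le_div_iff₀ D0] at f1
      have f3 : (E.card : ℝ) < J.card * p.l₁ := by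
        have := ok.finD
        rw [mul_assoc 8, ← hW] at this
        have := mul_lt_mul_of_pos_right this b3
        refine lt_of_mul_lt_mul_right ?_ D0.le
        nlinarith
      obtain ⟨O, a1, u, a2, a3⟩ : ∃ O ∈ J, ∃ u ∈ O, u ∉ E := by
        by_contra hc
        push Not at hc
        have := card_orbs (σ := π) (J := J) (l := p.l₁) (S := E) fun O a =>
          ⟨(hO O (hJ a)).1, (hO O (hJ a)).2, hc O a⟩
        have := Nat.cast_le (α := ℝ).2 this
        push_cast at this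
        linarith
      have f5 : ((Z ∪ E).card : ℝ) ≤ p.s := by
        have := Nat.cast_le (α := ℝ).2 (card_union_le Z E)
        push_cast at this
        have e0 : (0 : ℝ) ≤ E.card := Nat.cast_nonneg _
        nlinarith [ok.D4]
      obtain ⟨c, c0, c1, c2⟩ := one_ins h ok B f5 (u := u) fun x hx => by
        have : x ∉ E := by
          rcases hx with rfl | hx
          · exact a3
          · exact fun c => hx (mem_union_right _ c)
        exact ⟨(f2 x this).1.le, (f2 x this).2.le⟩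
      refine ⟨O, a1, _, ⟨c, ⟨c0 ▸ a2, c1⟩, rfl⟩, disjoint_left.2 fun X hX e => ?_⟩
      obtain ⟨t, ht, rfl⟩ := mem_image.1 hX
      rw [mem_range] at ht
      refine c2 t ht (mem_union_left _ (hZ ▸ mem_biUnion.2 ⟨_, mem_filter.2 ⟨e, ?_⟩, ?_⟩))
      · unfold res
        split_ifs
        · rw [card_singleton]
          linarith [ok.l2]
        · have k := c1.memU B (t := t + 1) (by omega) (by omega)
          refine le_trans (le_of_eq ?_) (B.len _ k)
          unfold per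
          congr 1
          ext w
          simp only [mem_orb, B.sc k]
      · unfold res
        split_ifs
        · exact mem_singleton_self _
        · exact mem_orb.2 (SameCycle.refl _ _))
  choose! C C1 C2 using M1
  refine ⟨C, C1, fun O a O' b t ht t' ht' e => ?_⟩
  by_contra hne
  have := M2 O a O' b hne
  rw [C2 O a, C2 O' b] at this
  exact disjoint_left.1 this (mem_image_of_mem _ (mem_range.2 ht))
    (e ▸ mem_image_of_mem _ (mem_range.2 ht'))

theorem sc_mul_of {σ ρ : Perm ι} (h : ∀ c, ρ c ≠ c → (σ * ρ).SameCycle c (σ c)) {x y : ι}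
    (e : σ.SameCycle x y) : (σ * ρ).SameCycle x y :=
  keep_orbit (fun z _ => by
    by_cases c : ρ z = z
    · have : (σ * ρ) z = σ z := by rw [mul_apply, c]
      exact this ▸ sc_apply _ z
    · exact h z c) e

/-- The host digraph has a Hamilton cycle. -/
theorem host_ham (h : Host p P HS g D u₀) (ok : p.OK (Fintype.card ι)) :
    ∃ σ : Perm ι, (∀ x, D x (σ x)) ∧ ∀ x y, σ.SameCycle x y := by
  classical
  obtain ⟨τ, π, Uc, A, Hd, B⟩ := exists_base h ok
  obtain ⟨C, C1, C2⟩ := all_ins h ok B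
  obtain ⟨T, hT⟩ : ∃ T, T = ((Uc ∪ A)ᶜ).image (orb π) := ⟨_, rfl⟩
  rw [← hT] at C1 C2
  have out0 : ∀ O ∈ T, C O 0 ∉ Uc ∪ A ∧ O = orb π (C O 0) := fun O a => by
    have k := (C1 O a).1
    obtain ⟨x, hx, rfl⟩ := mem_image.1 (hT ▸ a)
    refine ⟨fun c => mem_compl.1 hx ?_, orb_eq (mem_orb.1 k)⟩
    rcases mem_union.1 c with c | c
    · exact mem_union_left _ (B.memU c (mem_orb.1 k).symm)
    · exact mem_union_right _ (B.eqA c (mem_orb.1 k).symm ▸ c)
  have U1 : ∀ O ∈ T, ∀ O' ∈ T, ∀ t < 2 * p.r + 2, ∀ t' < 2 * p.r + 2, t ≠ p.r + 1 →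
      π.SameCycle (C O t) (C O' t') → O = O' ∧ t = t' := fun O a O' b t ht t' ht' t1 e => by
    by_cases t0 : t = 0
    · by_cases t2 : t' = 0
      · subst t0 t2
        exact ⟨by rw [(out0 O a).2, (out0 O' b).2, ← (out0 O a).2, ← (out0 O' b).2,
          (out0 O a).2, orb_eq e, ← (out0 O' b).2], rfl⟩
      · exact absurd (mem_union_left _ (B.memU ((C1 O' b).2.memU B ht' t2) e.symm))
          (t0 ▸ (out0 O a).1)
    have t2 : t' ≠ 0 := fun t2 => (out0 O' b).1
      (mem_union_left _ (t2 ▸ B.memU ((C1 O a).2.memU B ht t0) e))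
    have t3 : t' ≠ p.r + 1 := fun t3 => by
      obtain ⟨y, y1, y2⟩ := (C1 O a).2.piv t ht t0 t1
      exact B.not7 y1 (C1 O' b).2.host.1 (t3 ▸ y2.trans e)
    obtain rfl : O = O' := C2 O a O' b (t - 1) (by omega) (t' - 1) (by omega) (by
      unfold res
      rw [if_neg (by omega), if_neg (by omega), show t - 1 + 1 = t by omega,
        show t' - 1 + 1 = t' by omega, orb_eq e])
    exact ⟨rfl, (C1 O a).2.sep t ht t' ht' t0 t1 t2 t3 e⟩
  have U2 : ∀ O ∈ T, ∀ O' ∈ T, ∀ t < 2 * p.r + 2, ∀ t' < 2 * p.r + 2, C O t = C O' t' →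
      O = O' ∧ t = t' := fun O a O' b t ht t' ht' e => by
    by_cases t1 : t = p.r + 1
    · by_cases t2 : t' = p.r + 1
      · subst t1 t2
        exact ⟨C2 O a O' b p.r (by omega) p.r (by omega) (by unfold res; simp [e]), rfl⟩
      · have := U1 O' b O a t' ht' t ht t2 (e ▸ SameCycle.refl _ _)
        exact ⟨this.1.symm, this.2.symm⟩
    · exact U1 O a O' b t ht t' ht' t1 (e ▸ SameCycle.refl _ _)
  have hL : ∀ O x, x ∈ (List.range (2 * p.r + 2)).map (C O) ↔ ∃ t < 2 * p.r + 2, C O t = x :=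
    fun O x => by simp
  have cyc := fun O a => exists_cyc (2 * p.r + 2) (C O) fun i hi j hj e => (U2 O a O a i hi j hj e).2
  obtain ⟨ρ, ρ1, ρ2⟩ := exists_fam T (fun O => (List.range (2 * p.r + 2)).map (C O))
    fun O a O' b c x hx hx' => by
      obtain ⟨t, ht, rfl⟩ := (hL _ _).1 hx
      obtain ⟨t', ht', e⟩ := (hL _ _).1 hx'
      exact c (U2 O a O' b t ht t' ht' e.symm).1
  have ρ3 : ∀ x, ρ x ≠ x → ∃ O ∈ T, ∃ t < 2 * p.r + 2, C O t = x := fun x hx => by
    by_contra c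
    exact hx (ρ1 x fun O a b => c ⟨O, a, (hL _ _).1 b⟩)
  have ρ4 : ∀ O ∈ T, ∀ t < 2 * p.r + 2, ρ (C O t) = C O ((t + 1) % (2 * p.r + 2)) :=
    fun O a t ht => (ρ2 O a _ ((hL _ _).2 ⟨t, ht, rfl⟩)).trans ((cyc O a).2 t ht)
  have ρ5 : ∀ O ∈ T, ∀ y, ρ.SameCycle (C O (p.r + 1)) y ↔ ∃ t < 2 * p.r + 2, C O t = y :=
    fun O a y => (sc_of_formPerm (cyc O a).1 (ρ2 O a) ((hL _ _).2 ⟨_, by omega, rfl⟩)).trans
      (hL _ _)
  obtain ⟨S, hS⟩ : ∃ S, S = Hd.filter fun x => ∀ O ∈ T, ∀ t < 2 * p.r + 2, t ≠ p.r + 1 →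
    ¬ π.SameCycle (C O t) x := ⟨_, rfl⟩
  have S1 : S ⊆ Hd := hS ▸ filter_subset _ _
  obtain ⟨ρ₀, r1, r2, r3⟩ := B.absorb S S1
  have nAS : ∀ O ∈ T, ∀ t < 2 * p.r + 2, t ≠ p.r + 1 → ∀ y, π.SameCycle (C O t) y →
      y ∉ A ∪ S := fun O a t ht t1 y e c => by
    rcases mem_union.1 c with c | c
    · have k : C O t ∈ A := B.eqA c e.symm ▸ c
      by_cases t0 : t = 0
      · exact (out0 O a).1 (mem_union_right _ (t0 ▸ k))
      · exact disjoint_left.1 B.disj ((C1 O a).2.memU B ht t0) k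
    · rw [hS] at c
      exact (mem_filter.1 c).2 O a t ht t1 e
  have nAS' : ∀ O ∈ T, ∀ t < 2 * p.r + 2, C O t ∉ A ∪ S := fun O a t ht => by
    by_cases t1 : t = p.r + 1
    · intro c
      rcases mem_union.1 c with c | c
      · exact disjoint_left.1 B.disj ((C1 O a).2.memU B ht (by omega)) c
      · exact (C1 O a).2.host.2 (t1 ▸ S1 c)
    · exact nAS O a t ht t1 _ (SameCycle.refl _ _)
  have solo0 : ∀ x ∈ A ∪ S, Solo π ρ₀ x := fun x hx y e hne => r1 y fun c => by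
    rcases mem_union.1 hx with a | a
    · exact hne (B.eqA a e).symm
    · rcases mem_union.1 c with b | b
      · exact hne (B.eqA b e.symm)
      · exact hne (B.huniq _ (S1 a) _ (S1 b) ((B.sc (B.hsub (S1 a))).1 e)).symm
  have k0 : ∀ {x y}, π.SameCycle x y → (π * ρ₀).SameCycle x y := fun e => sc_mul_of (fun c hc =>
    ((solo0 c (by by_contra a; exact hc (r1 c a))).follow (sc_apply π c)).symm) e
  have k1 : ∀ x ∈ A ∪ S, ∀ y ∈ A ∪ S, (π * ρ₀).SameCycle x y := fun x hx y hy =>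
    (merge_orbit (c := x) fun z hz _ => solo0 z
      (mem_of_sc (fun _ => apply_mem_of_supp r1) hx hz)).1 y (r2 x hx y hy)
  have solo1 : ∀ O ∈ T, ∀ t < 2 * p.r + 2, t ≠ p.r + 1 → Solo (π * ρ₀) ρ (C O t) :=
    fun O a t ht t1 y e hne => by
      rw [sc_congr (σ := π) fun z hz => by rw [mul_apply, r1 z (nAS O a t ht t1 z hz)]] at e
      by_contra c
      obtain ⟨O', b, t', ht', rfl⟩ := ρ3 y c
      obtain ⟨rfl, rfl⟩ := U1 O a O' b t ht t' ht' t1 e
      exact hne rfl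
  have k2 := fun O a => merge_orbit (σ := π * ρ₀) (ρ := ρ) (c := C O (p.r + 1)) fun y hy hne => by
    obtain ⟨t, ht, rfl⟩ := (ρ5 O a y).1 hy
    exact solo1 O a t ht fun e => hne (e ▸ rfl)
  have k3 : ∀ {x y}, (π * ρ₀).SameCycle x y → (π * ρ₀ * ρ).SameCycle x y := fun e =>
    sc_mul_of (fun c hc => by
      obtain ⟨O, a, t, ht, rfl⟩ := ρ3 c hc
      by_cases t1 : t = p.r + 1
      · exact t1 ▸ (k2 O a).2
      · exact ((solo1 O a t ht t1).follow (sc_apply _ _)).symm) e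
  have k4 : ∀ x ∈ P 7, ∃ y ∈ A ∪ S, (π * ρ₀ * ρ).SameCycle x y := fun x hx => by
    have xU := B.sub (mem_union_right _ hx)
    obtain ⟨y, y1, y2⟩ := B.hex x xU
    rw [← B.sc xU] at y2
    refine ⟨y, mem_union_right _ (hS ▸ mem_filter.2 ⟨y1, fun O a t ht t1 e => ?_⟩), k3 (k0 y2)⟩
    by_cases t0 : t = 0
    · exact (out0 O a).1 (mem_union_left _ (t0 ▸ B.memU (B.hsub y1) e.symm))
    · obtain ⟨z, z1, z2⟩ := (C1 O a).2.piv t ht t0 t1
      exact B.not7 z1 hx ((z2.trans e).trans y2.symm)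
  have k5 : ∀ O ∈ T, ∀ t < 2 * p.r + 2, ∀ x, π.SameCycle (C O t) x →
      ∃ y ∈ A ∪ S, (π * ρ₀ * ρ).SameCycle x y := fun O a t ht x e => by
    obtain ⟨y, y1, y2⟩ := k4 _ (C1 O a).2.host.1
    exact ⟨y, y1, (k3 (k0 e)).symm.trans
      (((k2 O a).1 _ ((ρ5 O a _).2 ⟨t, ht, rfl⟩)).symm.trans y2)⟩
  have k6 : ∀ x, ∃ y ∈ A ∪ S, (π * ρ₀ * ρ).SameCycle x y := fun x => by
    by_cases c : x ∈ Uc ∪ A
    · rcases mem_union.1 c with c | c
      · obtain ⟨y, y1, y2⟩ := B.hex x c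
        rw [← B.sc c] at y2
        by_cases d : y ∈ S
        · exact ⟨y, mem_union_right _ d, k3 (k0 y2)⟩
        · rw [hS, mem_filter] at d
          push Not at d
          obtain ⟨O, a, t, ht, -, e⟩ := d y1
          exact k5 O a t ht x (e.trans y2.symm)
      · exact ⟨x, mem_union_left _ c, SameCycle.refl _ _⟩
    · have a : orb π x ∈ T := hT ▸ mem_image_of_mem _ (mem_compl.2 c)
      exact k5 _ a 0 (by omega) x (mem_orb.1 (C1 _ a).1).symm
  refine ⟨π * ρ₀ * ρ, fun x => ?_, fun x y => ?_⟩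
  · by_cases c : ∃ O ∈ T, ∃ t < 2 * p.r + 2, C O t = x
    · obtain ⟨O, a, t, ht, rfl⟩ := c
      rw [mul_apply, ρ4 O a t ht, mul_apply, r1 _ (nAS' O a _ (Nat.mod_lt _ (by omega)))]
      exact (C1 O a).2.arc t ht
    · have e : ρ x = x := by
        by_contra d
        exact c (ρ3 x d)
      rw [mul_apply, e, mul_apply]
      by_cases d : x ∈ A ∪ S
      · rw [B.eqτ]
        · exact r3 x d
        · rcases mem_union.1 (apply_mem_of_supp r1 d) with k | k
          · exact mem_union_right _ k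
          · exact mem_union_left _ (B.hsub (S1 k))
      · rw [r1 x d]
        by_cases k : x ∈ Uc ∪ A
        · rw [B.eqτ x k]
          rcases mem_union.1 k with k | k
          · exact B.arc x k
          · exact absurd (mem_union_left _ k) d
        · exact (B.out x k).1
  · obtain ⟨a, a1, a2⟩ := k6 x
    obtain ⟨b, b1, b2⟩ := k6 y
    exact (a2.trans (k3 (k1 a a1 b b1))).trans b2.symm

end Pool.Agent.MP_d6d719_co.H74
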