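import Pool.Agent.MP_d6d719_co.h74.Seg

set_option autoImplicit false
set_option linter.unusedSectionVars false

open Finset Equiv Equiv.Perm

namespace Pool.Agent.MP_d6d719_co.H74

variable {ι : Type*} [Fintype ι] [DecidableEq ι]
variable {p : Par} {P : Fin 8 → Finset ι} {HS : Finset (ι × ι)} {g D : ι → ι → Prop} {u₀ : ι}

theorem Pcs.ends {l : ℕ} {T : Finset ι} {Ls : Finset (List ι)} (h : Pcs D l T Ls) (hl : 2 ≤ l)
    (u₀ : ι) : ∃ hd sc la : List ι → ι, ∀ L ∈ Ls, (∃ t, L = hd L :: sc L :: t) ∧ la L ∈ L ∧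
      Seg D (hd L) L.tail (la L) := by
  refine ⟨fun L => L.getD 0 u₀, fun L => L.getD 1 u₀, fun L => L.getLast?.getD u₀, fun L hL => ?_⟩
  have b1 := h.lo L hL
  have b2 := h.chain L hL
  match L, b1, b2 with
  | [], b1, _ => simp at b1; omega
  | [_], b1, _ => simp at b1; omega
  | x :: y :: t, _, b2 =>
    have e : (x :: y :: t).getLast? = some ((x :: y :: t).getLast (by simp)) :=
      List.getLast?_eq_some_getLast _
    refine ⟨⟨t, rfl⟩, ?_, b2, ?_⟩
    · simp only [e, Option.getD_some]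
      exact List.getLast_mem _
    · simp only [e, Option.getD_some]
      exact e

theorem Pcs.eq_of_mem {l : ℕ} {T : Finset ι} {Ls : Finset (List ι)} (h : Pcs D l T Ls)
    {L L' : List ι} (hL : L ∈ Ls) (hL' : L' ∈ Ls) {x : ι} (hx : x ∈ L) (hx' : x ∈ L') : L = L' := by
  by_contra c
  exact h.disj L hL L' hL' c x hx hx'

theorem units {l r : ℕ} {T R : Finset ι} {Ls : Finset (List ι)} (h : Pcs D l T Ls)
    (hTR : Disjoint T R) {hd sc la : List ι → ι}
    (he : ∀ L ∈ Ls, (∃ t, L = hd L :: sc L :: t) ∧ la L ∈ L ∧ Seg D (hd L) L.tail (la L))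
    {v : List ι → ℕ → ι} (hv : ∀ L ∈ Ls, IsLink D r R false (la L) (hd L) (v L))
    (hi : ∀ L ∈ Ls, ∀ L' ∈ Ls, ∀ t < 2 * r, ∀ t' < 2 * r, v L (t + 1) = v L' (t' + 1) → L = L') :
    ∃ τ : Perm ι, (∀ x, (∀ L ∈ Ls, x ∉ L ++ inner r (v L)) → τ x = x) ∧
      ∀ L ∈ Ls, τ (hd L) = sc L ∧ ∀ x ∈ L ++ inner r (v L), D x (τ x) ∧
        (∀ y, τ.SameCycle x y ↔ y ∈ L ++ inner r (v L)) ∧ per τ x ≤ 2 * l + 2 * r := by
  have hd' := disjoint_left.1 hTR
  obtain ⟨τ, t1, t2⟩ := exists_fam Ls (fun L => L ++ inner r (v L)) (by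
    intro L hL L' hL' hne x hx hx'
    rcases List.mem_append.1 hx with a | a <;> rcases List.mem_append.1 hx' with b | b
    · exact h.disj L hL L' hL' hne x a b
    · exact hd' (h.sub L hL x a) ((hv L' hL').sub b)
    · exact hd' (h.sub L' hL' x b) ((hv L hL).sub a)
    · obtain ⟨t, ht, rfl⟩ := mem_inner.1 a
      obtain ⟨t', ht', e⟩ := mem_inner.1 b
      exact hne (hi L hL L' hL' t ht t' ht' e.symm))
  refine ⟨τ, t1, fun L hL => ?_⟩
  have hn : (L ++ inner r (v L)).Nodup := List.nodup_append.2 ⟨h.nodup L hL, (hv L hL).nodup,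
    fun x a y b e => hd' (h.sub L hL x a) (e ▸ (hv L hL).sub b)⟩
  obtain ⟨⟨t, e⟩, -, b2⟩ := he L hL
  have b3 := (b2.append (hv L hL).seg).1
  have hs : ∀ x ∈ L ++ inner r (v L), ∀ y, τ.SameCycle x y ↔ y ∈ L ++ inner r (v L) :=
    fun x hx y => sc_of_formPerm hn (t2 L hL) hx
  refine ⟨?_, fun x hx => ⟨?_, hs x hx, ?_⟩⟩
  · have : L ++ inner r (v L) = [] ++ hd L :: sc L :: (t ++ inner r (v L)) :=
      congrArg (· ++ inner r (v L)) e
    rw [t2 L hL _ (by rw [this]; simp)]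
    rw [this] at hn ⊢
    exact formPerm_mid hn
  · rw [t2 L hL _ hx]
    have e0 : L.tail = sc L :: t := congrArg List.tail e
    have e1 : L ++ inner r (v L) = hd L :: (L.tail ++ inner r (v L)) := by
      rw [e0]
      exact congrArg (· ++ inner r (v L)) e
    rw [e1] at hn hx ⊢
    exact rel_formPerm hn (by simpa using b3) hx
  · have b4 : orb τ x ⊆ (L ++ inner r (v L)).toFinset := fun y hy =>
      List.mem_toFinset.2 ((hs x hx y).1 (mem_orb.1 hy))
    have b5 := (card_le_card b4).trans (List.toFinset_card_le _)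
    have b6 := h.hi L hL
    simp only [List.length_append, inner, List.length_map, List.length_range] at b5
    unfold per
    omega

theorem absorb {k : ℕ} {T R R' : Finset ι} {Ls : Finset (List ι)} (hne : Ls.Nonempty)
    (d1 : Disjoint T R) (d2 : Disjoint T R') (d3 : Disjoint R R') {hd sc : List ι → ι}
    (hh : ∀ L ∈ Ls, hd L ∈ T) (hinj : ∀ L ∈ Ls, ∀ L' ∈ Ls, hd L = hd L' → L = L')
    {w : List ι → ℕ → ι} (hw : ∀ L ∈ Ls, IsLink D (2 * k + 1) R true (sc L) (hd L) (w L))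
    (hwi : ∀ L ∈ Ls, ∀ L' ∈ Ls, ∀ t < 2 * (2 * k + 1), ∀ t' < 2 * (2 * k + 1),
      w L (t + 1) = w L' (t' + 1) → L = L')
    {α β : List ι → ℕ → ι} (hα : ∀ L j, α L j = w L (if j = 0 then 2 * (2 * k + 1) else 2 * j))
    (hβ : ∀ L j, β L j = if j = 2 * k + 1 then w (Ls.toList.formPerm L) 1 else w L (2 * j + 1))
    {v : List ι × ℕ → ℕ → ι} (hv : ∀ L ∈ Ls, ∀ j < 2 * k + 1,
      IsLink D (2 * k + 1) R' false (α L j) (β L (j + 1)) (v (L, j)))
    (hvi : ∀ L ∈ Ls, ∀ j < 2 * k + 1, ∀ L' ∈ Ls, ∀ j' < 2 * k + 1, ∀ t < 2 * (2 * k + 1),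
      ∀ t' < 2 * (2 * k + 1), v (L, j) (t + 1) = v (L', j') (t' + 1) → (L, j) = (L', j'))
    {τ : Perm ι} (t1 : ∀ L ∈ Ls, τ (hd L) = sc L) {A : Finset ι} (t2 : ∀ x ∈ A, τ x = x)
    (hA : ∀ x, x ∈ A ↔ ∃ L ∈ Ls, x ∈ inner (2 * k + 1) (w L) ∨
      ∃ j < 2 * k + 1, x ∈ inner (2 * k + 1) (v (L, j))) {S : Finset ι} (hS : S ⊆ Ls.image hd) :
    ∃ ρ : Perm ι, (∀ x, x ∉ A ∪ S → ρ x = x) ∧ (∀ x ∈ A ∪ S, ∀ y ∈ A ∪ S, ρ.SameCycle x y) ∧
      ∀ x ∈ A ∪ S, D x (τ (ρ x)) := by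
  have hnx : ∀ L ∈ Ls, Ls.toList.formPerm L ∈ Ls := fun L hL =>
    mem_toList.1 (List.formPerm_apply_mem_of_mem (mem_toList.2 hL))
  have winj : ∀ L ∈ Ls, ∀ L' ∈ Ls, ∀ t < 2 * (2 * k + 1), ∀ t' < 2 * (2 * k + 1),
      w L (t + 1) = w L' (t' + 1) → L = L' ∧ t = t' := fun L hL L' hL' t ht t' ht' e => by
    obtain rfl := hwi L hL L' hL' t ht t' ht' e
    exact ⟨rfl, (hw L hL).inj t ht t' ht' e⟩
  have eα : ∀ L j, j < 2 * k + 1 → ∃ t < 2 * (2 * k + 1), α L j = w L (t + 1) ∧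
      (j = 0 ∧ t = 4 * k + 1 ∨ 0 < j ∧ t + 1 = 2 * j) := fun L j hj => by
    rw [hα]
    split_ifs with c
    · exact ⟨4 * k + 1, by omega, by congr 1; omega, Or.inl ⟨c, rfl⟩⟩
    · exact ⟨2 * j - 1, by omega, by congr 1; omega, Or.inr (by omega)⟩
  have eβ : ∀ L ∈ Ls, ∀ j, j < 2 * k + 1 → ∃ L' ∈ Ls, ∃ t < 2 * (2 * k + 1),
      β L (j + 1) = w L' (t + 1) ∧ (j = 2 * k ∧ t = 0 ∧ L' = Ls.toList.formPerm L ∨
        j < 2 * k ∧ t = 2 * j + 2 ∧ L' = L) := fun L hL j hj => by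
    rw [hβ]
    split_ifs with c
    · exact ⟨_, hnx L hL, 0, by omega, rfl, Or.inl ⟨by omega, rfl, rfl⟩⟩
    · exact ⟨L, hL, 2 * j + 2, by omega, rfl, Or.inr ⟨by omega, rfl, rfl⟩⟩
  obtain ⟨B, hB⟩ : ∃ B : List ι → ℕ → List ι, ∀ L j,
    B L j = α L j :: (inner (2 * k + 1) (v (L, j)) ++ [β L (j + 1)]) := ⟨_, fun _ _ => rfl⟩
  have mB : ∀ L j x, x ∈ B L j ↔ x = α L j ∨ x ∈ inner (2 * k + 1) (v (L, j)) ∨
      x = β L (j + 1) := fun L j x => by simp [hB]
  have αR : ∀ L ∈ Ls, ∀ j < 2 * k + 1, α L j ∈ R := fun L hL j hj => by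
    obtain ⟨t, a, b, -⟩ := eα L j hj
    exact b ▸ (hw L hL).mem t a
  have βR : ∀ L ∈ Ls, ∀ j < 2 * k + 1, β L (j + 1) ∈ R := fun L hL j hj => by
    obtain ⟨L', a, t, b, c, -⟩ := eβ L hL j hj
    exact c ▸ (hw L' a).mem t b
  have αβ : ∀ L ∈ Ls, ∀ j < 2 * k + 1, ∀ L' ∈ Ls, ∀ j' < 2 * k + 1, α L j ≠ β L' (j' + 1) := by
    intro L hL j hj L' hL' j' hj' e
    obtain ⟨t, a, b, c⟩ := eα L j hj
    obtain ⟨L'', a', t', b', c', d'⟩ := eβ L' hL' j' hj'
    have := (winj L hL L'' a' t a t' b' (by rw [← b, ← c', e])).2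
    omega
  have d3' := disjoint_left.1 d3
  have Binj : ∀ L ∈ Ls, ∀ j < 2 * k + 1, ∀ L' ∈ Ls, ∀ j' < 2 * k + 1, ∀ x ∈ B L j, x ∈ B L' j' →
      L = L' ∧ j = j' := by
    intro L hL j hj L' hL' j' hj' x hx hx'
    rcases (mB _ _ _).1 hx with a | a | a <;> rcases (mB _ _ _).1 hx' with b | b | b
    · obtain ⟨t, c1, c2, c3⟩ := eα L j hj
      obtain ⟨t', e1, e2, e3⟩ := eα L' j' hj'
      have := winj L hL L' hL' t c1 t' e1 (by rw [← c2, ← e2, ← a, ← b])
      exact ⟨this.1, by omega⟩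
    · exact absurd ((hv L' hL' j' hj').sub b) (d3' (a ▸ αR L hL j hj))
    · exact absurd (a.symm.trans b) (αβ L hL j hj L' hL' j' hj')
    · exact absurd ((hv L hL j hj).sub a) (d3' (b ▸ αR L' hL' j' hj'))
    · obtain ⟨t, ht, rfl⟩ := mem_inner.1 a
      obtain ⟨t', ht', e⟩ := mem_inner.1 b
      exact Prod.mk.inj (hvi L hL j hj L' hL' j' hj' t ht t' ht' e.symm)
    · exact absurd ((hv L hL j hj).sub a) (d3' (b ▸ βR L' hL' j' hj'))
    · exact absurd (b.symm.trans a) (αβ L' hL' j' hj' L hL j hj)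
    · exact absurd ((hv L' hL' j' hj').sub b) (d3' (a ▸ βR L hL j hj))
    · obtain ⟨M, c0, t, c1, c2, c3⟩ := eβ L hL j hj
      obtain ⟨M', e0, t', e1, e2, e3⟩ := eβ L' hL' j' hj'
      have := winj M c0 M' e0 t c1 t' e1 (by rw [← c2, ← e2, ← a, ← b])
      rcases c3 with c3 | c3 <;> rcases e3 with e3 | e3
      · exact ⟨Ls.toList.formPerm.injective (by rw [← c3.2.2, ← e3.2.2, this.1]), by omega⟩
      · omega
      · omega
      · exact ⟨by rw [← c3.2.2, ← e3.2.2, this.1], by omega⟩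
  have BT : ∀ L ∈ Ls, ∀ j < 2 * k + 1, ∀ x ∈ B L j, x ∉ T := fun L hL j hj x hx c => by
    rcases (mB _ _ _).1 hx with a | a | a
    · exact disjoint_left.1 d1 c (a ▸ αR L hL j hj)
    · exact disjoint_left.1 d2 c ((hv L hL j hj).sub a)
    · exact disjoint_left.1 d1 c (a ▸ βR L hL j hj)
  have BA : ∀ x, x ∈ A ↔ ∃ L ∈ Ls, ∃ j < 2 * k + 1, x ∈ B L j := by
    intro x
    rw [hA]
    constructor
    · rintro ⟨L, hL, a | ⟨j, hj, a⟩⟩
      · obtain ⟨t, ht, rfl⟩ := mem_inner.1 a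
        rcases Nat.even_or_odd' t with ⟨i, rfl | rfl⟩
        · rcases i with _ | i
          · have b1 : Ls.toList.formPerm⁻¹ L ∈ Ls := by
              by_contra c
              have := List.formPerm_apply_of_notMem (l := Ls.toList) fun a => c (mem_toList.1 a)
              simp only [coe_inv, apply_symm_apply] at this
              exact c (this ▸ hL)
            refine ⟨_, b1, 2 * k, by omega, (mB _ _ _).2 (Or.inr (Or.inr ?_))⟩
            rw [hβ, if_pos rfl]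
            simp
          · refine ⟨L, hL, i, by omega, (mB _ _ _).2 (Or.inr (Or.inr ?_))⟩
            rw [hβ, if_neg (by omega)]
        · by_cases c : i = 2 * k
          · refine ⟨L, hL, 0, by omega, (mB _ _ _).2 (Or.inl ?_)⟩
            rw [hα, if_pos rfl, c]
            rfl
          · refine ⟨L, hL, i + 1, by omega, (mB _ _ _).2 (Or.inl ?_)⟩
            rw [hα, if_neg (by omega)]
            rfl
      · exact ⟨L, hL, j, hj, (mB _ _ _).2 (Or.inr (Or.inl a))⟩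
    · rintro ⟨L, hL, j, hj, a⟩
      rcases (mB _ _ _).1 a with a | a | a
      · obtain ⟨t, c1, c2, -⟩ := eα L j hj
        exact ⟨L, hL, Or.inl (mem_inner.2 ⟨t, c1, by rw [a, c2]⟩)⟩
      · exact ⟨L, hL, Or.inr ⟨j, hj, a⟩⟩
      · obtain ⟨M, c0, t, c1, c2, -⟩ := eβ L hL j hj
        exact ⟨M, c0, Or.inl (mem_inner.2 ⟨t, c1, by rw [a, c2]⟩)⟩
  have Bn : ∀ L ∈ Ls, ∀ j < 2 * k + 1, (B L j).Nodup := fun L hL j hj => by
    rw [hB, List.nodup_cons, List.nodup_append]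
    refine ⟨fun a => ?_, (hv L hL j hj).nodup, List.nodup_singleton _, fun x a y b e => ?_⟩
    · rcases List.mem_append.1 a with a | a
      · exact d3' (αR L hL j hj) ((hv L hL j hj).sub a)
      · exact αβ L hL j hj L hL j hj (List.mem_singleton.1 a)
    · exact d3' (βR L hL j hj) (List.mem_singleton.1 b ▸ e ▸ (hv L hL j hj).sub a)
  have fixw : ∀ L ∈ Ls, ∀ t < 2 * (2 * k + 1), τ (w L (t + 1)) = w L (t + 1) := fun L hL t ht =>
    t2 _ ((hA _).2 ⟨L, hL, Or.inl (mem_inner.2 ⟨t, ht, rfl⟩)⟩)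
  obtain ⟨sg, hsg⟩ : ∃ sg : List ι → List ι, ∀ L,
    sg L = modes (hd L) (decide (hd L ∈ S)) k (B L) := ⟨_, fun _ => rfl⟩
  have seg : ∀ L ∈ Ls, Seg (fun c c' => D c (τ c')) (w L 1) (sg L) (w (Ls.toList.formPerm L) 1) := by
    intro L hL
    have fα : ∀ j < 2 * k + 1, τ (α L j) = α L j := fun j hj =>
      t2 _ ((BA _).2 ⟨L, hL, j, hj, (mB _ _ _).2 (Or.inl rfl)⟩)
    have := seg_modes (R := fun c c' => D c (τ c')) (z := hd L) (m := decide (hd L ∈ S)) (k := k)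
      (B := B L) (α := α L) (β := β L) (fun j hj x hx => by
        rw [hB]
        refine Seg.cons hx ((hv L hL j hj).seg.imp fun a b hb c => ?_)
        rwa [t2 b ((BA _).2 ⟨L, hL, j, hj, by rw [hB]; exact List.mem_cons_of_mem _ hb⟩)])
      (by
        have := (hw L hL).back (t := 0) (by omega)
        rw [(hw L hL).fst] at this
        rwa [hβ, if_neg (by omega), t1 L hL])
      (by
        have := (hw L hL).back le_rfl
        rw [(hw L hL).lst] at this
        rwa [fα 0 (by omega), hα, if_pos rfl])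
      (fun j h1 h2 => by
        rw [fα j (by omega), hα, hβ, if_neg (by omega), if_neg (by omega)]
        exact (hw L hL).back (by omega))
      (fun j h1 => by
        rw [fα _ (by omega), hα, hβ, if_neg (by omega), if_neg (by omega)]
        exact (hw L hL).forth (by omega))
      (by
        rw [fα 0 (by omega), hα, hβ, if_neg (by omega), if_pos rfl]
        exact (hw L hL).forth (by omega))
    rwa [hβ, hβ, if_neg (by omega), if_pos rfl, ← hsg] at this
  have msg : ∀ L x, x ∈ sg L ↔ (hd L ∈ S ∧ x = hd L) ∨ ∃ j < 2 * k + 1, x ∈ B L j := fun L x => by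
    rw [hsg, mem_modes, decide_eq_true_iff]
  obtain ⟨L₀, hL₀⟩ := hne
  obtain ⟨it, hit⟩ : ∃ it : ℕ → List ι, ∀ i, it i = (Ls.toList.formPerm ^ i) L₀ := ⟨_, fun _ => rfl⟩
  obtain ⟨i₀, hi₀, e₀⟩ := List.getElem_of_mem (Finset.mem_toList.2 hL₀)
  have itget : ∀ i, it i = Ls.toList[(i₀ + i) % Ls.toList.length]'(Nat.mod_lt _ (by omega)) :=
    fun i => by rw [hit, ← e₀, List.formPerm_pow_apply_getElem _ Ls.nodup_toList]
  have itm : ∀ i, it i ∈ Ls := fun i => by
    rw [itget]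
    exact Finset.mem_toList.1 (List.getElem_mem _)
  have itinj : ∀ i < Ls.toList.length, ∀ j < Ls.toList.length, it i = it j → i = j := by
    intro i hi j hj e
    rw [itget, itget, Ls.nodup_toList.getElem_inj_iff] at e
    have := Nat.ModEq.add_left_cancel' i₀ e
    rwa [Nat.ModEq, Nat.mod_eq_of_lt hi, Nat.mod_eq_of_lt hj] at this
  have itsurj : ∀ L ∈ Ls, ∃ i < Ls.toList.length, it i = L := by
    intro L hL
    have b1 : (range Ls.toList.length).image it ⊆ Ls := fun M hM => by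
      obtain ⟨i, -, rfl⟩ := mem_image.1 hM
      exact itm i
    have b2 := eq_of_subset_of_card_le b1 (by
      rw [card_image_of_injOn fun i hi j hj => itinj i (mem_range.1 hi) j (mem_range.1 hj),
        card_range, Finset.length_toList])
    rw [← b2] at hL
    simpa using hL
  have all := Seg.range (R := fun c c' => D c (τ c')) (m := Ls.toList.length)
    (f := fun i => sg (it i)) (x := fun i => w (it i) 1) fun i _ => by
      have := seg _ (itm i)
      rwa [hit (i + 1), pow_succ', mul_apply, ← hit]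
  have e1 : it Ls.toList.length = it 0 := by simp only [itget]; simp
  rw [e1] at all
  have hn : ((List.range Ls.toList.length).flatMap fun i => sg (it i)).Nodup := by
    refine nodup_flatMap_of List.nodup_range (fun i _ => ?_) fun i hi j hj x a b =>
      itinj i (List.mem_range.1 hi) j (List.mem_range.1 hj) ?_
    · rw [hsg]
      exact nodup_modes (fun j hj => ⟨Bn _ (itm i) j hj, fun c => BT _ (itm i) j hj _ c
        (hh _ (itm i))⟩) fun j hj j' hj' x a b => (Binj _ (itm i) j hj _ (itm i) j' hj' x a b).2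
    · rcases (msg _ _).1 a with a | ⟨s, a1, a2⟩ <;> rcases (msg _ _).1 b with b | ⟨s', b1, b2⟩
      · exact hinj _ (itm i) _ (itm j) (a.2.symm.trans b.2)
      · exact absurd (a.2 ▸ hh _ (itm i)) (BT _ (itm j) s' b1 x b2)
      · exact absurd (b.2 ▸ hh _ (itm j)) (BT _ (itm i) s a1 x a2)
      · exact (Binj _ (itm i) s a1 _ (itm j) s' b1 x a2 b2).1
  have hm : ∀ x, x ∈ ((List.range Ls.toList.length).flatMap fun i => sg (it i)) ↔ x ∈ A ∪ S := by
    intro x
    simp only [List.mem_flatMap, List.mem_range, msg, mem_union, BA]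
    constructor
    · rintro ⟨i, -, a | a⟩
      · exact Or.inr (a.2 ▸ a.1)
      · exact Or.inl ⟨_, itm i, a⟩
    · rintro (⟨L, hL, a⟩ | a)
      · obtain ⟨i, hi, rfl⟩ := itsurj L hL
        exact ⟨i, hi, Or.inr a⟩
      · obtain ⟨L, hL, rfl⟩ := mem_image.1 (hS a)
        obtain ⟨i, hi, rfl⟩ := itsurj L hL
        exact ⟨i, hi, Or.inl ⟨a, rfl⟩⟩
  exact ⟨_, fun x hx => List.formPerm_apply_of_notMem fun a => hx ((hm x).1 a),
    fun x hx y hy => hn.isCycleOn_formPerm.2 ((hm x).2 hx) ((hm y).2 hy),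
    fun x hx => all.formPerm hn x ((hm x).2 hx)⟩

end Pool.Agent.MP_d6d719_co.H74
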