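import Pool.Agent.MP_d6d719_co.h74.Frame

set_option autoImplicit false
set_option linter.unusedSectionVars false

open Finset Equiv Equiv.Perm

namespace Pool.Agent.MP_d6d719_co.H74

variable {ι : Type*} [Fintype ι] [DecidableEq ι]
variable {p : Par} {P : Fin 8 → Finset ι} {HS : Finset (ι × ι)} {g D : ι → ι → Prop} {u₀ : ι}

/-- Unit cycles `τ` on `Uc`, heads `Hd` and the absorbing set `A`. -/
structure Frame (p : Par) (P : Fin 8 → Finset ι) (D : ι → ι → Prop) (τ : Perm ι)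
    (Uc A Hd : Finset ι) : Prop where
  fix : ∀ x, x ∉ Uc → τ x = x
  arc : ∀ x ∈ Uc, D x (τ x)
  len : ∀ x ∈ Uc, per τ x ≤ 2 * p.l₁ + 2 * p.r
  sub : P 5 ∪ P 6 ∪ P 7 ⊆ Uc
  disj : Disjoint Uc A
  main : Disjoint (P 0) (Uc ∪ A)
  small : (((Uc ∪ A) \ (P 5 ∪ P 6 ∪ P 7)).card : ℝ) ≤ p.s
  col : ∀ i j : Fin 8, 5 ≤ i → 5 ≤ j → ∀ x ∈ P i, ∀ y ∈ P j, τ.SameCycle x y → i = j
  hsub : Hd ⊆ Uc
  hsmall : (Hd.card : ℝ) ≤ p.s
  hex : ∀ x ∈ Uc, ∃ h ∈ Hd, τ.SameCycle x h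
  huniq : ∀ h ∈ Hd, ∀ h' ∈ Hd, τ.SameCycle h h' → h = h'
  absorb : ∀ S ⊆ Hd, ∃ ρ : Perm ι, (∀ x, x ∉ A ∪ S → ρ x = x) ∧
    (∀ x ∈ A ∪ S, ∀ y ∈ A ∪ S, ρ.SameCycle x y) ∧ ∀ x ∈ A ∪ S, D x (τ (ρ x))

theorem Host.pcs (h : Host p P HS g D u₀) (ok : p.OK (Fintype.card ι)) (i : Fin 8) :
    ∃ Ls, Pcs D p.l₁ (P i) Ls := by
  obtain ⟨σ, a, b, -⟩ := H74.cover h ok (h.reg ok i) (Subset.refl _)
  exact pieces (by linarith [ok.l2]) _ _ rfl (fun x => apply_mem_of_supp a) b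

theorem card_biUnion_inner {κ : Type*} (T : Finset κ) (r : ℕ) (v : κ → ℕ → ι) :
    (T.biUnion fun k => (inner r (v k)).toFinset).card ≤ T.card * (2 * r) := by
  refine card_biUnion_le.trans ?_
  have := sum_le_sum (s := T) (g := fun _ => 2 * r) fun k _ =>
    (List.toFinset_card_le (inner r (v k))).trans (by simp [inner])
  rwa [sum_const, smul_eq_mul] at this

theorem exists_frame (h : Host p P HS g D u₀) (ok : p.OK (Fintype.card ι)) :
    ∃ τ Uc A Hd, Frame p P D τ Uc A Hd := by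
  obtain ⟨L5, h5⟩ := h.pcs ok 5
  obtain ⟨L6, h6⟩ := h.pcs ok 6
  obtain ⟨L7, h7⟩ := h.pcs ok 7
  have hU := (h5.union h6 (h.disj 5 6 (by decide))).union h7
    (disjoint_union_left.2 ⟨h.disj 5 7 (by decide), h.disj 6 7 (by decide)⟩)
  have hcol : ∀ L ∈ L5 ∪ L6 ∪ L7, ∃ i : Fin 8, ∀ x ∈ L, x ∈ P i := fun L hL => by
    rcases mem_union.1 hL with a | a
    · rcases mem_union.1 a with a | a
      · exact ⟨5, h5.sub L a⟩
      · exact ⟨6, h6.sub L a⟩
    · exact ⟨7, h7.sub L a⟩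
  generalize L5 ∪ L6 ∪ L7 = Ls at hU hcol
  obtain ⟨T, hT⟩ : ∃ T, T = P 5 ∪ P 6 ∪ P 7 := ⟨_, rfl⟩
  rw [← hT] at hU
  have dT : ∀ i : Fin 8, i < 5 → Disjoint T (P i) := fun i hi => by
    rw [hT, disjoint_union_left, disjoint_union_left]
    exact ⟨⟨h.disj _ _ (by omega), h.disj _ _ (by omega)⟩, h.disj _ _ (by omega)⟩
  have d1 : Disjoint T (P 1 ∪ P 2) := disjoint_union_right.2 ⟨dT 1 (by decide), dT 2 (by decide)⟩
  have d2 : Disjoint T (P 3 ∪ P 4) := disjoint_union_right.2 ⟨dT 3 (by decide), dT 4 (by decide)⟩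
  have d3 : Disjoint (P 1 ∪ P 2) (P 3 ∪ P 4) := by
    simp only [disjoint_union_left, disjoint_union_right]
    exact ⟨⟨h.disj _ _ (by decide), h.disj _ _ (by decide)⟩, h.disj _ _ (by decide),
      h.disj _ _ (by decide)⟩
  obtain ⟨hd, sc, la, he⟩ := hU.ends ok.l2 u₀
  have hdm : ∀ L ∈ Ls, hd L ∈ L ∧ sc L ∈ L := fun L hL => by
    obtain ⟨t, e⟩ := (he L hL).1
    have : ∀ x, x ∈ L ↔ x ∈ hd L :: sc L :: t := fun x => by rw [← e]
    simp [this]
  have l0 : (0 : ℝ) < p.l₁ := by exact_mod_cast (by linarith [ok.l2] : 0 < p.l₁)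
  have r1 : (1 : ℝ) ≤ p.r := by exact_mod_cast (by linarith [ok.r3] : 1 ≤ p.r)
  have hc : 16 * p.r * (p.r + 1) * (Ls.card : ℝ) + 1 ≤ p.s := by
    have b1 : (Ls.card : ℝ) * p.l₁ ≤ Fintype.card ι := by
      exact_mod_cast hU.card_le.trans (card_le_univ T)
    have b2 := mul_le_mul_of_nonneg_left b1 (show (0 : ℝ) ≤ 16 * p.r * (p.r + 1) by positivity)
    refine le_of_mul_le_mul_right ?_ l0
    linarith [ok.link]
  have c0 : (0 : ℝ) ≤ Ls.card := Nat.cast_nonneg _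
  have c1 : (0 : ℝ) ≤ p.r * Ls.card := by positivity
  have c2 : (0 : ℝ) ≤ p.r * p.r * Ls.card := by positivity
  obtain ⟨v₁, v1, v2⟩ := links h ok (i := 1) (j := 2) (by decide) (Ls ×ˢ (univ : Finset Bool))
    (fun k => if k.2 then sc k.1 else la k.1) (fun k => hd k.1) (fun k => k.2)
    (by
      rintro ⟨L, z⟩ hk ⟨L', z'⟩ hk' e rfl
      have a := (mem_product.1 hk).1
      have b := (mem_product.1 hk').1
      cases z
      · exact congrArg (·, false) (hU.eq_of_mem a b (he L a).2.1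
          ((show la L = la L' from e) ▸ (he L' b).2.1))
      · exact congrArg (·, true) (hU.eq_of_mem a b (hdm L a).2
          ((show sc L = sc L' from e) ▸ (hdm L' b).2)))
    (by
      rintro ⟨L, z⟩ hk ⟨L', z'⟩ hk' e rfl
      have a := (mem_product.1 hk).1
      have b := (mem_product.1 hk').1
      exact congrArg (·, z) (hU.eq_of_mem a b (hdm L a).1
        ((show hd L = hd L' from e) ▸ (hdm L' b).1)))
    (by
      rw [card_product]
      simp only [card_univ, Fintype.card_bool]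
      push_cast
      nlinarith)
  have m1 : ∀ L ∈ Ls, ∀ z, (L, z) ∈ Ls ×ˢ (univ : Finset Bool) := fun L hL z =>
    mem_product.2 ⟨hL, mem_univ _⟩
  have hw : ∀ L ∈ Ls, IsLink D p.r (P 1 ∪ P 2) true (sc L) (hd L) (v₁ (L, true)) :=
    fun L hL => v1 _ (m1 L hL true)
  have hv : ∀ L ∈ Ls, IsLink D p.r (P 1 ∪ P 2) false (la L) (hd L) (v₁ (L, false)) :=
    fun L hL => v1 _ (m1 L hL false)
  obtain ⟨τ, t1, t2⟩ := units hU d1 he hv fun L hL L' hL' t ht t' ht' e =>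
    (Prod.mk.inj (v2 _ (m1 L hL false) _ (m1 L' hL' false) t ht t' ht' e)).1
  obtain ⟨k, hk⟩ := ok.odd
  have winj : ∀ L ∈ Ls, ∀ L' ∈ Ls, ∀ t t', 0 < t → t ≤ 2 * p.r → 0 < t' → t' ≤ 2 * p.r →
      v₁ (L, true) t = v₁ (L', true) t' → L = L' ∧ t = t' := by
    intro L hL L' hL' t t' a1 a2 a3 a4 e
    obtain ⟨t, rfl⟩ : ∃ s, t = s + 1 := ⟨t - 1, by omega⟩
    obtain ⟨t', rfl⟩ : ∃ s, t' = s + 1 := ⟨t' - 1, by omega⟩
    obtain rfl := (Prod.mk.inj (v2 _ (m1 L hL true) _ (m1 L' hL' true) t a2 t' a4 e)).1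
    exact ⟨rfl, congrArg (· + 1) ((hw L hL).inj t a2 t' a4 e)⟩
  have hnx : ∀ L ∈ Ls, Ls.toList.formPerm L ∈ Ls := fun L hL =>
    Finset.mem_toList.1 (List.formPerm_apply_mem_of_mem (Finset.mem_toList.2 hL))
  obtain ⟨α, hα⟩ : ∃ α : List ι → ℕ → ι, ∀ L j,
    α L j = v₁ (L, true) (if j = 0 then 2 * (2 * k + 1) else 2 * j) := ⟨_, fun _ _ => rfl⟩
  obtain ⟨β, hβ⟩ : ∃ β : List ι → ℕ → ι, ∀ L j, β L j = if j = 2 * k + 1 then
    v₁ (Ls.toList.formPerm L, true) 1 else v₁ (L, true) (2 * j + 1) := ⟨_, fun _ _ => rfl⟩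
  obtain ⟨v₂, w1, w2⟩ := links h ok (i := 3) (j := 4) (by decide) (Ls ×ˢ range p.r)
    (fun k => α k.1 k.2) (fun k => β k.1 (k.2 + 1)) (fun _ => false)
    (by
      rintro ⟨L, j⟩ hk ⟨L', j'⟩ hk' e -
      obtain ⟨a, a'⟩ := mem_product.1 hk
      obtain ⟨b, b'⟩ := mem_product.1 hk'
      simp only [mem_range, hα] at a' b' e
      have := winj L a L' b _ _ (by split_ifs <;> omega) (by split_ifs <;> omega)
        (by split_ifs <;> omega) (by split_ifs <;> omega) e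
      refine Prod.ext this.1 ?_
      have := this.2
      split_ifs at this <;> simp only <;> omega)
    (by
      rintro ⟨L, j⟩ hk ⟨L', j'⟩ hk' e -
      obtain ⟨a, a'⟩ := mem_product.1 hk
      obtain ⟨b, b'⟩ := mem_product.1 hk'
      simp only [mem_range, hβ] at a' b' e
      split_ifs at e with c c' c'
      · have := winj _ (hnx L a) _ (hnx L' b) _ _ (by omega) (by omega) (by omega) (by omega) e
        exact Prod.ext (Ls.toList.formPerm.injective this.1) (by simp only; omega)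
      · have := winj _ (hnx L a) _ b _ _ (by omega) (by omega) (by omega) (by omega) e
        omega
      · have := winj _ a _ (hnx L' b) _ _ (by omega) (by omega) (by omega) (by omega) e
        omega
      · have := winj _ a _ b _ _ (by omega) (by omega) (by omega) (by omega) e
        exact Prod.ext this.1 (by simp only; omega))
    (by
      rw [card_product, card_range]
      push_cast
      nlinarith)
  have m2 : ∀ L ∈ Ls, ∀ j < 2 * k + 1, (L, j) ∈ Ls ×ˢ range p.r := fun L hL j hj =>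
    mem_product.2 ⟨hL, mem_range.2 (hk ▸ hj)⟩
  obtain ⟨A, hA⟩ : ∃ A : Finset ι, A = (Ls.biUnion fun L => (inner p.r (v₁ (L, true))).toFinset) ∪
    (Ls ×ˢ range p.r).biUnion fun k => (inner p.r (v₂ k)).toFinset := ⟨_, rfl⟩
  obtain ⟨C, hC⟩ : ∃ C : Finset ι,
    C = Ls.biUnion fun L => (inner p.r (v₁ (L, false))).toFinset := ⟨_, rfl⟩
  have mA : ∀ x, x ∈ A ↔ ∃ L ∈ Ls, x ∈ inner p.r (v₁ (L, true)) ∨
      ∃ j < p.r, x ∈ inner p.r (v₂ (L, j)) := fun x => by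
    simp only [hA, mem_union, mem_biUnion, List.mem_toFinset, mem_product, mem_range, Prod.exists]
    constructor
    · rintro (⟨L, a, b⟩ | ⟨L, j, ⟨a, b⟩, c⟩)
      · exact ⟨L, a, Or.inl b⟩
      · exact ⟨L, a, Or.inr ⟨j, b, c⟩⟩
    · rintro ⟨L, a, b | ⟨j, b, c⟩⟩
      · exact Or.inl ⟨L, a, b⟩
      · exact Or.inr ⟨L, j, ⟨a, b⟩, c⟩
  have mU : ∀ x, x ∈ T ∪ C ↔ ∃ L ∈ Ls, x ∈ L ++ inner p.r (v₁ (L, false)) := fun x => by
    simp only [hC, mem_union, mem_biUnion, List.mem_toFinset, List.mem_append]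
    constructor
    · rintro (a | ⟨L, a, b⟩)
      · obtain ⟨L, b, c⟩ := hU.cover x a
        exact ⟨L, b, Or.inl c⟩
      · exact ⟨L, a, Or.inr b⟩
    · rintro ⟨L, a, b | b⟩
      · exact Or.inl (hU.sub L a x b)
      · exact Or.inr ⟨L, a, b⟩
  have sA : ∀ x ∈ A, x ∈ P 1 ∪ P 2 ∨ x ∈ P 3 ∪ P 4 := fun x hx => by
    obtain ⟨L, a, b | ⟨j, b, c⟩⟩ := (mA x).1 hx
    · exact Or.inl ((hw L a).sub b)
    · exact Or.inr ((w1 _ (m2 L a j (hk ▸ b))).sub c)
  have sC : ∀ x ∈ C, x ∈ P 1 ∪ P 2 := fun x hx => by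
    rw [hC] at hx
    obtain ⟨L, a, b⟩ := mem_biUnion.1 hx
    exact (hv L a).sub (List.mem_toFinset.1 b)
  have dA : Disjoint (T ∪ C) A := by
    refine disjoint_left.2 fun x hx hx' => ?_
    rcases mem_union.1 hx with a | a
    · exact (sA x hx').elim (disjoint_left.1 d1 a) (disjoint_left.1 d2 a)
    · obtain ⟨L, b, c | ⟨j, c, d⟩⟩ := (mA x).1 hx'
      · rw [hC] at a
        obtain ⟨L', a1, a2⟩ := mem_biUnion.1 a
        obtain ⟨t, ht, rfl⟩ := mem_inner.1 c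
        obtain ⟨t', ht', e⟩ := mem_inner.1 (List.mem_toFinset.1 a2)
        have := v2 _ (m1 L' a1 false) _ (m1 L b true) t' ht' t ht e
        simp at this
      · exact disjoint_left.1 d3 (sC x a) ((w1 _ (m2 L b j (hk ▸ c))).sub d)
  have fixτ : ∀ x, x ∉ T ∪ C → τ x = x := fun x hx => t1 x fun L hL a => hx ((mU x).2 ⟨L, hL, a⟩)
  have inL : ∀ L ∈ Ls, ∀ x ∈ T, x ∈ L ++ inner p.r (v₁ (L, false)) → x ∈ L := fun L hL x hx a =>
    (List.mem_append.1 a).resolve_right fun b => disjoint_left.1 d1 hx ((hv L hL).sub b)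
  have hPT : ∀ i : Fin 8, 5 ≤ i → P i ⊆ T := fun i hi => by
    rw [hT]
    have : i = 5 ∨ i = 6 ∨ i = 7 := by omega
    rcases this with rfl | rfl | rfl
    · exact subset_union_left.trans subset_union_left
    · exact subset_union_right.trans subset_union_left
    · exact subset_union_right
  refine ⟨τ, T ∪ C, A, Ls.image hd, fixτ, fun x hx => ?_, fun x hx => ?_,
    hT ▸ subset_union_left, dA, ?_, ?_, fun i j hi hj x hx y hy e => ?_, fun x hx => ?_, ?_,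
    fun x hx => ?_, fun x hx y hy e => ?_, fun S hS => ?_⟩
  · obtain ⟨L, a, b⟩ := (mU x).1 hx
    exact ((t2 L a).2 x b).1
  · obtain ⟨L, a, b⟩ := (mU x).1 hx
    exact ((t2 L a).2 x b).2.2
  · refine disjoint_left.2 fun x hx hx' => ?_
    have k1 : x ∉ P 1 ∪ P 2 := disjoint_left.1 (disjoint_union_right.2
      ⟨h.disj 0 1 (by decide), h.disj 0 2 (by decide)⟩) hx
    have k2 : x ∉ P 3 ∪ P 4 := disjoint_left.1 (disjoint_union_right.2
      ⟨h.disj 0 3 (by decide), h.disj 0 4 (by decide)⟩) hx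
    rcases mem_union.1 hx' with a | a
    · rcases mem_union.1 a with a | a
      · exact disjoint_left.1 (dT 0 (by decide)) a hx
      · exact k1 (sC x a)
    · exact (sA x a).elim k1 k2
  · have b1 : (T ∪ C ∪ A) \ (P 5 ∪ P 6 ∪ P 7) ⊆ C ∪ A := fun x hx => by
      rw [← hT] at hx
      simp only [mem_sdiff, mem_union] at hx ⊢
      tauto
    have b2 := card_biUnion_inner Ls p.r fun L => v₁ (L, false)
    have b3 := card_biUnion_inner Ls p.r fun L => v₁ (L, true)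
    have b4 := card_biUnion_inner (Ls ×ˢ range p.r) p.r v₂
    rw [card_product, card_range] at b4
    rw [← hC] at b2
    have b5 : A.card ≤ Ls.card * (2 * p.r) + Ls.card * p.r * (2 * p.r) :=
      hA ▸ (card_union_le _ _).trans (add_le_add b3 b4)
    have b6 := Nat.cast_le (α := ℝ).2 (((card_le_card b1).trans (card_union_le _ _)).trans
      (add_le_add b2 b5))
    push_cast at b6
    nlinarith
  · obtain ⟨L, a, b⟩ := hU.cover x (hPT i hi hx)
    have c := inL L a y (hPT j hj hy) ((((t2 L a).2 x (List.mem_append_left _ b)).2.1 y).1 e)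
    obtain ⟨i', hi'⟩ := hcol L a
    have k : ∀ j z, z ∈ P j → z ∈ L → j = i' := fun j z z1 z2 => by
      by_contra c
      exact disjoint_left.1 (h.disj j i' c) z1 (hi' z z2)
    exact (k i x hx b).trans (k j y hy c).symm
  · obtain ⟨L, a, rfl⟩ := mem_image.1 hx
    exact mem_union_left _ (hU.sub L a _ (hdm L a).1)
  · have : ((Ls.image hd).card : ℝ) ≤ Ls.card := by exact_mod_cast card_image_le
    nlinarith
  · obtain ⟨L, a, b⟩ := (mU x).1 hx
    exact ⟨_, mem_image_of_mem _ a, (((t2 L a).2 x b).2.1 _).2 (List.mem_append_left _ (hdm L a).1)⟩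
  · obtain ⟨L, a, rfl⟩ := mem_image.1 hx
    obtain ⟨L', b, rfl⟩ := mem_image.1 hy
    have c := inL L a _ (hU.sub L' b _ (hdm L' b).1)
      ((((t2 L a).2 _ (List.mem_append_left _ (hdm L a).1)).2.1 _).1 e)
    rw [hU.eq_of_mem a b c (hdm L' b).1]
  · have hne : Ls.Nonempty := by
      have : (0 : ℝ) < (P 7).card := by linarith [h.lo 7, ok.big, ok.ε0, ok.s1]
      obtain ⟨x, hx⟩ := card_pos.1 (Nat.cast_pos.1 this)
      obtain ⟨L, a, -⟩ := hU.cover x (hPT 7 (by decide) hx)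
      exact ⟨L, a⟩
    rw [hk] at hw w1 w2 v2 mA m2
    exact absorb hne d1 d2 d3 (fun L a => hU.sub L a _ (hdm L a).1)
      (fun L a L' b e => hU.eq_of_mem a b (hdm L a).1 (e ▸ (hdm L' b).1)) hw
      (fun L hL L' hL' t ht t' ht' e =>
        (Prod.mk.inj (v2 _ (m1 L hL true) _ (m1 L' hL' true) t ht t' ht' e)).1) hα hβ
      (fun L hL j hj => w1 _ (m2 L hL j hj))
      (fun L hL j hj L' hL' j' hj' => w2 _ (m2 L hL j hj) _ (m2 L' hL' j' hj'))
      (fun L hL => (t2 L hL).1) (fun x hx => fixτ x fun a => disjoint_left.1 dA a hx) mA hS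

end Pool.Agent.MP_d6d719_co.H74
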