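import Pool.Agent.MP_d6d719_co.h74.Defs

set_option autoImplicit false

open Finset

namespace Pool.Agent.MP_d6d719_co.H74

theorem ec_le_card_of {α β : Type*} {R : α → β → Prop} {X : Finset α} {Y : Finset β}
    {S : Finset (α × β)} (h : ∀ x ∈ X, ∀ y ∈ Y, R x y → (x, y) ∈ S) : ec R X Y ≤ S.card := by
  classical
  rw [ec_eq_card]
  refine Nat.cast_le.2 (card_le_card fun e he => ?_)
  obtain ⟨a, b⟩ := mem_filter.1 he
  exact h _ (mem_product.1 a).1 _ (mem_product.1 a).2 b

theorem card_le_ec_of {α β : Type*} {R : α → β → Prop} {X : Finset α} {Y : Finset β}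
    {S : Finset (α × β)} (h : ∀ e ∈ S, e.1 ∈ X ∧ e.2 ∈ Y ∧ R e.1 e.2) : (S.card : ℝ) ≤ ec R X Y := by
  classical
  rw [ec_eq_card]
  refine Nat.cast_le.2 (card_le_card fun e he => ?_)
  obtain ⟨a, b, c⟩ := h e he
  exact mem_filter.2 ⟨mem_product.2 ⟨a, b⟩, c⟩

variable {ι : Type*} [DecidableEq ι]

theorem closure [Fintype ι] {g₁ g₂ : ι → ι → Prop} {a D s z : ℝ} (h1 : Small g₁ a D s)
    (h2 : Small g₂ a D s) (hD : 4 ≤ D) (Z : Finset ι) (hZ : (Z.card : ℝ) ≤ z)
    (hs : 2 * z + 1 ≤ s) : ∃ E : Finset ι, (E.card : ℝ) ≤ 4 * z / D ∧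
      ∀ x, x ∉ E → deg g₁ x (Z ∪ E) < a ∧ deg g₂ x (Z ∪ E) < a := by
  classical
  have hz : 0 ≤ z := le_trans (Nat.cast_nonneg _) hZ
  obtain ⟨t, ht1, ht2⟩ : ∃ t : ℕ, (t : ℝ) ≤ 4 * z / D ∧ 4 * z / D < t + 1 :=
    ⟨⌊4 * z / D⌋₊, Nat.floor_le (by positivity), Nat.lt_floor_add_one _⟩
  have ht3 : 4 * z / D ≤ z := by rw [div_le_iff₀ (by linarith)]; nlinarith
  rw [div_lt_iff₀ (by linarith)] at ht2
  obtain ⟨E, hE, hmax⟩ := exists_max_image ((univ : Finset (Finset ι)).filter fun E =>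
    E.card ≤ t + 1 ∧ ∀ x ∈ E, a ≤ deg g₁ x (Z ∪ E) ∨ a ≤ deg g₂ x (Z ∪ E)) card ⟨∅, by simp⟩
  obtain ⟨a1, a2⟩ := (mem_filter.1 hE).2
  have hlt : E.card ≤ t := by
    by_contra hc
    have e : (E.card : ℝ) = t + 1 := by exact_mod_cast (by omega : E.card = t + 1)
    have hY : ((Z ∪ E).card : ℝ) ≤ z + (t + 1) := by
      have := Nat.cast_le (α := ℝ).2 (card_union_le Z E)
      push_cast at this
      linarith
    have key : ∀ g : ι → ι → Prop, Small g a D s →
        2 * ((E.filter fun x => a ≤ deg g x (Z ∪ E)).card : ℝ) < t + 1 := by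
      intro g hg
      by_contra hc
      push Not at hc
      have b0 : (0 : ℝ) ≤ t := Nat.cast_nonneg _
      have b1 : (E.filter fun x => a ≤ deg g x (Z ∪ E)).Nonempty := by
        rw [← card_pos, ← Nat.cast_pos (α := ℝ)]
        linarith
      have b2 := hg _ (Z ∪ E) b1 (by linarith) (by nlinarith)
      have b3 := le_ec_of_deg (R := g) (X := E.filter fun x => a ≤ deg g x (Z ∪ E)) (Y := Z ∪ E)
        fun x hx => (mem_filter.1 hx).2
      linarith
    have b4 : E ⊆ (E.filter fun x => a ≤ deg g₁ x (Z ∪ E)) ∪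
        E.filter fun x => a ≤ deg g₂ x (Z ∪ E) := fun x hx => by
      simpa [hx] using a2 x hx
    have b5 := Nat.cast_le (α := ℝ).2 ((card_le_card b4).trans (card_union_le _ _))
    push_cast at b5
    linarith [key _ h1, key _ h2]
  refine ⟨E, le_trans (by exact_mod_cast hlt) ht1, fun x hx => ?_⟩
  by_contra hc
  have hsub : Z ∪ E ⊆ Z ∪ insert x E := union_subset_union (Subset.refl _) (subset_insert _ _)
  have := hmax (insert x E) (mem_filter.2 ⟨mem_univ _, by rw [card_insert_of_notMem hx]; omega,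
    fun y hy => by
      have : a ≤ deg g₁ y (Z ∪ E) ∨ a ≤ deg g₂ y (Z ∪ E) := by
        rcases mem_insert.1 hy with rfl | hy
        · rw [not_and_or, not_lt, not_lt] at hc
          exact hc
        · exact a2 y hy
      exact this.imp (fun h => h.trans (deg_mono hsub)) fun h => h.trans (deg_mono hsub)⟩)
  rw [card_insert_of_notMem hx] at this
  omega

/-- Growth of level sets inside `I`. -/
def Grow (R : ι → ι → Prop) (I : Finset ι) (a D s ν t : ℝ) : Prop :=
  ∀ S ⊆ I, ∀ L ⊆ I, S.Nonempty → (∀ x ∈ S, deg R x (I \ L) ≤ a) →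
    min (D * S.card) s ≤ L.card ∧ (s ≤ S.card → min (S.card + ν) t ≤ L.card)

/-- Robust expansion between subsets of `I` and subsets of `J`. -/
def Star (R : ι → ι → Prop) (I J : Finset ι) (a ε m : ℝ) : Prop :=
  ∀ X ⊆ I, ∀ Y ⊆ J, ec R X Y ≤ a → (X.card : ℝ) ≤ ε ∨ (Y.card : ℝ) ≤ ε ∨ (X.card : ℝ) + Y.card ≤ m

/-- Upper bound for the edge distribution. -/
def Upper (R : ι → ι → Prop) (u e : ℝ) : Prop :=
  ∀ X Y : Finset ι, ec R X Y ≤ u * X.card * Y.card + e

theorem grow_of {R g : ι → ι → Prop} {I : Finset ι} {a a' D s ν c u e a₀ ε m w : ℝ}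
    (hR : ∀ x y, R x y → g x y) (hS : Small g a' D s) (hdeg : ∀ x ∈ I, c ≤ deg R x I)
    (h1 : a + a' ≤ c) (hU : Upper R u e) (hu : 0 < u) (h2 : 2 * e ≤ (c - a) * s)
    (h3 : 2 * u * w ≤ c - a) (hT : Star R I I a₀ ε m) (h4 : a * I.card ≤ a₀)
    (h5 : ε + ν ≤ w) (h6 : m + ν ≤ I.card) (ha : 0 ≤ a) (ha' : 0 ≤ a') :
    Grow R I a D s ν (I.card - ε) := by
  intro S hSI L hLI hne h
  have hpos : (0 : ℝ) < S.card := by exact_mod_cast card_pos.2 hne
  have k1 : ∀ x ∈ S, c - a ≤ deg R x L := fun x hx => by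
    have := deg_le_add (R := R) (x := x) (Y := I) (Y₁ := L) (Y₂ := I \ L) fun y hy _ => by
      by_cases c : y ∈ L
      · exact Or.inl c
      · exact Or.inr (mem_sdiff.2 ⟨hy, c⟩)
    linarith [hdeg x (hSI hx), h x hx]
  have k2 := le_ec_of_deg k1
  refine ⟨?_, fun hs => ?_⟩
  · by_contra hc
    rw [not_le, lt_min_iff] at hc
    have b1 := hS S L hne hc.2.le hc.1.le
    have b2 := ec_mono_rel (X := S) (Y := L) hR
    nlinarith
  · have b1 := hU S L
    have b2 : w ≤ L.card := by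
      by_contra hc
      push Not at hc
      have b3 : u * S.card * L.card < u * S.card * w := mul_lt_mul_of_pos_left hc (by positivity)
      have b4 : (c - a) * s ≤ (c - a) * S.card := mul_le_mul_of_nonneg_left hs (by linarith)
      have b5 := mul_le_mul_of_nonneg_right h3 hpos.le
      nlinarith
    rcases le_or_gt (S.card + ν) w with b3 | b3
    · exact (min_le_left _ _).trans (b3.trans b2)
    have b4 : ((I \ L).card : ℝ) = I.card - L.card := by
      rw [card_sdiff_of_subset hLI, Nat.cast_sub (card_le_card hLI)]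
    have b5 : (S.card : ℝ) ≤ I.card := by exact_mod_cast card_le_card hSI
    rcases hT S hSI (I \ L) sdiff_subset ((ec_le_of_deg h).trans
      ((mul_le_mul_of_nonneg_left b5 ha).trans h4)) with b6 | b6 | b6
    · linarith
    · exact (min_le_right _ _).trans (by linarith)
    · exact (min_le_left _ _).trans (by linarith)

/-- A branch of length `k` whose pivots avoid the windows of their ancestors. -/
structure Br (R : ℕ → ι → ι → Prop) (I W0 : Finset ι) (W : ι → Finset ι) (k : ℕ) (b : ℕ → ι) :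
    Prop where
  rel : ∀ i < k, R i (b i) (b (i + 1))
  mem : ∀ i < k, b (i + 1) ∈ I
  out : ∀ i < k, b (i + 1) ∉ W0
  far : ∀ i j, i < j → j < k → b (j + 1) ∉ W (b (i + 1))

/-- The pivots of a branch. -/
def piv (k : ℕ) (b : ℕ → ι) : Finset ι := (range k).image (fun i => b (i + 1))

theorem mem_piv {k : ℕ} {b : ℕ → ι} {x : ι} : x ∈ piv k b ↔ ∃ i < k, b (i + 1) = x := by
  simp [piv]

theorem card_piv_le (k : ℕ) (b : ℕ → ι) : (piv k b).card ≤ k :=
  card_image_le.trans (card_range k).le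

theorem reach {R g : ℕ → ι → ι → Prop} {I W0 : Finset ι} {W : ι → Finset ι} {s₀ : ι}
    {a D s ν t : ℝ} {r m₁ m₂ : ℕ} (hR : ∀ k x y, R k x y → g k x y)
    (hown : ∀ k, ∀ x ∈ I, deg (g k) x (W x) ≤ a)
    (hlist : ∀ k, ∀ C ⊆ I, C.card ≤ r → ∀ B ⊆ I,
      (∀ x ∈ B, a < deg (g k) x (W0 ∪ C.biUnion W)) → (B.card : ℝ) ≤ a)
    (hroot : a < deg (R 0) s₀ (I \ W0)) (hG : ∀ k, Grow (R k) I (3 * a) D s ν t)
    (hD : 1 ≤ D) (hs : 1 ≤ s) (hν : 0 ≤ ν) (h1 : s ≤ D ^ m₁) (h2 : t ≤ s + m₂ * ν)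
    (h3 : 1 + m₁ + m₂ ≤ r) :
    ∃ L ⊆ I, t ≤ L.card ∧ ∀ x ∈ L, ∃ b, b 0 = s₀ ∧ Br R I W0 W r b ∧ b r = x := by
  classical
  obtain ⟨L, hL⟩ : ∃ L : ℕ → Finset ι, ∀ k x, x ∈ L k ↔ x ∈ I ∧ ∃ b, b 0 = s₀ ∧ Br R I W0 W k b ∧
      b k = x ∧ deg (g k) x (W0 ∪ (piv k b).biUnion W) ≤ 2 * a :=
    ⟨fun k => I.filter fun x => ∃ b, b 0 = s₀ ∧ Br R I W0 W k b ∧
      b k = x ∧ deg (g k) x (W0 ∪ (piv k b).biUnion W) ≤ 2 * a, fun k x => mem_filter⟩
  have hLI : ∀ k, L k ⊆ I := fun k x hx => ((hL k x).1 hx).1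
  have child : ∀ k b, k ≤ r → b 0 = s₀ → Br R I W0 W k b →
      deg (R k) (b k) ((I \ (W0 ∪ (piv k b).biUnion W)) \ L (k + 1)) ≤ a := by
    intro k b hk hb0 hb
    refine le_trans (deg_le_of_subset (S := I.filter fun x =>
      a < deg (g (k + 1)) x (W0 ∪ (piv k b).biUnion W)) fun y hy hr => ?_)
      (hlist (k + 1) (piv k b) (fun x hx => ?_) ((card_piv_le k b).trans hk) _ (filter_subset _ _)
        fun x hx => (mem_filter.1 hx).2)
    · obtain ⟨c1, c2⟩ := mem_sdiff.1 hy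
      obtain ⟨c3, c4⟩ := mem_sdiff.1 c1
      refine mem_filter.2 ⟨c3, ?_⟩
      by_contra hc
      rw [mem_union, not_or] at c4
      have e1 : ∀ i, i ≤ k → Function.update b (k + 1) y i = b i := fun i hi =>
        Function.update_of_ne (by omega) _ _
      have e2 : Function.update b (k + 1) y (k + 1) = y := Function.update_self _ _ _
      refine c2 ((hL _ _).2 ⟨c3, Function.update b (k + 1) y, (e1 0 (by omega)).trans hb0,
        ⟨fun i hi => ?_, fun i hi => ?_, fun i hi => ?_, fun i j hij hj => ?_⟩, e2, ?_⟩)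
      · rcases Nat.lt_succ_iff_lt_or_eq.1 hi with h | rfl
        · rw [e1 i h.le, e1 (i + 1) h]; exact hb.rel i h
        · rw [e1 i le_rfl, e2]; exact hr
      · rcases Nat.lt_succ_iff_lt_or_eq.1 hi with h | rfl
        · rw [e1 (i + 1) h]; exact hb.mem i h
        · rw [e2]; exact c3
      · rcases Nat.lt_succ_iff_lt_or_eq.1 hi with h | rfl
        · rw [e1 (i + 1) h]; exact hb.out i h
        · rw [e2]; exact c4.1
      · rw [e1 (i + 1) (by omega)]
        rcases Nat.lt_succ_iff_lt_or_eq.1 hj with h | rfl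
        · rw [e1 (j + 1) h]; exact hb.far i j hij h
        · rw [e2]
          exact fun hm => c4.2 (mem_biUnion.2 ⟨_, mem_piv.2 ⟨i, hij, rfl⟩, hm⟩)
      · refine le_trans (deg_le_add (Y₁ := W0 ∪ (piv k b).biUnion W) (Y₂ := W y) fun z hz _ => ?_)
          (by linarith [hown (k + 1) y c3, not_lt.1 hc])
        rcases mem_union.1 hz with h | h
        · exact Or.inl (mem_union_left _ h)
        · obtain ⟨c, d1, d2⟩ := mem_biUnion.1 h
          obtain ⟨i, hi, rfl⟩ := mem_piv.1 d1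
          rcases Nat.lt_succ_iff_lt_or_eq.1 hi with h | rfl
          · rw [e1 (i + 1) h] at d2
            exact Or.inl (mem_union_right _ (mem_biUnion.2 ⟨_, mem_piv.2 ⟨i, h, rfl⟩, d2⟩))
          · rw [e2] at d2
            exact Or.inr d2
    · obtain ⟨i, hi, rfl⟩ := mem_piv.1 hx
      exact hb.mem i hi
  have step : ∀ k, k ≤ r → ∀ x ∈ L k, deg (R k) x (I \ L (k + 1)) ≤ 3 * a := by
    intro k hk x hx
    obtain ⟨-, b, c1, c2, rfl, c4⟩ := (hL k x).1 hx
    have c5 := child k b hk c1 c2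
    have c6 := deg_mono_rel (x := b k) (Y := W0 ∪ (piv k b).biUnion W) (hR k (b k))
    refine le_trans (deg_le_add (Y₁ := W0 ∪ (piv k b).biUnion W)
      (Y₂ := (I \ (W0 ∪ (piv k b).biUnion W)) \ L (k + 1)) fun y hy _ => ?_) (by linarith)
    by_cases c : y ∈ W0 ∪ (piv k b).biUnion W
    · exact Or.inl c
    · exact Or.inr (mem_sdiff.2 ⟨mem_sdiff.2 ⟨(mem_sdiff.1 hy).1, c⟩, (mem_sdiff.1 hy).2⟩)
  have base : (1 : ℝ) ≤ (L 1).card := by
    have c1 := child 0 (fun _ => s₀) (by omega) rfl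
      ⟨fun _ h => absurd h (by omega), fun _ h => absurd h (by omega),
        fun _ h => absurd h (by omega), fun _ _ _ h => absurd h (by omega)⟩
    by_contra hc
    have c2 : L 1 = ∅ := by
      rw [← card_eq_zero]
      have : (L 1).card < 1 := by exact_mod_cast not_le.1 hc
      omega
    simp only [zero_add, c2, sdiff_empty, piv, range_zero, image_empty, biUnion_empty,
      union_empty] at c1
    linarith
  have hne : ∀ k, (1 : ℝ) ≤ (L k).card → (L k).Nonempty := fun k h => by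
    rw [← card_pos, ← Nat.cast_pos (α := ℝ)]
    linarith
  have ph1 : ∀ j, 1 + j ≤ r → min (D ^ j) s ≤ (L (1 + j)).card := by
    intro j
    induction j with
    | zero => exact fun _ => (min_le_left _ _).trans (by simpa using base)
    | succ j ih =>
      intro hj
      have c1 := ih (by omega)
      have c2 : 1 ≤ min (D ^ j) s := le_min (one_le_pow₀ hD) hs
      have c3 := (hG (1 + j) _ (hLI _) _ (hLI (1 + j + 1)) (hne _ (c2.trans c1))
        (step _ (by omega))).1
      refine le_trans (le_min ?_ (min_le_right _ _)) c3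
      rcases le_total (D ^ j) s with h | h
      · rw [min_eq_left h] at c1
        refine (min_le_left _ _).trans ?_
        rw [pow_succ']
        exact mul_le_mul_of_nonneg_left c1 (by linarith)
      · rw [min_eq_right h] at c1
        refine (min_le_right _ _).trans ?_
        nlinarith
  have ph2 : ∀ j, 1 + m₁ + j ≤ r → min (s + j * ν) t ≤ (L (1 + m₁ + j)).card := by
    have c0 : ∀ j, 1 + m₁ + j ≤ r → s ≤ (L (1 + m₁ + j)).card := fun j hj => by
      have := ph1 (m₁ + j) (by omega)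
      rwa [min_eq_right (h1.trans (pow_le_pow_right₀ hD (by omega))), ← add_assoc] at this
    intro j
    induction j with
    | zero => exact fun hj => (min_le_left _ _).trans (by simpa using c0 0 hj)
    | succ j ih =>
      intro hj
      have c1 := ih (by omega)
      have c3 := (hG (1 + m₁ + j) _ (hLI _) _ (hLI (1 + m₁ + j + 1))
        (hne _ (hs.trans (c0 j (by omega)))) (step _ (by omega))).2 (c0 j (by omega))
      refine le_trans (le_min ?_ (min_le_right _ _)) c3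
      push_cast
      rcases le_total (s + j * ν) t with h | h
      · rw [min_eq_left h] at c1
        exact (min_le_left _ _).trans (by linarith)
      · rw [min_eq_right h] at c1
        exact (min_le_right _ _).trans (by linarith)
  obtain ⟨j, rfl⟩ : ∃ j, r = 1 + m₁ + j := ⟨r - (1 + m₁), by omega⟩
  refine ⟨L _, hLI _, le_trans (le_min ?_ le_rfl) (ph2 j le_rfl), fun x hx => ?_⟩
  · have : (m₂ : ℝ) ≤ j := by exact_mod_cast (by omega : m₂ ≤ j)
    nlinarith
  · obtain ⟨-, b, c1, c2, c3, -⟩ := (hL _ x).1 hx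
    exact ⟨b, c1, c2, c3⟩

end Pool.Agent.MP_d6d719_co.H74
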