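import Mathlib

set_option autoImplicit false

open Finset

namespace Pool.Agent.MP_d6d719_co.H74

variable {ι ρ : Type*} [DecidableEq ι] [DecidableEq ρ]

/-- A system of pairwise disjoint candidates. -/
def Sys (Cand : ι → Finset ρ → Prop) (T : Finset ι) (M : ι → Finset ρ) : Prop :=
  (∀ i ∈ T, Cand i (M i)) ∧ ∀ i ∈ T, ∀ j ∈ T, i ≠ j → Disjoint (M i) (M j)

theorem haxell_step {T S : Finset ι} {Cand : ι → Finset ρ → Prop} {r : ℕ}
    (hr : ∀ i e, Cand i e → e.card ≤ r)
    (h : ∀ J ⊆ T, J.Nonempty → ∀ R : Finset ρ, R.card ≤ 2 * r * J.card →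
      ∃ i ∈ J, ∃ e, Cand i e ∧ Disjoint e R) (hS : S ⊆ T) (n : ℕ) :
    ∀ (J : Finset ι) (R : Finset ρ) (M : ι → Finset ρ), (S \ J).card = n → J ⊆ T → J.Nonempty →
      Sys Cand S M → (∀ j ∈ S, j ∈ J → M j ⊆ R) → (∀ j ∈ S, j ∉ J → Disjoint (M j) R) →
      R.card ≤ 2 * r * J.card →
      ∃ i ∈ J, ∃ e M', Cand i e ∧ Disjoint e R ∧ Sys Cand S M' ∧ (∀ j ∈ J, M' j = M j) ∧
        (∀ j ∈ S, j ∉ J → Disjoint (M' j) R) ∧ ∀ j ∈ S, j ∉ J → Disjoint e (M' j) := by
  induction n using Nat.strong_induction_on with
  | _ n ih =>
    intro J R M hn hJ hne hM h1 h2 h3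
    obtain ⟨i, hi, e, he, heR⟩ := h J hJ hne R h3
    have hex : ∃ m, ∃ M', (Sys Cand S M' ∧ (∀ j ∈ J, M' j = M j) ∧
        (∀ j ∈ S, j ∉ J → Disjoint (M' j) R)) ∧
        ((S \ J).filter (fun j => ¬ Disjoint e (M' j))).card = m :=
      ⟨_, M, ⟨hM, fun _ _ => rfl, h2⟩, rfl⟩
    classical
    obtain ⟨M', ⟨a1, a2, a3⟩, hm⟩ := Nat.find_spec hex
    set B := (S \ J).filter (fun j => ¬ Disjoint e (M' j)) with hB
    have hBm : ∀ j, j ∈ B ↔ (j ∈ S ∧ j ∉ J) ∧ ¬ Disjoint e (M' j) := fun j => by
      simp [hB]
    rcases B.eq_empty_or_nonempty with h0 | h0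
    · refine ⟨i, hi, e, M', he, heR, a1, a2, a3, fun j hj hj' => ?_⟩
      by_contra hc
      have : j ∈ B := (hBm j).2 ⟨⟨hj, hj'⟩, hc⟩
      rw [h0] at this
      exact notMem_empty _ this
    · have hdis : Disjoint J B := disjoint_left.2 fun j hj hj' => ((hBm j).1 hj').1.2 hj
      have hlt : (S \ (J ∪ B)).card < n := by
        rw [← hn]
        apply card_lt_card
        refine ⟨sdiff_subset_sdiff (Subset.refl _) subset_union_left, fun hsub => ?_⟩
        obtain ⟨j, hj⟩ := h0
        have := hsub (mem_sdiff.2 ((hBm j).1 hj).1)
        exact (mem_sdiff.1 this).2 (mem_union_right _ hj)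
      have hcard : (R ∪ e ∪ B.biUnion M').card ≤ 2 * r * (J ∪ B).card := by
        have b1 : (B.biUnion M').card ≤ B.card * r := by
          refine card_biUnion_le.trans ?_
          have := sum_le_sum (s := B) fun j hj => hr j _ (a1.1 j ((hBm j).1 hj).1.1)
          rwa [sum_const, smul_eq_mul] at this
        have b2 := card_union_le (R ∪ e) (B.biUnion M')
        have b3 := card_union_le R e
        have b4 := hr i e he
        have b5 := card_pos.2 h0
        rw [card_union_of_disjoint hdis]
        nlinarith
      obtain ⟨i', hi', e', M'', c1, c2, c3, c4, c5, c6⟩ := ih _ hlt (J ∪ B)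
        (R ∪ e ∪ B.biUnion M') M' rfl
        (union_subset hJ fun j hj => hS ((hBm j).1 hj).1.1) (hne.mono subset_union_left) a1
        (fun j hj hj' => by
          rcases mem_union.1 hj' with c | c
          · rw [a2 j c]
            exact (h1 j hj c).trans (subset_union_left.trans subset_union_left)
          · exact (subset_biUnion_of_mem M' c).trans subset_union_right)
        (fun j hj hj' => by
          rw [mem_union, not_or] at hj'
          rw [disjoint_union_right, disjoint_union_right, disjoint_biUnion_right]
          refine ⟨⟨a3 j hj hj'.1, ?_⟩, fun k hk => ?_⟩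
          · by_contra hc
            exact hj'.2 ((hBm j).2 ⟨⟨hj, hj'.1⟩, fun d => hc d.symm⟩)
          · exact a1.2 j hj k ((hBm k).1 hk).1.1 (fun e => hj'.2 (e ▸ hk)))
        hcard
      have hR : R ⊆ R ∪ e ∪ B.biUnion M' := subset_union_left.trans subset_union_left
      have hE : e ⊆ R ∪ e ∪ B.biUnion M' := subset_union_right.trans subset_union_left
      have hout : ∀ j ∈ S, j ∉ J → Disjoint (M'' j) R := fun j hj hj' => by
        by_cases c : j ∈ B
        · rw [c4 j (mem_union_right _ c)]
          exact a3 j hj hj'
        · exact (c5 j hj (by simp [hj', c])).mono_right hR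
      have hsub : ∀ j ∈ S, j ∈ J ∪ B → M'' j ⊆ R ∪ e ∪ B.biUnion M' := fun j hj hj' => by
        rw [c4 j hj']
        rcases mem_union.1 hj' with c | c
        · rw [a2 j c]
          exact (h1 j hj c).trans hR
        · exact (subset_biUnion_of_mem M' c).trans subset_union_right
      have hall : ∀ j ∈ S, Disjoint e' (M'' j) := fun j hj => by
        by_cases c : j ∈ J ∪ B
        · exact c2.mono_right (hsub j hj c)
        · exact c6 j hj c
      rcases mem_union.1 hi' with hJ' | hB'
      · exact ⟨i', hJ', e', M'', c1, c2.mono_right hR, c3,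
          fun j hj => (c4 j (mem_union_left _ hj)).trans (a2 j hj), hout, fun j hj _ => hall j hj⟩
      · exfalso
        have hi'J : i' ∉ J := ((hBm i').1 hB').1.2
        have hmin := Nat.find_min' hex ⟨Function.update M'' i' e', ⟨⟨fun j hj => ?_,
          fun j hj k hk hjk => ?_⟩, fun j hj => ?_, fun j hj hj' => ?_⟩, rfl⟩
        · rw [← hm] at hmin
          have : (S \ J).filter (fun j => ¬ Disjoint e (Function.update M'' i' e' j)) ⊆
              B.erase i' := by
            intro j hj
            obtain ⟨d1, d2⟩ := mem_filter.1 hj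
            by_cases c : j = i'
            · subst c
              rw [Function.update_self] at d2
              exact absurd (c2.mono_right hE).symm d2
            · rw [Function.update_of_ne c] at d2
              refine mem_erase.2 ⟨c, ?_⟩
              by_contra c'
              exact d2 ((c5 j (mem_sdiff.1 d1).1 (by simp [(mem_sdiff.1 d1).2, c'])).mono_right
                hE).symm
          have d3 := card_le_card this
          rw [card_erase_of_mem hB'] at d3
          have := card_pos.2 h0
          omega
        · by_cases c : j = i'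
          · subst c
            rwa [Function.update_self]
          · rw [Function.update_of_ne c]
            exact c3.1 j hj
        · by_cases c : j = i'
          · subst c
            rw [Function.update_self, Function.update_of_ne (Ne.symm hjk)]
            exact hall k hk
          · rw [Function.update_of_ne c]
            by_cases c' : k = i'
            · subst c'
              rw [Function.update_self]
              exact (hall j hj).symm
            · rw [Function.update_of_ne c']
              exact c3.2 j hj k hk hjk
        · rw [Function.update_of_ne (fun e : j = i' => hi'J (e ▸ hj))]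
          exact (c4 j (mem_union_left _ hj)).trans (a2 j hj)
        · by_cases c : j = i'
          · subst c
            rw [Function.update_self]
            exact c2.mono_right hR
          · rw [Function.update_of_ne c]
            exact hout j hj hj'

theorem haxell (T : Finset ι) (Cand : ι → Finset ρ → Prop) (r : ℕ)
    (hr : ∀ i e, Cand i e → e.card ≤ r)
    (h : ∀ J ⊆ T, J.Nonempty → ∀ R : Finset ρ, R.card ≤ 2 * r * J.card →
      ∃ i ∈ J, ∃ e, Cand i e ∧ Disjoint e R) : ∃ M, Sys Cand T M := by
  have key : ∀ S ⊆ T, ∃ M, Sys Cand S M := by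
    intro S
    induction S using Finset.induction_on with
    | empty => exact fun _ => ⟨fun _ => ∅, by simp [Sys]⟩
    | insert i S hi ih =>
      intro hS
      obtain ⟨M, hM⟩ := ih ((subset_insert _ _).trans hS)
      obtain ⟨i', hi', e, M', c1, -, c3, -, -, c6⟩ := haxell_step hr h
        ((subset_insert _ _).trans hS) _ {i} ∅ M rfl
        (singleton_subset_iff.2 (hS (mem_insert_self _ _))) (singleton_nonempty _) hM
        (fun j hj hj' => absurd (mem_singleton.1 hj' ▸ hj) hi) (fun _ _ _ => disjoint_empty_right _)
        (by simp)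
      rw [mem_singleton.1 hi'] at c1
      have hne : ∀ j ∈ S, j ≠ i := fun j hj e => hi (e ▸ hj)
      refine ⟨Function.update M' i e, fun j hj => ?_, fun j hj k hk hjk => ?_⟩
      · rcases mem_insert.1 hj with rfl | hj
        · rwa [Function.update_self]
        · rw [Function.update_of_ne (hne j hj)]
          exact c3.1 j hj
      · rcases mem_insert.1 hj with hj' | hj' <;> rcases mem_insert.1 hk with hk' | hk'
        · exact absurd (hj'.trans hk'.symm) hjk
        · rw [hj', Function.update_self, Function.update_of_ne (hne k hk')]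
          exact c6 k hk' (by simpa using hne k hk')
        · rw [hk', Function.update_self, Function.update_of_ne (hne j hj')]
          exact (c6 j hj' (by simpa using hne j hj')).symm
        · rw [Function.update_of_ne (hne j hj'), Function.update_of_ne (hne k hk')]
          exact c3.2 j hj' k hk' hjk
  exact key T (Subset.refl _)

end Pool.Agent.MP_d6d719_co.H74
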