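import Pool.Agent.MP_d6d719_co.h74.Frame2

set_option autoImplicit false
set_option linter.unusedSectionVars false

open Finset Equiv Equiv.Perm

namespace Pool.Agent.MP_d6d719_co.H74

variable {ι : Type*} [Fintype ι] [DecidableEq ι]
variable {p : Par} {P : Fin 8 → Finset ι} {HS : Finset (ι × ι)} {g D : ι → ι → Prop} {u₀ : ι}

theorem card_orbs {σ : Perm ι} {J : Finset (Finset ι)} {S : Finset ι} {l : ℕ}
    (h : ∀ O ∈ J, (∃ x, O = orb σ x) ∧ l ≤ O.card ∧ O ⊆ S) : J.card * l ≤ S.card := by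
  have b1 : J.biUnion id ⊆ S := biUnion_subset.2 fun O hO => (h O hO).2.2
  have b2 := card_le_card b1
  rw [card_biUnion fun O a O' b c => disjoint_left.2 fun y d e => by
    obtain ⟨x, rfl⟩ := (h O a).1
    obtain ⟨x', rfl⟩ := (h O' b).1
    exact c (orb_eq ((mem_orb.1 d).trans (mem_orb.1 e).symm))] at b2
  have b3 := sum_le_sum (s := J) (f := fun _ => l) (g := fun O => (id O).card)
    fun O a => (h O a).2.1
  rw [sum_const, smul_eq_mul] at b3
  omega

/-- The base permutation: unit cycles together with a cycle cover of the rest. -/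
structure Base (p : Par) (P : Fin 8 → Finset ι) (D : ι → ι → Prop) (τ π : Perm ι)
    (Uc A Hd : Finset ι) : Prop extends Frame p P D τ Uc A Hd where
  eqτ : ∀ x ∈ Uc ∪ A, π x = τ x
  out : ∀ x, x ∉ Uc ∪ A → D x (π x) ∧ p.l₁ ≤ per π x
  few : ((((Uc ∪ A)ᶜ).filter fun x => per π x < p.l₂).card : ℝ) ≤ 4 * p.b

variable {τ π : Perm ι} {Uc A Hd : Finset ι}

theorem Base.sc (B : Base p P D τ π Uc A Hd) {x y : ι} (hx : x ∈ Uc) :
    π.SameCycle x y ↔ τ.SameCycle x y :=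
  sc_congr fun z hz => B.eqτ z (mem_union_left _
    (mem_of_sc (fun _ => apply_mem_of_supp B.fix) hx hz))

theorem Base.memU (B : Base p P D τ π Uc A Hd) {x y : ι} (hx : x ∈ Uc) (h : π.SameCycle x y) :
    y ∈ Uc := mem_of_sc (fun _ => apply_mem_of_supp B.fix) hx ((B.sc hx).1 h)

theorem Base.fixA (B : Base p P D τ π Uc A Hd) {x : ι} (hx : x ∈ A) : π x = x :=
  (B.eqτ x (mem_union_right _ hx)).trans (B.fix x fun a => disjoint_left.1 B.disj a hx)

theorem Base.eqA (B : Base p P D τ π Uc A Hd) {x y : ι} (hx : x ∈ A) (h : π.SameCycle x y) :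
    x = y := h.eq_of_left (B.fixA hx)

theorem Base.col' (B : Base p P D τ π Uc A Hd) {i j : Fin 8} (hi : 5 ≤ i) (hj : 5 ≤ j) {x y : ι}
    (hx : x ∈ P i) (hy : y ∈ P j) (h : π.SameCycle x y) : i = j := by
  refine B.col i j hi hj x hx y hy ((B.sc (B.sub ?_)).1 h)
  have : i = 5 ∨ i = 6 ∨ i = 7 := by omega
  rcases this with rfl | rfl | rfl <;> simp [hx]

theorem Base.leave (B : Base p P D τ π Uc A Hd) {i : Fin 8} (hi : 5 ≤ i) {x y : ι} (hx : x ∈ P i)
    (hy : y ∉ P i) (h : π.SameCycle x y) : y ∈ (Uc ∪ A) \ (P 5 ∪ P 6 ∪ P 7) := by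
  have hU : x ∈ Uc := B.sub (by
    have : i = 5 ∨ i = 6 ∨ i = 7 := by omega
    rcases this with rfl | rfl | rfl <;> simp [hx])
  refine mem_sdiff.2 ⟨mem_union_left _ (B.memU hU h), fun a => hy ?_⟩
  simp only [mem_union] at a
  rcases a with (a | a) | a <;> rwa [B.col' hi (by decide) hx a h]

theorem exists_base (h : Host p P HS g D u₀) (ok : p.OK (Fintype.card ι)) :
    ∃ τ π Uc A Hd, Base p P D τ π Uc A Hd := by
  obtain ⟨τ, Uc, A, Hd, F⟩ := exists_frame h ok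
  have hR : Reg p P (Uc ∪ A)ᶜ := by
    refine ⟨{0, 1, 2, 3, 4}, by decide, fun x hx => ?_, ?_⟩
    · obtain ⟨i, hi⟩ := h.cover x
      refine mem_biUnion.2 ⟨i, ?_, hi⟩
      by_contra c
      refine mem_compl.1 hx (mem_union_left _ (F.sub ?_))
      have : i = 5 ∨ i = 6 ∨ i = 7 :=
        (by decide : ∀ i : Fin 8, i ∉ ({0, 1, 2, 3, 4} : Finset (Fin 8)) → i = 5 ∨ i = 6 ∨ i = 7) i c
      rcases this with rfl | rfl | rfl <;> simp [hi]
    · have b1 : ({0, 1, 2, 3, 4} : Finset (Fin 8)).biUnion P ⊆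
          (Uc ∪ A)ᶜ ∪ (Uc ∪ A) \ (P 5 ∪ P 6 ∪ P 7) := fun x hx => by
        obtain ⟨i, hi, a⟩ := mem_biUnion.1 hx
        by_cases c : x ∈ Uc ∪ A
        · refine mem_union_right _ (mem_sdiff.2 ⟨c, fun b => ?_⟩)
          simp only [mem_union] at b
          have hn := (by decide : ∀ i ∈ ({0, 1, 2, 3, 4} : Finset (Fin 8)),
            i ≠ 5 ∧ i ≠ 6 ∧ i ≠ 7) i hi
          rcases b with (b | b) | b
          · exact disjoint_left.1 (h.disj i _ hn.1) a b
          · exact disjoint_left.1 (h.disj i _ hn.2.1) a b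
          · exact disjoint_left.1 (h.disj i _ hn.2.2) a b
        · exact mem_union_left _ (mem_compl.2 c)
      have b2 := Nat.cast_le (α := ℝ).2 ((card_le_card b1).trans (card_union_le _ _))
      rw [card_biUnion fun i _ j _ c => h.disj i j c] at b2
      push_cast at b2
      have b3 := sum_le_sum (s := ({0, 1, 2, 3, 4} : Finset (Fin 8))) fun i _ => h.lo i
      rw [sum_const, nsmul_eq_mul] at b3
      have b4 : (({0, 1, 2, 3, 4} : Finset (Fin 8)).card : ℝ) = 5 := by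
        exact_mod_cast (by decide : ({0, 1, 2, 3, 4} : Finset (Fin 8)).card = 5)
      rw [b4] at b3 ⊢
      linarith [F.small, ok.s1]
  obtain ⟨σ, s1, s2, s3⟩ := cover h ok hR (j := 0) fun x hx =>
    mem_compl.2 (disjoint_left.1 F.main hx)
  have e : ∀ x ∈ (Uc ∪ A)ᶜ, (τ * σ) x = σ x := fun x hx => by
    rw [mul_apply, F.fix _ fun a => mem_compl.1 (apply_mem_of_supp s1 hx) (mem_union_left _ a)]
  have e2 : ∀ x ∈ (Uc ∪ A)ᶜ, per (τ * σ) x = per σ x := fun x hx => by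
    unfold per
    rw [orb_congr fun z hz => e z (mem_of_sc (fun _ => apply_mem_of_supp s1) hx hz)]
  refine ⟨τ, τ * σ, Uc, A, Hd, F, fun x hx => ?_, fun x hx => ?_, ?_⟩
  · rw [mul_apply, s1 x fun a => mem_compl.1 a hx]
  · rw [e x (mem_compl.2 hx), e2 x (mem_compl.2 hx)]
    exact s2 x (mem_compl.2 hx)
  · rwa [filter_congr fun x hx => by rw [e2 x hx]]

/-- An alternating cycle through units and one host arc. -/
structure Ins (r : ℕ) (P : Fin 8 → Finset ι) (D : ι → ι → Prop) (π : Perm ι) (Uc Hd : Finset ι)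
    (c : ℕ → ι) : Prop where
  arc : ∀ t < 2 * r + 2, D (c t) (π (c ((t + 1) % (2 * r + 2))))
  piv : ∀ t < 2 * r + 2, t ≠ 0 → t ≠ r + 1 → ∃ y ∈ P 5 ∪ P 6, π.SameCycle y (c t)
  host : c (r + 1) ∈ P 7 ∧ c (r + 1) ∉ Hd
  sep : ∀ t < 2 * r + 2, ∀ t' < 2 * r + 2, t ≠ 0 → t ≠ r + 1 → t' ≠ 0 → t' ≠ r + 1 →
    π.SameCycle (c t) (c t') → t = t'

theorem one_ins (h : Host p P HS g D u₀) (ok : p.OK (Fintype.card ι))
    (B : Base p P D τ π Uc A Hd) {Z : Finset ι} (hZ : (Z.card : ℝ) ≤ p.s) {u : ι}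
    (hd : ∀ x, x = u ∨ x ∉ Z → deg (fun s c => g s (π c)) x Z ≤ p.a ∧
      deg (fun c c' => g c' (π c)) x Z ≤ p.a) :
    ∃ c, c 0 = u ∧ Ins p.r P D π Uc Hd c ∧ ∀ t < 2 * p.r + 1, c (t + 1) ∉ Z := by
  classical
  obtain ⟨m1, m2⟩ := loc_both h.sparse h.diag (σ := π) (fun w => by
    by_cases c : w ∈ Uc ∪ A
    · rcases mem_union.1 c with a | a
      · exact Or.inr (B.eqτ w c ▸ h.Dg _ _ (B.arc w a))
      · exact Or.inl (B.fixA a)
    · exact Or.inr (h.Dg _ _ (B.out w c).1)) ok.win1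
  have s0 : 0 ≤ p.s := by linarith [ok.s1]
  have hq : (∅ : Finset ι).card + p.r ≤ p.q := by
    have : (p.r : ℝ) ≤ p.q := by linarith [ok.qa, ok.a0]
    simpa using this
  have hsd : ∀ X : Finset ι, (X.card : ℝ) ≤ (X \ Z).card + p.s := fun X => by
    have := Nat.cast_le (α := ℝ).2 (card_le_card_sdiff_add_card (s := X) (t := Z))
    push_cast at this
    linarith
  have hI : ∀ (X : Finset ι) y, y ∈ X → y ∈ X \ Z ∨ y ∈ Z := fun X y hy => by
    by_cases c : y ∈ Z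
    · exact Or.inr c
    · exact Or.inl (mem_sdiff.2 ⟨hy, c⟩)
  have hout : ∀ i : Fin 8, 5 ≤ i → ∀ X ⊆ P i, ((X.filter fun x => π x ∉ P i).card : ℝ) ≤ p.s :=
    fun i hi X hX => le_trans (Nat.cast_le.2 (card_le_card_of_injOn π (fun x hx =>
      B.leave hi (hX (mem_filter.1 hx).1) (mem_filter.1 hx).2 (sc_apply π x))
      π.injective.injOn)) B.small
  have hnil : ∀ (α : Perm ι) (X T : Finset ι), (∀ x ∈ X, α x ∈ T) →
      ((X.filter fun x => α x ∉ T).card : ℝ) ≤ p.s := fun α X T a => by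
    rw [filter_eq_empty_iff.2 fun x hx => not_not.2 (a x hx)]
    simpa using s0
  obtain ⟨F, hF⟩ : ∃ F : Finset ι, F = (P 5).map π.symm.toEmbedding := ⟨_, rfl⟩
  have mF : ∀ x, x ∈ F ↔ π x ∈ P 5 := fun x => by simp [hF, mem_map_equiv]
  have cF : F.card = (P 5).card := by rw [hF, card_map]
  have f1 : (((F \ Z).filter fun x => (1 : Perm ι) x ∉ P 5).card : ℝ) ≤ p.s :=
    le_trans (Nat.cast_le.2 (card_le_card fun x hx => B.leave (i := 5) le_rfl
      ((mF x).1 (mem_sdiff.1 (mem_filter.1 hx).1).1) (mem_filter.1 hx).2 (sc_apply π x).symm))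
      B.small
  obtain ⟨L, L1, L2, L3⟩ := reach_loc ok (R := fun _ s c => (s, π c) ∈ HS)
    (g := fun _ s c => g s (π c)) (I := F \ Z) (C₀ := ∅) (s₀ := u) (fun _ x y => h.fwd.le _ _)
    (fun _ => m1.mono (subset_univ _)) hq (by
      rw [biUnion_empty, sdiff_empty]
      exact lt_of_lt_of_le (by linarith [ok.ac, ok.a0]) (h.fwd.deg_ge 1 π 5
        (fun y hy => hI F y ((mF y).2 hy)) (hd u (Or.inl rfl)).1))
    fun _ => h.fwd.grow ok 1 π (h.reg ok 5) f1
      (hnil π _ _ fun x hx => (mF x).1 (mem_sdiff.1 hx).1) (by linarith [hsd F, cF ▸ hsd F]) 5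
      (fun y hy => hI F y ((mF y).2 hy)) fun x hx => (hd x (Or.inr (mem_sdiff.1 hx).2)).1
  obtain ⟨L', M1, M2, M3⟩ := reach_loc ok (R := fun _ c c' => (c', π c) ∈ HS)
    (g := fun _ c c' => g c' (π c)) (I := P 6 \ Z) (C₀ := ∅) (s₀ := u) (fun _ x y => h.fwd.le _ _)
    (fun _ => m2.mono (subset_univ _)) hq (by
      rw [biUnion_empty, sdiff_empty]
      exact lt_of_lt_of_le (by linarith [ok.ac, ok.a0]) (h.bwd.deg_ge π 1 6
        (hI (P 6)) (hd u (Or.inl rfl)).2))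
    fun _ => h.bwd.grow ok π 1 (h.reg ok 6) (hout 6 (by decide) _ sdiff_subset)
      (hnil 1 _ _ fun x hx => (mem_sdiff.1 hx).1) (by linarith [hsd (P 6)]) 6
      (hI (P 6)) fun x hx => (hd x (Or.inr (mem_sdiff.1 hx).2)).2
  have x1 := card_le_map_inter 1 L1 f1
  have x2 := card_le_map_inter π M1 (hout 6 (by decide) _ sdiff_subset)
  obtain ⟨IH, hIH⟩ : ∃ IH : Finset ι, IH = (P 7 \ Z) \ Hd := ⟨_, rfl⟩
  have x3 : ((P 7).card : ℝ) ≤ IH.card + 2 * p.s := by
    have := Nat.cast_le (α := ℝ).2 (card_le_card_sdiff_add_card (s := P 7 \ Z) (t := Hd))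
    push_cast at this
    rw [hIH]
    linarith [hsd (P 7), B.hsmall]
  have x4 : IH ⊆ P 7 := hIH ▸ sdiff_subset.trans sdiff_subset
  obtain ⟨LH, hLH⟩ : ∃ LH, LH = IH.filter fun y => ∃ x ∈ L, (x, π y) ∈ HS := ⟨_, rfl⟩
  have x5 : LH ⊆ IH := hLH ▸ filter_subset _ _
  have x6 := card_le_map_inter π (sdiff_subset (s := IH) (t := LH)) (hout 7 (by decide) _ x4)
  rw [card_sdiff_of_subset x5, Nat.cast_sub (card_le_card x5)] at x6
  have x7 : (((IH \ LH).map π.toEmbedding ∩ P 7).card : ℝ) ≤ 8 * p.ε + 4 * p.s := by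
    by_contra c
    push Not at c
    have cF' : (F.card : ℝ) = (P 5).card := by rw [cF]
    obtain ⟨x, hx, y, hy, hxy⟩ := h.fwd.close ok (Nat.cast_nonneg _)
      (inter_subset_right (s₁ := L.map (1 : Perm ι).toEmbedding) (s₂ := P 5))
      (inter_subset_right (s₁ := (IH \ LH).map π.toEmbedding) (s₂ := P 7))
      (by linarith [hsd F, h.lo 5, ok.big, ok.ε0]) (by linarith [ok.ε0])
      (by linarith [hsd F, h.lo 5, ok.big, ok.ε0])
    obtain ⟨x, a, rfl⟩ := mem_map.1 (mem_inter.1 hx).1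
    obtain ⟨y, b, rfl⟩ := mem_map.1 (mem_inter.1 hy).1
    exact (mem_sdiff.1 b).2 (hLH ▸ mem_filter.2 ⟨(mem_sdiff.1 b).1, x, a, hxy⟩)
  obtain ⟨z, hz, y, hy, hzy⟩ := h.fwd.close ok (Nat.cast_nonneg _) (x5.trans x4)
    (inter_subset_right (s₁ := L'.map π.toEmbedding) (s₂ := P 6))
    (by linarith [h.lo 7, ok.big, ok.ε0]) (by linarith [hsd (P 6), h.lo 6, ok.big, ok.ε0])
    (by linarith [hsd (P 6), h.lo 6, h.lo 7, ok.big, ok.ε0])
  obtain ⟨y, a, rfl⟩ := mem_map.1 (mem_inter.1 hy).1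
  obtain ⟨z1, x, z2, z3⟩ := mem_filter.1 (hLH ▸ hz)
  obtain ⟨b, b0, b1, rfl⟩ := L3 x z2
  obtain ⟨b', e0, e1, rfl⟩ := M3 y a
  rw [hIH] at z1
  obtain ⟨z4, z5⟩ := mem_sdiff.1 z1
  have hK : ∀ x y, (x, y) ∈ HS → D x y := fun x y e => h.HD _ e
  have key : ∀ t < 2 * p.r + 2, t ≠ 0 → t ≠ p.r + 1 → (∃ i < p.r, t = i + 1 ∧
      (if t ≤ p.r then b t else if t = p.r + 1 then z else b' (2 * p.r + 2 - t)) = b (i + 1)) ∨
      ∃ i < p.r, t + i = 2 * p.r + 1 ∧ (if t ≤ p.r then b t else if t = p.r + 1 then z else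
        b' (2 * p.r + 2 - t)) = b' (i + 1) := fun t ht t0 t1 => by
    split_ifs with c
    · exact Or.inl ⟨t - 1, by omega, by omega, by congr 1; omega⟩
    · exact Or.inr ⟨2 * p.r + 1 - t, by omega, by omega, by congr 1; omega⟩
  have k5 : ∀ i < p.r, π (b (i + 1)) ∈ P 5 := fun i hi => (mF _).1 (mem_sdiff.1 (b1.mem i hi)).1
  have k6 : ∀ i < p.r, b' (i + 1) ∈ P 6 := fun i hi => (mem_sdiff.1 (e1.mem i hi)).1
  have kw : ∀ x y, y ∈ P 5 ∪ P 6 → π.SameCycle y x → ∀ x', π.SameCycle x x' →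
      x' ∈ win π (2 * p.l₁ + 2 * p.r) x := fun x y hy a x' b => by
    have c : x ∈ Uc := B.memU (B.sub (mem_union_left _ hy)) a
    refine mem_win_of_sc b (le_trans (le_of_eq ?_) (B.len x c))
    unfold per
    congr 1
    ext w
    simp only [mem_orb, B.sc c]
  refine ⟨fun t => if t ≤ p.r then b t else if t = p.r + 1 then z else b' (2 * p.r + 2 - t),
    by simpa using b0, ⟨fun t ht => ?_, fun t ht t0 t1 => ?_, ?_,
      fun t ht t' ht' t0 t1 t2 t3 e => ?_⟩, fun t ht => ?_⟩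
  · rcases lt_trichotomy t p.r with c | rfl | c
    · rw [Nat.mod_eq_of_lt (by omega), if_pos c.le, if_pos (show t + 1 ≤ p.r from c)]
      exact hK _ _ (b1.rel t c)
    · rw [Nat.mod_eq_of_lt (by omega), if_pos le_rfl, if_neg (by omega), if_pos rfl]
      exact hK _ _ z3
    · rw [if_neg (by omega)]
      rcases Nat.lt_or_ge t (2 * p.r + 1) with c' | c'
      · rw [Nat.mod_eq_of_lt (by omega), if_neg (show ¬ t + 1 ≤ p.r by omega),
          if_neg (show ¬ t + 1 = p.r + 1 by omega)]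
        split_ifs with c''
        · rw [show 2 * p.r + 2 - (t + 1) = p.r by omega]
          exact hK _ _ hzy
        · rw [show 2 * p.r + 2 - t = 2 * p.r + 2 - (t + 1) + 1 by omega]
          exact hK _ _ (e1.rel _ (by omega))
      · have r3 := ok.r3
        rw [show t + 1 = 2 * p.r + 2 by omega, Nat.mod_self, if_neg (by omega), if_pos (by omega),
          show 2 * p.r + 2 - t = 0 + 1 by omega, b0, ← e0]
        exact hK _ _ (e1.rel 0 (by omega))
  · rcases key t ht t0 t1 with ⟨i, c1, -, c2⟩ | ⟨i, c1, -, c2⟩ <;> simp only [c2]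
    · exact ⟨_, mem_union_left _ (k5 i c1), (sc_apply π _).symm⟩
    · exact ⟨_, mem_union_right _ (k6 i c1), SameCycle.refl _ _⟩
  · simp only [show ¬ p.r + 1 ≤ p.r by omega, if_false, if_true]
    exact ⟨(mem_sdiff.1 z4).1, z5⟩
  · rcases key t ht t0 t1 with ⟨i, c1, c3, c2⟩ | ⟨i, c1, c3, c2⟩ <;>
      rcases key t' ht' t2 t3 with ⟨j, d1, d3, d2⟩ | ⟨j, d1, d3, d2⟩ <;> simp only [c2, d2] at e
    · rcases lt_trichotomy i j with c | c | c
      · exact absurd (kw _ _ (mem_union_left _ (k5 i c1)) (sc_apply π _).symm _ e)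
          (b1.far i j c d1)
      · omega
      · exact absurd (kw _ _ (mem_union_left _ (k5 j d1)) (sc_apply π _).symm _ e.symm)
          (b1.far j i c c1)
    · exact absurd (B.col' (by decide) (by decide) (k5 i c1) (k6 j d1)
        ((sc_apply π _).symm.trans e)) (by decide)
    · exact absurd (B.col' (by decide) (by decide) (k5 j d1) (k6 i c1)
        ((sc_apply π _).symm.trans e.symm)) (by decide)
    · rcases lt_trichotomy i j with c | c | c
      · exact absurd (kw _ _ (mem_union_right _ (k6 i c1)) (SameCycle.refl _ _) _ e)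
          (e1.far i j c d1)
      · omega
      · exact absurd (kw _ _ (mem_union_right _ (k6 j d1)) (SameCycle.refl _ _) _ e.symm)
          (e1.far j i c c1)
  · by_cases c : t + 1 = p.r + 1
    · simp only [c, show ¬ p.r + 1 ≤ p.r by omega, if_false, if_true]
      exact (mem_sdiff.1 z4).2
    · rcases key (t + 1) (by omega) (by omega) c with ⟨i, c1, -, c2⟩ | ⟨i, c1, -, c2⟩ <;>
        simp only [c2]
      · exact (mem_sdiff.1 (b1.mem i c1)).2
      · exact (mem_sdiff.1 (e1.mem i c1)).2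

end Pool.Agent.MP_d6d719_co.H74
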