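import Pool.Agent.MP_d6d719_co.h74.Cover
import Pool.Agent.MP_d6d719_co.h74.Haxell

set_option autoImplicit false
set_option linter.unusedSectionVars false

open Finset Equiv Equiv.Perm

namespace Pool.Agent.MP_d6d719_co.H74

variable {ι : Type*} [Fintype ι] [DecidableEq ι]
variable {p : Par} {P : Fin 8 → Finset ι} {HS : Finset (ι × ι)} {K g D : ι → ι → Prop} {u₀ : ι}

/-- The orientation pattern of a link. -/
def Arc (D : ι → ι → Prop) (z : Bool) (t : ℕ) (x y : ι) : Prop :=
  if z = true ∧ Even t then D y x else D x y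

theorem Host.reg (h : Host p P HS g D u₀) (ok : p.OK (Fintype.card ι)) (i : Fin 8) :
    Reg p P (P i) :=
  ⟨{i}, singleton_nonempty _, by simp, by simp; linarith [h.lo i, ok.s1]⟩

theorem loc_single (ok : p.OK (Fintype.card ι)) (R : ι → ι → Prop) (A : Finset ι) :
    Loc R (fun c => {c}) A p.r p.a := by
  have r0 : (0 : ℝ) ≤ p.r := Nat.cast_nonneg _
  refine ⟨fun x _ c => deg_le_card.trans (by simp; linarith [ok.ra]), fun C hC B _ hB => ?_⟩
  rcases B.eq_empty_or_nonempty with e | ⟨x, hx⟩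
  · simpa [e] using ok.a0
  · have b1 := (hB x hx).trans_le deg_le_card
    rw [biUnion_singleton_eq_self] at b1
    have : (C.card : ℝ) ≤ p.r := by exact_mod_cast hC
    linarith [ok.ra]

theorem half_link (ok : p.OK (Fintype.card ι)) {R G : ℕ → ι → ι → Prop} {i : Fin 8}
    (hi : Reg p P (P i)) (hN : ∀ t, Nice p P (R t) (G t)) {Z : Finset ι} (hZ : (Z.card : ℝ) ≤ p.s)
    {x₀ : ι} (h : ∀ t x, x = x₀ ∨ x ∉ Z → deg (G t) x Z ≤ p.a) :
    ∃ L ⊆ P i, ((P i).card : ℝ) - (8 * p.ε + 2 * p.s) ≤ L.card ∧ ∀ x ∈ L, ∃ b : ℕ → ι, b 0 = x₀ ∧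
      b p.r = x ∧ (∀ t < p.r, R t (b t) (b (t + 1)) ∧ b (t + 1) ∈ P i ∧ b (t + 1) ∉ Z) ∧
      ∀ t < p.r, ∀ t' < p.r, b (t + 1) = b (t' + 1) → t = t' := by
  have hI : ∀ y ∈ P i, y ∈ P i \ Z ∨ y ∈ Z := fun y hy => by
    by_cases c : y ∈ Z
    · exact Or.inr c
    · exact Or.inl (mem_sdiff.2 ⟨hy, c⟩)
  have hTI : ((P i).card : ℝ) ≤ (P i \ Z).card + p.s := by
    have := Nat.cast_le (α := ℝ).2 (card_le_card_sdiff_add_card (s := P i) (t := Z))
    push_cast at this
    linarith
  have s0 : 0 ≤ p.s := by linarith [ok.s1]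
  have e0 : (((P i \ Z).filter fun x => (1 : Perm ι) x ∉ P i).card : ℝ) ≤ p.s := by
    rw [(filter_eq_empty_iff (p := fun x => (1 : Perm ι) x ∉ P i)).2
      fun x hx => not_not.2 (mem_sdiff.1 hx).1]
    simpa using s0
  obtain ⟨L, L1, L2, L3⟩ := reach_loc ok (R := R) (g := G) (I := P i \ Z) (C₀ := ∅)
    (W := fun c => {c}) (s₀ := x₀) (fun t => (hN t).le) (fun t => loc_single ok _ _) (by simp)
    (by
      have := (hN 0).deg_ge 1 1 i hI (x := x₀) (h 0 x₀ (Or.inl rfl))
      rw [biUnion_empty, sdiff_empty]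
      exact lt_of_lt_of_le (by linarith [ok.ac, ok.a0]) this)
    fun t => (hN t).grow ok 1 1 hi e0 e0 (by linarith) i hI
      fun x hx => h t x (Or.inr (mem_sdiff.1 hx).2)
  refine ⟨L, L1.trans sdiff_subset, by linarith, fun x hx => ?_⟩
  obtain ⟨b, b0, b1, b2⟩ := L3 x hx
  refine ⟨b, b0, b2, fun t ht => ⟨b1.rel t ht, mem_sdiff.1 (b1.mem t ht)⟩, fun t ht t' ht' e => ?_⟩
  rcases lt_trichotomy t t' with c | c | c
  · exact absurd (mem_singleton.2 e.symm) (b1.far t t' c ht')
  · exact c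
  · exact absurd (mem_singleton.2 e) (b1.far t' t c ht)

/-- A link from `a` to `b` through the set `U`. -/
structure IsLink (D : ι → ι → Prop) (r : ℕ) (U : Finset ι) (z : Bool) (a b : ι) (v : ℕ → ι) :
    Prop where
  fst : v 0 = a
  lst : v (2 * r + 1) = b
  arc : ∀ t ≤ 2 * r, Arc D z t (v t) (v (t + 1))
  mem : ∀ t < 2 * r, v (t + 1) ∈ U
  inj : ∀ t < 2 * r, ∀ t' < 2 * r, v (t + 1) = v (t' + 1) → t = t'

theorem one_link (h : Host p P HS g D u₀) (ok : p.OK (Fintype.card ι)) {i j : Fin 8} (hij : i ≠ j)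
    {Z : Finset ι} (hZ : (Z.card : ℝ) ≤ p.s) {a b : ι}
    (hd : ∀ x, x = a ∨ x = b ∨ x ∉ Z → deg g x Z ≤ p.a ∧ deg (fun y x => g x y) x Z ≤ p.a)
    (z : Bool) : ∃ v, IsLink D p.r (P i ∪ P j) z a b v ∧ ∀ t < 2 * p.r, v (t + 1) ∉ Z := by
  obtain ⟨L, L1, L2, L3⟩ := half_link ok (R := Arc (fun x y => (x, y) ∈ HS) z) (G := Arc g z)
    (h.reg ok i) (fun t => by
      unfold Arc
      split_ifs
      · exact h.bwd
      · exact h.fwd) hZ (x₀ := a) (fun t x hx => by
      unfold Arc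
      split_ifs
      · exact (hd x (by tauto)).2
      · exact (hd x (by tauto)).1)
  obtain ⟨L', M1, M2, M3⟩ := half_link ok (R := Arc (fun y x => (x, y) ∈ HS) z)
    (G := Arc (fun y x => g x y) z) (h.reg ok j) (fun t => by
      unfold Arc
      split_ifs
      · exact h.fwd
      · exact h.bwd) hZ (x₀ := b) (fun t x hx => by
      unfold Arc
      split_ifs
      · exact (hd x (by tauto)).1
      · exact (hd x (by tauto)).2)
  obtain ⟨x, hx, y, hy, hxy⟩ := h.fwd.close ok (Nat.cast_nonneg _) L1 M1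
    (by linarith [h.lo i, ok.big, ok.ε0, ok.s1]) (by linarith [h.lo j, ok.big, ok.ε0, ok.s1])
    (by linarith [h.lo i, h.lo j, ok.big, ok.ε0, ok.s1])
  obtain ⟨f, f0, rfl, f1, f2⟩ := L3 x hx
  obtain ⟨f', g0, rfl, g1, g2⟩ := M3 y hy
  have hdis := disjoint_left.1 (h.disj i j hij)
  have hK : ∀ x y, (x, y) ∈ HS → D x y := fun x y e => h.HD _ e
  have key : ∀ t < 2 * p.r, (t < p.r ∧ (if t + 1 ≤ p.r then f (t + 1) else
      f' (2 * p.r + 1 - (t + 1))) = f (t + 1)) ∨ (p.r ≤ t ∧ (if t + 1 ≤ p.r then f (t + 1) else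
      f' (2 * p.r + 1 - (t + 1))) = f' (2 * p.r - 1 - t + 1)) := fun t ht => by
    split_ifs with c
    · exact Or.inl ⟨c, rfl⟩
    · exact Or.inr ⟨by omega, by congr 1; omega⟩
  refine ⟨fun t => if t ≤ p.r then f t else f' (2 * p.r + 1 - t),
    ⟨by simpa using f0, by simpa [show ¬ 2 * p.r + 1 ≤ p.r by omega] using g0, fun t ht => ?_,
      fun t ht => ?_, fun t ht t' ht' e => ?_⟩, fun t ht => ?_⟩
  · rcases lt_trichotomy t p.r with c | rfl | c
    · rw [if_pos c.le, if_pos (show t + 1 ≤ p.r from c)]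
      have := (f1 t c).1
      unfold Arc at this ⊢
      split_ifs at this ⊢ <;> exact hK _ _ this
    · rw [if_pos le_rfl, if_neg (by omega), show 2 * p.r + 1 - (p.r + 1) = p.r by omega]
      unfold Arc
      rw [if_neg fun c => Nat.not_even_iff_odd.2 ok.odd c.2]
      exact hK _ _ hxy
    · rw [if_neg (by omega), if_neg (by omega), show 2 * p.r + 1 - t = 2 * p.r - t + 1 by omega,
        show 2 * p.r + 1 - (t + 1) = 2 * p.r - t by omega]
      have := (g1 (2 * p.r - t) (by omega)).1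
      have e : Even (2 * p.r - t) ↔ Even t := by
        rw [Nat.even_sub ht]; simp
      unfold Arc at this ⊢
      simp only [e] at this
      split_ifs at this ⊢ <;> exact hK _ _ this
  · rcases key t ht with c | c <;> simp only [c.2]
    · exact mem_union_left _ (f1 t c.1).2.1
    · exact mem_union_right _ (g1 _ (by omega)).2.1
  · rcases key t ht with c | c <;> rcases key t' ht' with c' | c' <;> simp only [c.2, c'.2] at e
    · exact f2 t c.1 t' c'.1 e
    · exact absurd (e ▸ (g1 _ (by omega)).2.1) (hdis (f1 t c.1).2.1)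
    · exact absurd (e ▸ (g1 _ (by omega)).2.1) (hdis (f1 t' c'.1).2.1)
    · have := g2 _ (by omega) _ (by omega) e
      omega
  · rcases key t ht with c | c <;> simp only [c.2]
    · exact (f1 t c.1).2.2
    · exact (g1 _ (by omega)).2.2

theorem links (h : Host p P HS g D u₀) (ok : p.OK (Fintype.card ι)) {i j : Fin 8} (hij : i ≠ j)
    {κ : Type*} (T : Finset κ) (a b : κ → ι) (z : κ → Bool)
    (ha : ∀ k ∈ T, ∀ k' ∈ T, a k = a k' → z k = z k' → k = k')
    (hb : ∀ k ∈ T, ∀ k' ∈ T, b k = b k' → z k = z k' → k = k')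
    (hT : 8 * (p.r : ℝ) * T.card + 1 ≤ p.s) :
    ∃ v : κ → ℕ → ι, (∀ k ∈ T, IsLink D p.r (P i ∪ P j) (z k) (a k) (b k) (v k)) ∧
      ∀ k ∈ T, ∀ k' ∈ T, ∀ t < 2 * p.r, ∀ t' < 2 * p.r, v k (t + 1) = v k' (t' + 1) → k = k' := by
  classical
  have : Nonempty ι := ⟨u₀⟩
  obtain ⟨M, M1, M2⟩ := haxell T (fun k e => ∃ v, IsLink D p.r (P i ∪ P j) (z k) (a k) (b k) v ∧
    e = piv (2 * p.r) v) (2 * p.r) (fun k e ⟨v, _, he⟩ => he ▸ card_piv_le _ _) (by
      intro J hJ hne R hR
      have b1 : (R.card : ℝ) ≤ 4 * p.r * J.card := by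
        have : (R.card : ℝ) ≤ 2 * (2 * p.r) * J.card := by exact_mod_cast hR
        linarith
      have b2 : (J.card : ℝ) ≤ T.card := by exact_mod_cast card_le_card hJ
      have b3 : (0 : ℝ) < J.card := by exact_mod_cast card_pos.2 hne
      have r0 : (0 : ℝ) ≤ p.r := Nat.cast_nonneg _
      have b4 := mul_le_mul_of_nonneg_left b2 r0
      obtain ⟨E, f1, f2⟩ := closure h.fwd.small h.bwd.small ok.D4 R b1 (by linarith)
      have D0 : 0 < p.D := by linarith [ok.D4]
      have f3 : 4 * (E.card : ℝ) < J.card := by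
        rw [le_div_iff₀ D0] at f1
        have := mul_lt_mul_of_pos_right ok.linkD b3
        nlinarith
      have f4 : ∀ c : κ → ι, (∀ k ∈ T, ∀ k' ∈ T, c k = c k' → z k = z k' → k = k') →
          (J.filter fun k => c k ∈ E).card ≤ 2 * E.card := fun c hc => by
        have := card_le_card_of_injOn (s := J.filter fun k => c k ∈ E)
          (t := E ×ˢ (univ : Finset Bool)) (fun k => (c k, z k))
          (fun k hk => by simpa using (mem_filter.1 hk).2) fun k hk k' hk' e =>
            hc k (hJ (mem_filter.1 hk).1) k' (hJ (mem_filter.1 hk').1) (Prod.mk.inj e).1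
              (Prod.mk.inj e).2
        rw [card_product] at this
        simpa [mul_comm] using this
      obtain ⟨k, hk, k1, k2⟩ : ∃ k ∈ J, a k ∉ E ∧ b k ∉ E := by
        by_contra hc
        push Not at hc
        have c1 : J ⊆ (J.filter fun k => a k ∈ E) ∪ J.filter fun k => b k ∈ E := fun k hk => by
          by_cases c : a k ∈ E
          · exact mem_union_left _ (mem_filter.2 ⟨hk, c⟩)
          · exact mem_union_right _ (mem_filter.2 ⟨hk, hc k hk c⟩)
        have c2 := (card_le_card c1).trans (card_union_le _ _)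
        have c3 := f4 a ha
        have c4 := f4 b hb
        have : 4 * E.card < J.card := by exact_mod_cast f3
        omega
      have f5 : ((R ∪ E).card : ℝ) ≤ p.s := by
        have := Nat.cast_le (α := ℝ).2 (card_union_le R E)
        push_cast at this
        have : (1 : ℝ) ≤ p.r := by exact_mod_cast (by linarith [ok.r3] : 1 ≤ p.r)
        nlinarith
      obtain ⟨v, v1, v2⟩ := one_link h ok hij f5 (a := a k) (b := b k) (fun x hx => by
        have : x ∉ E := by
          rcases hx with rfl | rfl | hx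
          · exact k1
          · exact k2
          · exact fun c => hx (mem_union_right _ c)
        exact ⟨(f2 x this).1.le, (f2 x this).2.le⟩) (z k)
      refine ⟨k, hk, _, ⟨v, v1, rfl⟩, disjoint_left.2 fun x hx c => ?_⟩
      obtain ⟨t, ht, rfl⟩ := mem_piv.1 hx
      exact v2 t ht (mem_union_left _ c))
  choose! v v1 v2 using M1
  refine ⟨v, v1, fun k hk k' hk' t ht t' ht' e => ?_⟩
  by_contra hne
  have := M2 k hk k' hk' hne
  rw [v2 k hk, v2 k' hk'] at this
  exact disjoint_left.1 this (mem_piv.2 ⟨t, ht, rfl⟩) (mem_piv.2 ⟨t', ht', e.symm⟩)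

end Pool.Agent.MP_d6d719_co.H74
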