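import Pool.Agent.MP_d6d719_co.h74.Defs

set_option autoImplicit false

open Finset Equiv Equiv.Perm

namespace Pool.Agent.MP_d6d719_co.H74

variable {ι : Type*} [DecidableEq ι] {g : ι → ι → Prop} {σ : Perm ι} {κ s a : ℝ} {u₀ : ι}

theorem win_count (hS : Sparse g κ s) (hκ : 0 ≤ κ) (hd : ∀ u, u ≠ u₀ → g u u)
    (hσ : ∀ w, σ w = w ∨ g w (σ w)) {l : ℕ} {C B : Finset ι}
    (hB : ∀ x ∈ B, a ≤ deg g x (wins σ l C)) (hs : (B.card : ℝ) + 4 * l * C.card ≤ s) :
    (a - 3 - κ) * B.card ≤ 4 * κ * l * C.card + C.card + 7 := by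
  set Z := wins σ l C with hZ
  have hZc : (Z.card : ℝ) ≤ 2 * l * C.card := by exact_mod_cast card_wins_le σ l C
  have hX : ((B ∪ Z).card : ℝ) ≤ B.card + Z.card := by exact_mod_cast card_union_le B Z
  have h1 := hS (B ∪ Z) Z (by linarith)
  have h2 : ∀ x ∈ B ∪ Z, (if x ∈ B then a - 2 else 0) + (if x ∈ Z.erase u₀ then (1 : ℝ) else 0) +
      (if x ∈ Z.filter (fun x => σ x ∈ Z ∧ σ x ≠ x) then (1 : ℝ) else 0) ≤ deg g x Z := by
    intro x _
    by_cases c : x ∈ B
    · have := hB x c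
      split_ifs <;> linarith
    · rw [if_neg c, zero_add]
      split_ifs with c1 c2 c2
      · obtain ⟨d1, d2, d3⟩ := mem_filter.1 c2
        have := le_deg_of_subset (R := g) (x := x) (Y := Z) (S := {x, σ x}) fun y hy => by
          rcases mem_insert.1 hy with rfl | hy
          · exact ⟨d1, hd y (mem_erase.1 c1).1⟩
          · rw [mem_singleton.1 hy]
            exact ⟨d2, (hσ x).resolve_left d3⟩
        rw [card_pair d3.symm] at this
        push_cast at this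
        linarith
      · have := le_deg_of_subset (R := g) (x := x) (Y := Z) (S := {x}) fun y hy => by
          rw [mem_singleton.1 hy]
          exact ⟨(mem_erase.1 c1).2, hd x (mem_erase.1 c1).1⟩
        simpa using this
      · obtain ⟨d1, d2, d3⟩ := mem_filter.1 c2
        have := le_deg_of_subset (R := g) (x := x) (Y := Z) (S := {σ x}) fun y hy => by
          rw [mem_singleton.1 hy]
          exact ⟨d2, (hσ x).resolve_left d3⟩
        simpa using this
      · simpa using deg_nonneg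
  have h3 := sum_le_sum h2
  have e1 : ∀ (S : Finset ι) (v : ℝ), S ⊆ B ∪ Z →
      ∑ x ∈ B ∪ Z, (if x ∈ S then v else 0) = v * S.card := fun S v h => by
    rw [← sum_filter, filter_mem_eq_inter, inter_eq_right.2 h, sum_const, nsmul_eq_mul, mul_comm]
  rw [sum_add_distrib, sum_add_distrib, e1 _ _ subset_union_left,
    e1 _ _ ((erase_subset _ _).trans subset_union_right),
    e1 _ _ ((filter_subset _ _).trans subset_union_right)] at h3
  have h4 : (Z.card : ℝ) ≤ (Z.erase u₀).card + 1 := by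
    exact_mod_cast (by have := pred_card_le_card_erase (s := Z) (a := u₀); omega)
  have h5 : Z ⊆ Z.filter (fun x => σ x ∈ Z ∧ σ x ≠ x) ∪
      C.image (fun c => (σ ^ ((l : ℤ) - 1)) c) := by
    intro z hz
    obtain ⟨c, hc, hw⟩ := mem_wins.1 hz
    obtain ⟨i, b1, b2, b3⟩ := mem_win.1 hw
    by_cases e : σ z = z
    · have b4 : c = z := by
        have := zpow_apply_eq_self_of_apply_eq_self e (-i)
        rw [← this, ← b3, ← mul_apply, ← zpow_add]
        simp
      refine mem_union_right _ (mem_image.2 ⟨c, hc, ?_⟩)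
      rw [b4]
      exact zpow_apply_eq_self_of_apply_eq_self e _
    · by_cases e' : i = l - 1
      · exact mem_union_right _ (mem_image.2 ⟨c, hc, e' ▸ b3⟩)
      · refine mem_union_left _ (mem_filter.2 ⟨hz, mem_wins.2 ⟨c, hc, mem_win.2
          ⟨i + 1, by omega, by omega, ?_⟩⟩, e⟩)
        rw [add_comm, zpow_add, zpow_one, mul_apply, b3]
  have h6 := Nat.cast_le (α := ℝ).2 ((card_le_card h5).trans ((card_union_le _ _).trans
    (Nat.add_le_add_left card_image_le _)))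
  push_cast at h6
  have h7 : ec g (B ∪ Z) Z = ∑ x ∈ B ∪ Z, deg g x Z := rfl
  have h8 := mul_le_mul_of_nonneg_left hX (show 0 ≤ 1 + κ by linarith)
  have h9 := mul_le_mul_of_nonneg_left hZc hκ
  linarith

/-- Points of `A` see little of one window, and few of them see much of `q` windows. -/
structure Loc (R : ι → ι → Prop) (W : ι → Finset ι) (A : Finset ι) (q : ℕ) (a : ℝ) : Prop where
  one : ∀ x ∈ A, ∀ c, deg R x (W c) ≤ a
  many : ∀ C : Finset ι, C.card ≤ q → ∀ B ⊆ A, (∀ x ∈ B, a < deg R x (C.biUnion W)) →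
    (B.card : ℝ) ≤ a

theorem Loc.mono {R : ι → ι → Prop} {W : ι → Finset ι} {A A' : Finset ι} {q : ℕ}
    (h : Loc R W A q a) (hA : A' ⊆ A) : Loc R W A' q a :=
  ⟨fun x hx => h.one x (hA hx), fun C hC B hB => h.many C hC B (hB.trans hA)⟩

theorem loc_base (hS : Sparse g κ s) (hκ : 0 ≤ κ) (hκ1 : κ ≤ 1) (hd : ∀ u, u ≠ u₀ → g u u)
    (hσ : ∀ w, σ w = w ∨ g w (σ w)) {l q : ℕ} (hq : 1 ≤ q) (h1 : 4 * κ * l + 12 ≤ a)
    (h2 : 4 * κ * l * q + q + 7 ≤ a * (a - 4)) (h3 : a + 1 + 4 * l * q ≤ s) (A : Finset ι) :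
    Loc g (win σ l) A q a := by
  have hl : (0 : ℝ) ≤ κ * l := by positivity
  have hq' : (1 : ℝ) ≤ q := by exact_mod_cast hq
  refine ⟨fun x _ c => ?_, fun C hC B _ hB => ?_⟩
  · by_contra hc
    push Not at hc
    have := win_count (a := deg g x (win σ l c)) hS hκ hd hσ (l := l) (C := {c}) (B := {x})
      (fun y hy => by rw [mem_singleton.1 hy]; simp [wins])
      (by
        simp only [card_singleton, Nat.cast_one]
        have : (0 : ℝ) ≤ l := by positivity
        nlinarith)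
    simp only [card_singleton, Nat.cast_one] at this
    linarith
  · by_contra hc
    push Not at hc
    have ha : 0 ≤ a := by linarith
    obtain ⟨B', b1, b2⟩ := exists_subset_card_eq (s := B) (n := ⌊a⌋₊ + 1)
      ((Nat.floor_lt ha).2 hc)
    have b3 : (B'.card : ℝ) ≤ a + 1 := by
      rw [b2]; push_cast; linarith [Nat.floor_le ha]
    have b4 : a < B'.card := by
      rw [b2]; push_cast; exact Nat.lt_floor_add_one a
    have b5 : (C.card : ℝ) ≤ q := by exact_mod_cast hC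
    have b6 : (0 : ℝ) ≤ l := by positivity
    have := win_count hS hκ hd hσ (l := l) (C := C) (B := B') (fun x hx => (hB x (b1 hx)).le)
      (by nlinarith)
    have b7 : (a - 4) * a < (a - 4) * B'.card := mul_lt_mul_of_pos_left b4 (by linarith)
    have b8 := mul_le_mul_of_nonneg_left b5 hl
    nlinarith

theorem apply_mem_win {l : ℕ} {c x : ι} (h : x ∈ win σ l c) : σ x ∈ win σ (l + 1) c := by
  obtain ⟨i, b1, b2, b3⟩ := mem_win.1 h
  refine mem_win.2 ⟨i + 1, by omega, by omega, ?_⟩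
  rw [add_comm, zpow_add, zpow_one, mul_apply, b3]

theorem win_mono {l l' : ℕ} (hl : l ≤ l') (c : ι) : win σ l c ⊆ win σ l' c := fun x h => by
  obtain ⟨i, b1, b2, b3⟩ := mem_win.1 h
  exact mem_win.2 ⟨i, by omega, by omega, b3⟩

omit [DecidableEq ι] in
theorem deg_fwd_le (R : ι → ι → Prop) (x : ι) {S S' : Finset ι} (h : ∀ y ∈ S, σ y ∈ S') :
    deg (fun s c => R s (σ c)) x S ≤ deg R x S' := by
  have := deg_map (R := R) (x := x) σ.toEmbedding S
  simp only [Equiv.coe_toEmbedding] at this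
  rw [← this]
  refine deg_mono fun y hy => ?_
  obtain ⟨z, hz, rfl⟩ := mem_map.1 hy
  exact h z hz

theorem Loc.fwd [Fintype ι] {l q : ℕ} (h : Loc g (win σ (l + 1)) univ q a) :
    Loc (fun s c => g s (σ c)) (win σ l) univ q a := by
  refine ⟨fun x hx c => (deg_fwd_le g x fun y hy => apply_mem_win hy).trans (h.one x hx c),
    fun C hC B hB hb => h.many C hC B hB fun x hx => (hb x hx).trans_le
      (deg_fwd_le g x fun y hy => ?_)⟩
  obtain ⟨c, c1, c2⟩ := mem_biUnion.1 hy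
  exact mem_biUnion.2 ⟨c, c1, apply_mem_win c2⟩

theorem Loc.bwd [Fintype ι] {l q : ℕ} (h : Loc (fun y x => g x y) (win σ⁻¹ (l + 1)) univ q a) :
    Loc (fun c c' => g c' (σ c)) (win σ l) univ q a := by
  refine ⟨fun x _ c => le_trans (deg_mono' fun y hy hr => ⟨?_, hr⟩) (h.one (σ x) (mem_univ _) c),
    fun C hC B _ hb => ?_⟩
  · rw [win_inv]
    exact win_mono (by omega) c hy
  · have := h.many C hC (B.map σ.toEmbedding) (subset_univ _) fun x hx => by
      obtain ⟨z, hz, rfl⟩ := mem_map.1 hx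
      refine (hb z hz).trans_le (deg_mono' fun y hy hr => ⟨?_, hr⟩)
      obtain ⟨c, c1, c2⟩ := mem_biUnion.1 hy
      exact mem_biUnion.2 ⟨c, c1, by rw [win_inv]; exact win_mono (by omega) c c2⟩
    rwa [card_map] at this

/-- The numerical conditions for windows of radius `l`. -/
structure WinOK (κ s a : ℝ) (l q : ℕ) : Prop where
  k0 : 0 ≤ κ
  k1 : κ ≤ 1
  q1 : 1 ≤ q
  h1 : 4 * κ * (l + 1 : ℕ) + 12 ≤ a
  h2 : 4 * κ * (l + 1 : ℕ) * q + q + 7 ≤ a * (a - 4)
  h3 : a + 1 + 4 * (l + 1 : ℕ) * q ≤ s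

theorem WinOK.mono {l l' q : ℕ} (h : WinOK κ s a l q) (hl : l' ≤ l) : WinOK κ s a l' q := by
  have b1 : ((l' + 1 : ℕ) : ℝ) ≤ (l + 1 : ℕ) := by exact_mod_cast Nat.succ_le_succ hl
  have b2 := mul_le_mul_of_nonneg_left b1 h.k0
  have b3 : (0 : ℝ) ≤ q := Nat.cast_nonneg _
  have b4 := mul_le_mul_of_nonneg_right b1 b3
  have b5 := mul_le_mul_of_nonneg_right b2 b3
  exact ⟨h.k0, h.k1, h.q1, by linarith [h.h1], by linarith [h.h2], by linarith [h.h3]⟩

theorem loc_both [Fintype ι] (hS : Sparse g κ s) (hd : ∀ u, u ≠ u₀ → g u u)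
    (hσ : ∀ w, σ w = w ∨ g w (σ w)) {l q : ℕ} (h : WinOK κ s a l q) :
    Loc (fun s c => g s (σ c)) (win σ l) univ q a ∧
      Loc (fun c c' => g c' (σ c)) (win σ l) univ q a := by
  refine ⟨(loc_base hS h.k0 h.k1 hd hσ h.q1 h.h1 h.h2 h.h3 _).fwd,
    (loc_base hS.flip h.k0 h.k1 hd (fun w => ?_) h.q1 h.h1 h.h2 h.h3 _).bwd⟩
  rcases hσ (σ⁻¹ w) with e | e
  · left
    simpa using e.symm
  · right
    simpa using e

theorem loc_big [Fintype ι] {l q : ℕ} {b : ℝ} (h1 : FewBad g (l + 1) q a b)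
    (h2 : FewBad (fun y x => g x y) (l + 1) q a b) (hq : 1 ≤ q) (ha : 0 ≤ a) (σ : Perm ι) :
    ∃ Z : Finset ι, (Z.card : ℝ) ≤ 2 * b ∧ Loc (fun s c => g s (σ c)) (win σ l) Zᶜ q a ∧
      Loc (fun c c' => g c' (σ c)) (win σ l) Zᶜ q a ∧ ∀ x ∈ Zᶜ, ∀ C : Finset ι, C.card ≤ q →
        deg (fun c c' => g c' (σ c)) x (C.biUnion (win σ l)) < a := by
  classical
  obtain ⟨B₁, hB₁⟩ : ∃ B : Finset ι, ∀ x, x ∈ B ↔
      ∃ C : Finset ι, C.card ≤ q ∧ a ≤ deg g x (wins σ (l + 1) C) :=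
    ⟨univ.filter fun x => ∃ C : Finset ι, C.card ≤ q ∧ a ≤ deg g x (wins σ (l + 1) C), by simp⟩
  obtain ⟨B₂, hB₂⟩ : ∃ B : Finset ι, ∀ x, x ∈ B ↔
      ∃ C : Finset ι, C.card ≤ q ∧ a ≤ deg (fun y x => g x y) x (wins σ (l + 1) C) :=
    ⟨univ.filter fun x => ∃ C : Finset ι, C.card ≤ q ∧
      a ≤ deg (fun y x => g x y) x (wins σ (l + 1) C), by simp⟩
  have c1 := h1 σ B₁ fun x hx => (hB₁ x).1 hx
  have c2 := h2 σ B₂ fun x hx => (hB₂ x).1 hx
  have c3 := Nat.cast_le (α := ℝ).2 (card_union_le B₁ (B₂.map σ.symm.toEmbedding))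
  rw [card_map] at c3
  push_cast at c3
  have k1 : ∀ x ∈ (B₁ ∪ B₂.map σ.symm.toEmbedding)ᶜ, ∀ C : Finset ι, C.card ≤ q →
      deg (fun s c => g s (σ c)) x (C.biUnion (win σ l)) < a ∧
      deg (fun c c' => g c' (σ c)) x (C.biUnion (win σ l)) < a := by
    intro x hx C hC
    rw [mem_compl, mem_union, not_or] at hx
    constructor
    · refine lt_of_le_of_lt (deg_fwd_le g x fun y hy => ?_)
        (not_le.1 fun h => hx.1 ((hB₁ x).2 ⟨C, hC, h⟩))
      obtain ⟨c, d1, d2⟩ := mem_biUnion.1 hy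
      exact mem_wins.2 ⟨c, d1, apply_mem_win d2⟩
    · refine lt_of_le_of_lt (deg_mono' fun y hy hr => ⟨?_, hr⟩) (not_le.1 fun h => hx.2
        (mem_map.2 ⟨σ x, (hB₂ _).2 ⟨C, hC, h⟩, by simp⟩))
      obtain ⟨c, d1, d2⟩ := mem_biUnion.1 hy
      exact mem_wins.2 ⟨c, d1, win_mono (by omega) c d2⟩
  have k2 : ∀ R : ι → ι → Prop, (∀ x ∈ (B₁ ∪ B₂.map σ.symm.toEmbedding)ᶜ, ∀ C : Finset ι,
      C.card ≤ q → deg R x (C.biUnion (win σ l)) < a) →
      Loc R (win σ l) (B₁ ∪ B₂.map σ.symm.toEmbedding)ᶜ q a := by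
    intro R h
    refine ⟨fun x hx c => ?_, fun C hC B hB hb => ?_⟩
    · simpa using (h x hx {c} (by simpa using hq)).le
    · rcases B.eq_empty_or_nonempty with e | ⟨x, hx⟩
      · simpa [e] using ha
      · exact absurd (h x (hB hx) C hC) (not_lt.2 (hb x hx).le)
  exact ⟨B₁ ∪ B₂.map σ.symm.toEmbedding, by linarith, k2 _ fun x hx C hC => (k1 x hx C hC).1,
    k2 _ fun x hx C hC => (k1 x hx C hC).2, fun x hx C hC => (k1 x hx C hC).2⟩

end Pool.Agent.MP_d6d719_co.H74
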