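import Pool.Agent.MP_d6d719_co.h74.Grow
import Pool.Agent.MP_d6d719_co.h74.Window

set_option autoImplicit false
set_option linter.unusedSectionVars false

open Finset Equiv Equiv.Perm

namespace Pool.Agent.MP_d6d719_co.H74

/-- The numerical parameters. -/
structure Par where
  (a D s c u e a₀ ε n' ν w κ s₄ b m β t cD mH : ℝ)
  (r m₁ m₂ l₁ l₂ q : ℕ)

/-- The numerical conditions; `N` is the number of nodes. -/
structure Par.OK (p : Par) (N : ℝ) : Prop where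
  a0 : 0 ≤ p.a
  D4 : 4 ≤ p.D
  s1 : 1 ≤ p.s
  ε0 : 0 ≤ p.ε
  u0 : 0 < p.u
  ac : 5 * p.a < p.c
  ec : 2 * p.e ≤ (p.c - 4 * p.a) * p.s
  wc : 2 * p.u * p.w ≤ p.c - 4 * p.a
  aa : 3 * p.a * N ≤ p.a₀
  εw : 8 * p.ε + p.s + p.ν / 2 ≤ p.w
  sν : 12 * p.s ≤ p.ν
  m1 : p.s ≤ p.D ^ p.m₁
  m2 : N ≤ p.s + p.m₂ * (p.ν / 2)
  mr : 1 + p.m₁ + p.m₂ ≤ p.r
  big : 40 * p.ε + 20 * p.s < p.n'
  odd : Odd p.r
  r3 : 3 ≤ p.r
  ra : (p.r : ℝ) + 1 ≤ p.a
  l2 : 2 ≤ p.l₁
  l12 : p.l₁ ≤ p.l₂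
  win1 : WinOK p.κ p.s₄ p.a (2 * p.l₁ + 2 * p.r) p.q
  qa : 3 * p.a + p.r + 4 ≤ p.q
  bs : 4 * p.b + 1 ≤ p.s
  mm : p.mH + 2 * N ≤ p.m
  ββ : 2 * (8 * p.ε + 2 * p.s) * N ≤ p.β
  tt : p.m + p.t < p.cD * (p.n' / 2)
  link : 16 * p.r * (p.r + 1) * N + p.l₁ ≤ p.s * p.l₁
  linkD : 64 * (p.r : ℝ) < p.D
  fin : 8 * (2 * p.r + 1) * (2 * p.l₁ + 2 * p.r) * (4 * p.b * p.l₂ + N * p.l₁) ≤
    (p.s - 1) * (p.l₁ * p.l₂)
  finD : 8 * (2 * p.r + 1) * (2 * p.l₁ + 2 * p.r) < p.D * p.l₁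

variable {ι : Type*} [DecidableEq ι]

/-- The properties of the sparse relation `K` inside the host relation `g`. -/
structure Nice (p : Par) (P : Fin 8 → Finset ι) (K g : ι → ι → Prop) : Prop where
  le : ∀ x y, K x y → g x y
  small : Small g p.a p.D p.s
  upper : Upper K p.u p.e
  star : ∀ i j, Star K (P i) (P j) p.a₀ p.ε (p.n' - p.ν)
  mindeg : ∀ x j, p.c ≤ deg K x (P j)

/-- A union of parts, up to a small loss. -/
def Reg (p : Par) (P : Fin 8 → Finset ι) (T : Finset ι) : Prop :=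
  ∃ J : Finset (Fin 8), J.Nonempty ∧ T ⊆ J.biUnion P ∧ J.card * p.n' ≤ T.card + 2 * p.s

variable {p : Par} {P : Fin 8 → Finset ι} {K g : ι → ι → Prop} {N : ℝ}

theorem Nice.star_reg (h : Nice p P K g) (ok : p.OK N) {T : Finset ι} (hT : Reg p P T) :
    Star K T T p.a₀ (8 * p.ε) (T.card + 2 * p.s - p.ν) := by
  obtain ⟨J, hJ, h1, h2⟩ := hT
  intro X hX Y hY he
  have key : ∀ Z ⊆ T, ∃ i ∈ J, (Z.card : ℝ) ≤ J.card * (Z ∩ P i).card := by
    intro Z hZ
    obtain ⟨i, hi, hm⟩ := exists_max_image J (fun i => (Z ∩ P i).card) hJ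
    refine ⟨i, hi, ?_⟩
    have b1 : Z ⊆ J.biUnion fun i => Z ∩ P i := fun x hx => by
      obtain ⟨j, c1, c2⟩ := mem_biUnion.1 (h1 (hZ hx))
      exact mem_biUnion.2 ⟨j, c1, mem_inter.2 ⟨hx, c2⟩⟩
    have b2 := (card_le_card b1).trans (card_biUnion_le.trans (sum_le_sum hm))
    rw [sum_const, smul_eq_mul] at b2
    exact_mod_cast b2
  obtain ⟨i, -, hi⟩ := key X hX
  obtain ⟨j, -, hj⟩ := key Y hY
  have b1 : (J.card : ℝ) ≤ 8 := by exact_mod_cast (card_le_univ J).trans (by simp)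
  have b2 : (1 : ℝ) ≤ J.card := by exact_mod_cast card_pos.2 hJ
  have b3 := ok.ε0
  have b4 : 0 ≤ p.ν := by linarith [ok.sν, ok.s1]
  rcases h.star i j (X ∩ P i) inter_subset_right (Y ∩ P j) inter_subset_right
    ((ec_mono inter_subset_left inter_subset_left).trans he) with c | c | c
  · left; nlinarith
  · right; left; nlinarith
  · right; right; nlinarith

theorem card_le_map_inter (α : Perm ι) {X I T : Finset ι} {η : ℝ} (hX : X ⊆ I)
    (h : ((I.filter fun x => α x ∉ T).card : ℝ) ≤ η) :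
    (X.card : ℝ) ≤ (X.map α.toEmbedding ∩ T).card + η := by
  have b1 : X.map α.toEmbedding ⊆ (X.map α.toEmbedding ∩ T) ∪
      (I.filter fun x => α x ∉ T).map α.toEmbedding := by
    intro y hy
    obtain ⟨x, hx, rfl⟩ := mem_map.1 hy
    by_cases c : α x ∈ T
    · exact mem_union_left _ (mem_inter.2 ⟨hy, c⟩)
    · exact mem_union_right _ (mem_map_of_mem _ (mem_filter.2 ⟨hX hx, c⟩))
  have b2 := Nat.cast_le (α := ℝ).2 ((card_le_card b1).trans (card_union_le _ _))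
  rw [card_map] at b2
  push_cast at b2
  rw [card_map] at b2
  linarith

theorem Nice.grow [Fintype ι] (h : Nice p P K g) (ok : p.OK (Fintype.card ι)) (α β : Perm ι)
    {T I Z : Finset ι} (hT : Reg p P T) (h1 : ((I.filter fun x => α x ∉ T).card : ℝ) ≤ p.s)
    (h2 : ((I.filter fun x => β x ∉ T).card : ℝ) ≤ p.s) (h3 : (T.card : ℝ) ≤ I.card + 2 * p.s)
    (j : Fin 8) (h4 : ∀ y, β y ∈ P j → y ∈ I ∨ y ∈ Z)
    (h5 : ∀ x ∈ I, deg (fun x y => g (α x) (β y)) x Z ≤ p.a) :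
    Grow (fun x y => K (α x) (β y)) I (3 * p.a) p.D p.s (p.ν / 2) (I.card - (8 * p.ε + p.s)) := by
  have b0 : (I.card : ℝ) ≤ Fintype.card ι := by exact_mod_cast card_le_univ I
  refine grow_of (g := fun x y => g (α x) (β y)) (c := p.c - p.a) (u := p.u) (e := p.e)
    (a₀ := p.a₀) (m := T.card + 4 * p.s - p.ν) (w := p.w) (fun x y => h.le _ _)
    (h.small.pull α.toEmbedding β.toEmbedding) (fun x hx => ?_) (by linarith [ok.ac])
    (fun X Y => ?_) ok.u0 (by linarith [ok.ec]) (by linarith [ok.wc]) (fun X hX Y hY he => ?_)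
    (by nlinarith [ok.aa, ok.a0]) ok.εw (by linarith [ok.sν]) (by linarith [ok.a0]) ok.a0
  · have b1 := h.mindeg (α x) j
    have b2 := deg_map (R := K) (x := α x) β.toEmbedding ((P j).map β.symm.toEmbedding)
    rw [map_map] at b2
    have b3 : β.symm.toEmbedding.trans β.toEmbedding = Function.Embedding.refl _ := by
      ext; simp
    rw [b3, map_refl] at b2
    have b4 := deg_le_add (R := fun x y => K (α x) (β y)) (x := x)
      (Y := (P j).map β.symm.toEmbedding) (Y₁ := I) (Y₂ := Z) fun y hy _ => h4 y (by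
        obtain ⟨z, hz, rfl⟩ := mem_map.1 hy
        simpa using hz)
    have b5 := deg_mono_rel (R := fun x y => K (α x) (β y)) (R' := fun x y => g (α x) (β y))
      (x := x) (Y := Z) fun y => h.le _ _
    have b6 : deg K (α x) (P j) = deg (fun x y => K (α x) (β y)) x
      ((P j).map β.symm.toEmbedding) := b2
    linarith [h5 x hx]
  · have := h.upper (X.map α.toEmbedding) (Y.map β.toEmbedding)
    rwa [ec_map, card_map, card_map] at this
  · have b1 := card_le_map_inter α hX h1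
    have b2 := card_le_map_inter β hY h2
    have b3 : ec K (X.map α.toEmbedding) (Y.map β.toEmbedding) ≤ p.a₀ := by rwa [ec_map]
    rcases h.star_reg ok hT _ inter_subset_right _ inter_subset_right
      ((ec_mono inter_subset_left inter_subset_left).trans b3) with c | c | c
    · left; linarith
    · right; left; linarith
    · right; right; linarith

theorem reach_loc [Fintype ι] (ok : p.OK (Fintype.card ι)) {R g : ℕ → ι → ι → Prop}
    {I C₀ : Finset ι} {W : ι → Finset ι} {s₀ : ι} {q : ℕ} (hR : ∀ k x y, R k x y → g k x y)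
    (hloc : ∀ k, Loc (g k) W I q p.a) (hq : C₀.card + p.r ≤ q)
    (hroot : p.a < deg (R 0) s₀ (I \ C₀.biUnion W))
    (hG : ∀ k, Grow (R k) I (3 * p.a) p.D p.s (p.ν / 2) (I.card - (8 * p.ε + p.s))) :
    ∃ L ⊆ I, (I.card : ℝ) - (8 * p.ε + p.s) ≤ L.card ∧
      ∀ x ∈ L, ∃ b, b 0 = s₀ ∧ Br R I (C₀.biUnion W) W p.r b ∧ b p.r = x := by
  have b0 : (I.card : ℝ) ≤ Fintype.card ι := by exact_mod_cast card_le_univ I
  refine reach hR (fun k x hx => (hloc k).one x hx x) (fun k C _ hC B hB hb => ?_) hroot hG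
    (by linarith [ok.D4]) ok.s1 (by linarith [ok.sν, ok.s1]) ok.m1
    (by linarith [ok.m2, ok.ε0, ok.s1]) ok.mr
  refine (hloc k).many (C₀ ∪ C) ((card_union_le _ _).trans (by omega)) B hB fun x hx => ?_
  rw [union_biUnion]
  exact hb x hx

theorem Nice.close (h : Nice p P K g) (ok : p.OK N) (hN : 0 ≤ N) {i j : Fin 8} {X Y : Finset ι}
    (hX : X ⊆ P i) (hY : Y ⊆ P j) (h1 : p.ε < X.card) (h2 : p.ε < Y.card)
    (h3 : p.n' ≤ X.card + Y.card) : ∃ x ∈ X, ∃ y ∈ Y, K x y := by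
  by_contra hc
  push Not at hc
  have b1 := ec_eq_zero hc
  have b2 : 0 ≤ p.a₀ := le_trans (by have := ok.a0; positivity) ok.aa
  rcases h.star i j X hX Y hY (by linarith) with c | c | c <;> linarith [ok.sν, ok.s1]

end Pool.Agent.MP_d6d719_co.H74
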