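import Pool.Agent.MP_d6d719_co.h74.Perm

set_option autoImplicit false
set_option linter.unusedSectionVars false

open Finset Equiv Equiv.Perm

namespace Pool.Agent.MP_d6d719_co.H74

variable {ι : Type*} [Fintype ι] [DecidableEq ι] {D : ι → ι → Prop} {l : ℕ}

/-- A partition of `T` into paths whose lengths lie in `[l, 2l)`. -/
structure Pcs (D : ι → ι → Prop) (l : ℕ) (T : Finset ι) (Ls : Finset (List ι)) : Prop where
  nodup : ∀ L ∈ Ls, L.Nodup
  chain : ∀ L ∈ Ls, List.IsChain D L
  lo : ∀ L ∈ Ls, l ≤ L.length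
  hi : ∀ L ∈ Ls, L.length < 2 * l
  sub : ∀ L ∈ Ls, ∀ x ∈ L, x ∈ T
  disj : ∀ L ∈ Ls, ∀ L' ∈ Ls, L ≠ L' → ∀ x ∈ L, x ∉ L'
  cover : ∀ x ∈ T, ∃ L ∈ Ls, x ∈ L

theorem Pcs.union {T T' : Finset ι} {Ls Ls' : Finset (List ι)} (h : Pcs D l T Ls)
    (h' : Pcs D l T' Ls') (hd : Disjoint T T') : Pcs D l (T ∪ T') (Ls ∪ Ls') := by
  have hd' := disjoint_left.1 hd
  refine ⟨fun L hL => ?_, fun L hL => ?_, fun L hL => ?_, fun L hL => ?_, fun L hL x hx => ?_,
    fun L hL L' hL' hne x hx hx' => ?_, fun x hx => ?_⟩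
  · exact (mem_union.1 hL).elim (h.nodup L) (h'.nodup L)
  · exact (mem_union.1 hL).elim (h.chain L) (h'.chain L)
  · exact (mem_union.1 hL).elim (h.lo L) (h'.lo L)
  · exact (mem_union.1 hL).elim (h.hi L) (h'.hi L)
  · exact mem_union.2 ((mem_union.1 hL).imp (fun a => h.sub L a x hx) fun a => h'.sub L a x hx)
  · rcases mem_union.1 hL with a | a <;> rcases mem_union.1 hL' with b | b
    · exact h.disj L a L' b hne x hx hx'
    · exact hd' (h.sub L a x hx) (h'.sub L' b x hx')
    · exact hd' (h.sub L' b x hx') (h'.sub L a x hx)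
    · exact h'.disj L a L' b hne x hx hx'
  · rcases mem_union.1 hx with a | a
    · obtain ⟨L, b, c⟩ := h.cover x a
      exact ⟨L, mem_union_left _ b, c⟩
    · obtain ⟨L, b, c⟩ := h'.cover x a
      exact ⟨L, mem_union_right _ b, c⟩

theorem Pcs.single {L : List ι} (h1 : L.Nodup) (h2 : List.IsChain D L) (h3 : l ≤ L.length)
    (h4 : L.length < 2 * l) : Pcs D l L.toFinset {L} := by
  refine ⟨?_, ?_, ?_, ?_, ?_, ?_, ?_⟩ <;> simp [h1, h2, h3, h4]

theorem chop (hl : 0 < l) (n : ℕ) : ∀ L : List ι, L.length = n → L.Nodup → List.IsChain D L →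
    l ≤ L.length → ∃ Ls, Pcs D l L.toFinset Ls := by
  induction n using Nat.strong_induction_on with
  | _ n ih =>
    intro L hn h1 h2 h3
    rcases Nat.lt_or_ge L.length (2 * l) with c | c
    · exact ⟨_, Pcs.single h1 h2 h3 c⟩
    · have e := List.take_append_drop l L
      have b1 : (L.take l).length = l := by rw [List.length_take]; omega
      have b2 : (L.drop l).length = n - l := by rw [List.length_drop]; omega
      rw [← e] at h1 h2
      obtain ⟨c1, c2, c3⟩ := List.nodup_append.1 h1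
      obtain ⟨Ls, hLs⟩ := ih (n - l) (by omega) (L.drop l) b2 c2 h2.right_of_append (by omega)
      have := (Pcs.single c1 h2.left_of_append b1.ge (by omega)).union hLs
        (disjoint_left.2 fun x a b =>
          c3 x (List.mem_toFinset.1 a) x (List.mem_toFinset.1 b) rfl)
      rw [← List.toFinset_append, e] at this
      exact ⟨_, this⟩

theorem pieces (hl : 0 < l) {σ : Perm ι} (n : ℕ) : ∀ T : Finset ι, T.card = n →
    (∀ x ∈ T, σ x ∈ T) → (∀ x ∈ T, D x (σ x) ∧ l ≤ per σ x) → ∃ Ls, Pcs D l T Ls := by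
  induction n using Nat.strong_induction_on with
  | _ n ih =>
    intro T hn h1 h2
    rcases T.eq_empty_or_nonempty with rfl | ⟨x, hx⟩
    · exact ⟨∅, by constructor <;> simp⟩
    have hsub : orb σ x ⊆ T := fun y hy => mem_of_sc h1 hx (mem_orb.1 hy)
    obtain ⟨Ls, hLs⟩ := ih (T \ orb σ x).card (by
        rw [← hn]
        exact card_lt_card ⟨sdiff_subset, fun a =>
          (mem_sdiff.1 (a hx)).2 (mem_orb.2 (SameCycle.refl _ _))⟩) _ rfl
      (fun y hy => mem_sdiff.2 ⟨h1 y (mem_sdiff.1 hy).1, fun a => (mem_sdiff.1 hy).2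
        (mem_orb.2 ((mem_orb.1 a).trans (sc_apply σ y).symm))⟩)
      fun y hy => h2 y (mem_sdiff.1 hy).1
    obtain ⟨Ls', hLs'⟩ := chop (D := D) hl _ ((List.range (per σ x)).map fun i => (σ ^ i) x) rfl
      (List.Nodup.map_on (fun i hi j hj e => pow_inj (List.mem_range.1 hi) (List.mem_range.1 hj) e)
        List.nodup_range)
      (by
        rw [List.isChain_iff_getElem]
        intro i hi
        simp only [List.getElem_map, List.getElem_range]
        rw [pow_succ', mul_apply]
        exact (h2 _ (hsub (mem_orb.2 (sc_pow σ x i)))).1)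
      (by simpa using (h2 x hx).2)
    have e : ((List.range (per σ x)).map fun i => (σ ^ i) x).toFinset = orb σ x := by
      ext y
      simp only [List.mem_toFinset, List.mem_map, List.mem_range, mem_orb]
      exact ⟨fun ⟨i, _, a⟩ => a ▸ sc_pow σ x i, sc_lt⟩
    rw [e] at hLs'
    have := hLs.union hLs' sdiff_disjoint
    rw [sdiff_union_of_subset hsub] at this
    exact ⟨_, this⟩

theorem Pcs.card_le {T : Finset ι} {Ls : Finset (List ι)} (h : Pcs D l T Ls) :
    Ls.card * l ≤ T.card := by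
  have b1 : Ls.biUnion List.toFinset ⊆ T := fun x hx => by
    obtain ⟨L, a, b⟩ := mem_biUnion.1 hx
    exact h.sub L a x (List.mem_toFinset.1 b)
  have b2 := card_le_card b1
  rw [card_biUnion fun L a L' b c => disjoint_left.2 fun x d e =>
    h.disj L a L' b c x (List.mem_toFinset.1 d) (List.mem_toFinset.1 e)] at b2
  have b3 := sum_le_sum (s := Ls) (f := fun _ => l) (g := fun L => L.toFinset.card) fun L a => by
    rw [List.toFinset_card_of_nodup (h.nodup L a)]
    exact h.lo L a
  rw [sum_const, smul_eq_mul] at b3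
  omega

end Pool.Agent.MP_d6d719_co.H74
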