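import Pool.Agent.MP_d6d719_co.h74.Defs
import Pool.Agent.MP_d6d719_co.Mgf

set_option autoImplicit false

open Finset

namespace Pool.Agent.MP_d6d719_co.H74

variable {V : Type} [Fintype V]

theorem ec_tail (p : unitInterval) {X Y : Finset V} (h : Disjoint X Y) {w : ℝ} (hw : 1 ≤ w)
    (a : ℝ) : (SimpleGraph.binomialRandom V p).real {G | a ≤ ec G.Adj X Y} ≤
      Real.exp (p * (#X * #Y) * w - Real.log w * a) := by
  classical
  refine (prob_tail p (X ×ˢ Y) (·.1) (·.2) one_pos (fiber_le_one _ _ ?_) (fun q hq e => ?_) ∅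
    (by simp) (Real.log w) (Real.log w * a) _ fun G hG => ⟨by simp, ?_⟩).trans ?_
  · rintro ⟨a, b⟩ h1 ⟨c, d⟩ h2 e
    simp only [coe_product, Set.mem_prod, mem_coe] at h1 h2
    rcases Sym2.eq_iff.1 e with h3 | h3
    · exact Prod.ext h3.1 h3.2
    · exact absurd ((show a = d from h3.1) ▸ h1.1) (disjoint_right.1 h h2.2)
  · exact disjoint_left.1 h (mem_product.1 hq).1 (e ▸ (mem_product.1 hq).2)
  · rw [← ec_eq_card]
    exact mul_le_mul_of_nonneg_left hG (Real.log_nonneg hw)
  · have := p.2.1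
    simp only [card_empty, pow_zero, one_mul, Nat.cast_one, div_one, card_product, Nat.cast_mul,
      Real.exp_log (one_pos.trans_le hw)]
    gcongr
    linarith

theorem prob_G3 (p : unitInterval) {a D s : ℝ} (hp : 0 < (p : ℝ)) (hD : 1 ≤ D)
    (ha : 4 * (1 + D) ≤ a)
    (h1 : Real.exp 3 * (p : ℝ) ^ 2 * Fintype.card V * s ≤ a ^ 2) (h2 : Real.exp 2 * p * s ≤ a) :
    (SimpleGraph.binomialRandom V p).real {G | ¬ G3 G a D s} ≤
      (Fintype.card V : ℝ) ^ 2 * Real.exp (-(a / 4)) := by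
  classical
  set n := Fintype.card V with hn
  have a0 : 0 < a := by linarith
  refine (prob_union _ (Icc 1 n ×ˢ Icc 1 n) (fun q : ℕ × ℕ => {G | ((q.2 : ℝ) ≤ s ∧
      (q.2 : ℝ) ≤ D * q.1) ∧ ∃ r ∈ powersetCard q.1 univ ×ˢ powersetCard q.2 univ,
      Disjoint r.1 r.2 ∧ a * q.1 ≤ ec G.Adj r.1 r.2}) (fun _ => Real.exp (-(a / 4))) _
      (fun G hG => ?_) fun ⟨x, y⟩ hq => ?_).trans (by simp [sq])
  · simp only [G3, Set.mem_ofPred_eq, not_forall, not_lt] at hG
    obtain ⟨X, Y, b1, b2, b3, b4, b5⟩ := hG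
    have b6 : 0 < #X := card_pos.2 b2
    obtain ⟨-, -, y, hy, -⟩ := exists_of_ec_pos (lt_of_lt_of_le (by positivity) b5)
    exact ⟨(#X, #Y), by simpa [card_le_univ, hn, b2] using ⟨y, hy⟩, ⟨b3, b4⟩, (X, Y), by simp,
      b1, b5⟩
  simp only [mem_product, mem_Icc] at hq
  by_cases hc : (y : ℝ) ≤ s ∧ (y : ℝ) ≤ D * x
  swap
  · simp [hc, (Real.exp_pos _).le]
  have x1 : (1 : ℝ) ≤ x := Nat.one_le_cast.2 hq.1.1
  have y1 : (1 : ℝ) ≤ y := Nat.one_le_cast.2 hq.2.1
  have y2 : (y : ℝ) ≤ n := Nat.cast_le.2 hq.2.2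
  have n0 : 0 < n := by omega
  have c1 : Real.exp 2 ≤ a / (p * y) := by
    rw [le_div_iff₀ (by positivity), ← mul_assoc]
    exact le_trans (by gcongr; exact hc.1) h2
  have c2 : 2 ≤ Real.log (a / (p * y)) := (Real.le_log_iff_exp_le (by positivity)).2 c1
  have c3 : 3 + Real.log (n / y) ≤ 2 * Real.log (a / (p * y)) := by
    rw [← Real.log_exp 3, ← Real.log_mul (by positivity) (by positivity), two_mul,
      ← Real.log_mul (by positivity) (by positivity)]
    refine Real.log_le_log (by positivity) ?_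
    rw [div_mul_div_comm, ← mul_div_assoc, div_le_div_iff₀ (by positivity) (by positivity)]
    have : Real.exp 3 * (p : ℝ) ^ 2 * n * y ≤ a ^ 2 := le_trans (by gcongr; exact hc.1) h1
    nlinarith
  have c4 : Real.log (n / x) ≤ D + Real.log (n / y) := by
    refine le_trans (Real.log_le_log (by positivity) (y := D * (n / y)) ?_) ?_
    · rw [← mul_div_assoc, div_le_div_iff₀ (by positivity) (by positivity)]
      nlinarith [hc.2]
    · rw [Real.log_mul (by positivity) (by positivity)]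
      linarith [Real.log_le_sub_one_of_pos (show 0 < D by linarith)]
  have c5 : 0 ≤ Real.log (n / y) := Real.log_nonneg ((one_le_div (by positivity)).2 y2)
  refine (prob_union _ (powersetCard x univ ×ˢ powersetCard y univ) (fun r : Finset V × Finset V =>
    {G | Disjoint r.1 r.2 ∧ a * x ≤ ec G.Adj r.1 r.2})
    (fun _ => Real.exp (a * x - Real.log (a / (p * y)) * (a * x))) _ (fun G hG => hG.2)
    fun ⟨X, Y⟩ hr => ?_).trans ?_
  · by_cases hd : Disjoint X Y
    swap
    · simp [hd, (Real.exp_pos _).le]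
    simp only [mem_product, mem_powersetCard_univ] at hr
    simp only [hd, true_and]
    refine (ec_tail p hd (c1.trans' (Real.one_le_exp zero_le_two)) _).trans (le_of_eq ?_)
    rw [hr.1, hr.2]
    congr 2
    field_simp
  · simp only [sum_const, card_product, card_powersetCard, card_univ, ← hn, nsmul_eq_mul,
      Nat.cast_mul]
    refine (mul_le_mul_of_nonneg_right (mul_le_mul (choose_le_exp n x (w := x) (by linarith) n0)
      (choose_le_exp n y (w := y) (by linarith) n0) (by positivity) (by positivity))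
      (by positivity)).trans ?_
    rw [← Real.exp_add, ← Real.exp_add, Real.exp_le_exp]
    obtain ⟨L, hL⟩ : ∃ L, Real.log (a / (p * y)) = L + 1 := ⟨_, (sub_add_cancel _ 1).symm⟩
    rw [hL] at c2 c3 ⊢
    have d1 : y * (1 + Real.log (n / y)) ≤ D * x * (2 * L) :=
      mul_le_mul hc.2 (by linarith) (by linarith) (by positivity)
    have d2 : x * (1 + Real.log (n / x)) ≤ x * (D * L + 2 * L) :=
      mul_le_mul_of_nonneg_left (by nlinarith) (by linarith)
    have d3 : 1 * 1 ≤ x * L := mul_le_mul x1 (by linarith) zero_le_one (by linarith)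
    nlinarith

theorem prob_G4 (p : unitInterval) {κ s : ℝ} (hp : 0 < (p : ℝ)) (hκ : 0 ≤ κ)
    (hn : 1 ≤ Fintype.card V) (h1 : p * s * √(Fintype.card V) ≤ 1)
    (h2 : Real.log (8 * (p * Fintype.card V)) ≤ κ * Real.log (Fintype.card V) / 2) :
    (SimpleGraph.binomialRandom V p).real {G | ¬ G4 G κ s} ≤ 2 / (Fintype.card V : ℝ) ^ 2 := by
  classical
  set n := Fintype.card V with hn'
  have n1 : (1 : ℝ) ≤ n := Nat.one_le_cast.2 hn
  refine (prob_union _ (Icc 1 (2 * n)) (fun t : ℕ => {G | (t : ℝ) ≤ s ∧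
      ∃ r ∈ powersetCard t (univ : Finset (V ⊕ V)), Disjoint r.toLeft r.toRight ∧
      (1 + κ) * t + 6 ≤ ec G.Adj r.toLeft r.toRight}) (fun _ => 1 / (n : ℝ) ^ 3) _
      (fun G hG => ?_) fun t ht => ?_).trans (le_of_eq (by simp; field_simp))
  · simp only [G4, Set.mem_ofPred_eq, not_forall, not_le] at hG
    obtain ⟨X, Y, b1, b2, b3⟩ := hG
    obtain ⟨x, hx, -⟩ := exists_of_ec_pos (lt_trans (by positivity) b3)
    have := card_pos.2 ⟨x, hx⟩
    have := card_le_univ X
    have := card_le_univ Y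
    exact ⟨#X + #Y, mem_Icc.2 ⟨by omega, by omega⟩, by exact_mod_cast b2, X.disjSum Y, by simp,
      by simpa using b1, by simpa using b3.le⟩
  by_cases hc : (t : ℝ) ≤ s
  swap
  · simp [hc]
  have t1 : (1 : ℝ) ≤ t := Nat.one_le_cast.2 (mem_Icc.1 ht).1
  have c1 : √n ≤ 1 / (p * t) := by
    rw [le_div_iff₀' (by positivity)]
    exact le_trans (by gcongr) h1
  have c2 : Real.log n / 2 ≤ Real.log (1 / (p * t)) := by
    rw [← Real.log_sqrt (by linarith)]
    exact Real.log_le_log (by positivity) c1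
  refine (prob_union _ (powersetCard t (univ : Finset (V ⊕ V))) (fun r =>
    {G | Disjoint r.toLeft r.toRight ∧ (1 + κ) * t + 6 ≤ ec G.Adj r.toLeft r.toRight})
    (fun _ => Real.exp (t / 4 - Real.log (1 / (p * t)) * ((1 + κ) * t + 6))) _ (fun G hG => hG.2)
    fun r hr => ?_).trans ?_
  · by_cases hd : Disjoint r.toLeft r.toRight
    swap
    · simp [hd, (Real.exp_pos _).le]
    simp only [hd, true_and]
    refine (ec_tail p hd (c1.trans' (Real.one_le_sqrt.2 n1)) _).trans (Real.exp_le_exp.2 ?_)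
    have e : (#r.toLeft + #r.toRight : ℝ) = t := by
      exact_mod_cast card_toLeft_add_card_toRight.trans (mem_powersetCard_univ.1 hr)
    have : (p : ℝ) * (#r.toLeft * #r.toRight) * (1 / (p * t)) ≤ t / 4 := by
      rw [mul_one_div, mul_div_mul_left _ _ hp.ne', div_le_iff₀ (by linarith), ← e]
      nlinarith [sq_nonneg ((#r.toLeft : ℝ) - #r.toRight)]
    linarith
  · simp only [sum_const, card_powersetCard, card_univ, Fintype.card_sum, ← hn', nsmul_eq_mul]
    refine (mul_le_mul_of_nonneg_right (choose_le_exp (n + n) t (w := t) (by linarith) (by omega))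
      (by positivity)).trans ?_
    rw [← Real.exp_add, one_div ((n : ℝ) ^ 3), ← Real.exp_log (x := (n : ℝ) ^ 3) (by positivity),
      ← Real.exp_neg, Real.exp_le_exp, Real.log_pow]
    have d1 : Real.log ((n + n : ℕ) / t) + 2 * Real.log 2 =
        Real.log (8 * (p * n)) + Real.log (1 / (p * t)) := by
      rw [two_mul, ← Real.log_mul two_ne_zero two_ne_zero,
        ← Real.log_mul (by positivity) (by positivity), ← Real.log_mul (by positivity) (by positivity)]
      congr 1; push_cast; field_simp; ring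
    have d2 := mul_le_mul_of_nonneg_left c2 hκ
    have d3 : t * (5 / 4 + Real.log ((n + n : ℕ) / t)) ≤ t * ((1 + κ) * Real.log (1 / (p * t))) :=
      mul_le_mul_of_nonneg_left (by linarith [Real.log_two_gt_d9]) (by linarith)
    push_cast at d3 ⊢
    linarith

omit [Fintype V] in
theorem emb_inj {ι : Type} {o i : ι ↪ V} (h : ∀ u w, o u ≠ i w) :
    Function.Injective fun e : ι × ι => s(o e.1, i e.2) := fun a b e => by
  rcases Sym2.eq_iff.1 e with h3 | h3
  · exact Prod.ext (o.injective h3.1) (i.injective h3.2)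
  · exact absurd h3.1 (h _ _)

theorem card_emb_le (ι : Type) [Fintype ι] [Fintype (ι ↪ V)] :
    (Fintype.card (ι ↪ V) : ℝ) ≤ (Fintype.card V : ℝ) ^ Fintype.card ι := by
  rw [Fintype.card_embedding_eq]
  exact_mod_cast Nat.descFactorial_le_pow _ _

theorem prob_G5 {ι : Type} [Fintype ι] [DecidableEq ι] (p : unitInterval) {a b : ℝ} {l q : ℕ}
    (hn : 2 ≤ Fintype.card V) (hι : Fintype.card ι ≤ Fintype.card V)
    (h1 : 2 * l * q * (p : ℝ) * √(Fintype.card V) ≤ 1) (h2 : 4 * (2 * (q : ℝ) + 3) ≤ a)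
    (h3 : 4 * (3 * (Fintype.card ι : ℝ) + 1) ≤ a * b) :
    (SimpleGraph.binomialRandom V p).real {G | ¬ G5 G ι l q a b} ≤ 1 / Fintype.card V := by
  classical
  set n := Fintype.card V with hn'
  set N := Fintype.card ι with hN
  have n2 : (2 : ℝ) ≤ n := Nat.ofNat_le_cast.2 hn
  have a0 : 0 < a := by linarith [Nat.cast_nonneg (α := ℝ) q]
  have b0 : 0 < b := (mul_pos_iff_of_pos_left a0).1 (lt_of_lt_of_le (by positivity) h3)
  set m := ⌊b⌋₊ + 1 with hm
  have m1 : b ≤ m := by rw [hm]; push_cast; exact (Nat.lt_floor_add_one b).le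
  have p0 := p.2.1
  set C : (Fin q → Option ι) → Finset ι := fun c => (univ.image c).eraseNone with hC
  refine (prob_union _ univ (fun z : (ι ↪ V) × (ι ↪ V) × Equiv.Perm ι ×
      (Fin m → ι × (Fin q → Option ι)) => {G | ((∀ u w, z.1 u ≠ z.2.1 w) ∧
      Function.Injective fun j => (z.2.2.2 j).1) ∧ ∀ j, a ≤ deg (fun u w => G.Adj (z.1 u) (z.2.1 w))
      (z.2.2.2 j).1 (wins z.2.2.1 l (C (z.2.2.2 j).2))})
      (fun _ => Real.exp (m - Real.log n / 2 * (a * m))) _ (fun G hG => ?_)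
      fun ⟨o, i, σ, f⟩ _ => ?_).trans ?_
  · simp only [G5, FewBad, Set.mem_ofPred_eq, not_forall, not_le] at hG
    obtain ⟨o, i, b1, σ, B, b2, b3⟩ := hG
    obtain ⟨e, he⟩ := Function.Embedding.exists_of_card_le_finset (α := Fin m) (s := B)
      (by rw [Fintype.card_fin]; exact (Nat.floor_lt b0.le).2 b3)
    have : ∀ j, ∃ c, a ≤ deg (fun u w => G.Adj (o u) (i w)) (e j) (wins σ l (C c)) := fun j => by
      obtain ⟨C', c1, c2⟩ := b2 (e j) (he ⟨j, rfl⟩)
      refine ⟨fun k => C'.toList[k.1]?, c2.trans (deg_mono (wins_mono fun x hx => ?_))⟩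
      obtain ⟨k, k1, k2⟩ := List.mem_iff_getElem.1 (mem_toList.2 hx)
      simp only [hC, mem_eraseNone, mem_image, mem_univ, true_and]
      exact ⟨⟨k, by rw [length_toList] at k1; omega⟩, List.getElem?_eq_some_iff.2 ⟨k1, k2⟩⟩
    choose c hc using this
    exact ⟨(o, i, σ, fun j => (e j, c j)), mem_univ _, ⟨b1, e.injective⟩, hc⟩
  · by_cases hc : (∀ u w, o u ≠ i w) ∧ Function.Injective fun j => (f j).1
    swap
    · simp only [hc, false_and, Set.ofPred_false, MeasureTheory.measureReal_empty]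
      positivity
    refine (prob_tail p (univ.sigma fun j => wins σ l (C (f j).2)) (fun x => o (f x.1).1)
      (fun x => i x.2) one_pos (fiber_le_one _ _ fun x _ y _ e => ?_) (fun _ _ => hc.1 _ _) ∅
      (by simp) (Real.log n / 2) (Real.log n / 2 * (a * m)) _ fun G hG => ⟨by simp, ?_⟩).trans ?_
    · have := Prod.mk.inj (emb_inj hc.1 (a₁ := ((f x.1).1, x.2)) (a₂ := ((f y.1).1, y.2)) e)
      exact Sigma.ext (hc.2 this.1) (heq_of_eq this.2)
    · refine mul_le_mul_of_nonneg_left ?_ (by positivity)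
      rw [filter_sigma, card_sigma, Nat.cast_sum, mul_comm]
      simpa [deg, nb] using sum_le_sum (s := univ) fun j _ => hG.2 j
    · have c1 : (#(univ.sigma fun j => wins σ l (C (f j).2)) : ℝ) ≤ m * (2 * l * q) := by
        rw [card_sigma]
        exact_mod_cast (sum_le_card_nsmul _ _ (2 * l * q) fun j _ => (card_wins_le _ _ _).trans
          (Nat.mul_le_mul_left _ ((card_eraseNone_le _).trans (card_image_le.trans (by simp))))).trans
          (by simp)
      simp only [card_empty, pow_zero, one_mul, Nat.cast_one, div_one]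
      rw [← Real.log_sqrt (by linarith), Real.exp_log (by positivity), Real.exp_le_exp]
      have c2 := mul_le_mul (mul_le_mul_of_nonneg_left c1 p0) (sub_le_self (√n) zero_le_one)
        (sub_nonneg.2 (Real.one_le_sqrt.2 (by linarith))) (by positivity)
      nlinarith [Nat.cast_nonneg (α := ℝ) m]
  · simp only [sum_const, card_univ, Fintype.card_prod, Fintype.card_perm, Fintype.card_fun,
      Fintype.card_option, Fintype.card_fin, nsmul_eq_mul, ← hN]
    push_cast
    have c1 := card_emb_le (V := V) ι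
    have c2 : (N.factorial : ℝ) ≤ n ^ N := by
      exact_mod_cast (Nat.factorial_le_pow N).trans (Nat.pow_le_pow_left hι N)
    have c3 : (N : ℝ) ≤ n := Nat.cast_le.2 hι
    have c4 : (N + 1 : ℝ) ≤ n ^ 2 := by nlinarith
    rw [← hn', ← hN] at c1
    refine le_trans (b := n ^ N * (n ^ N * (n ^ N * (n * (n ^ 2) ^ q) ^ m)) *
      Real.exp (m - Real.log n / 2 * (a * m))) (by gcongr) ?_
    rw [← pow_mul, ← pow_succ', ← pow_mul, ← pow_add, ← pow_add, ← pow_add,
      ← Real.exp_log (x := (n : ℝ) ^ _) (by positivity), ← Real.exp_add, one_div,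
      ← Real.exp_log (x := (n : ℝ)⁻¹) (by positivity), Real.exp_le_exp, Real.log_pow, Real.log_inv]
    have c5 : 1 / 2 ≤ Real.log n :=
      le_trans (by linarith [Real.log_two_gt_d9]) (Real.log_le_log two_pos n2)
    have c6 := mul_le_mul_of_nonneg_left m1 a0.le
    have c7 := mul_le_mul_of_nonneg_right h2 (Nat.cast_nonneg (α := ℝ) m)
    have c8 := mul_le_mul_of_nonneg_left c5 (Nat.cast_nonneg (α := ℝ) m)
    have c9 := mul_le_mul_of_nonneg_right
      (show 3 * N + (2 * q + 3) * m + 1 ≤ a * m / 2 by linarith) (show 0 ≤ Real.log n by linarith)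
    push_cast
    linarith

theorem prob_G6 {ι δ : Type} [Fintype ι] [DecidableEq ι] [Fintype δ]
    (NB : δ → Finset (ι × ι) → Finset (ι × ι)) (p : unitInterval) {m β t z : ℝ}
    (hz : 0 < z) (hz1 : z ≤ 1) :
    (SimpleGraph.binomialRandom V p).real {G | ¬ G6 G NB m β t} ≤
      (Fintype.card V : ℝ) ^ (2 * Fintype.card ι) * Fintype.card δ *
        Real.exp (m * Real.log (1 / z) + z * p * (Fintype.card ι : ℝ) ^ 2 + 2 * p * β - t) := by
  classical
  have p0 := p.2.1
  refine (prob_union _ (univ ×ˢ ({H | (#H : ℝ) ≤ m} : Finset (Finset (ι × ι))))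
    (fun r : ((ι ↪ V) × (ι ↪ V) × δ) × Finset (ι × ι) => {G : SimpleGraph V | ((∀ u w, r.1.1 u ≠ r.1.2.1 w) ∧
      (#(NB r.1.2.2 r.2) : ℝ) ≤ β) ∧ (∀ e ∈ r.2, G.Adj (r.1.1 e.1) (r.1.2.1 e.2)) ∧
      t ≤ (#((NB r.1.2.2 r.2 \ r.2).filter fun e => G.Adj (r.1.1 e.1) (r.1.2.1 e.2)) : ℝ)})
    (fun r => (p : ℝ) ^ #r.2 * Real.exp (2 * p * β - t)) _ (fun G hG => ?_)
    fun ⟨⟨o, i, ω⟩, H⟩ _ => ?_).trans ?_
  · simp only [G6, Boost, Set.mem_ofPred_eq, not_forall, not_le] at hG
    obtain ⟨o, i, b1, ω, H, b2, b3, b4, b5⟩ := hG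
    exact ⟨((o, i, ω), H), by simpa using b3, ⟨b1, b4⟩, b2, b5.le⟩
  · by_cases hc : (∀ u w, o u ≠ i w) ∧ (#(NB ω H) : ℝ) ≤ β
    swap
    · simp only [hc, false_and, Set.ofPred_false, MeasureTheory.measureReal_empty]
      positivity
    refine (prob_tail p (NB ω H \ H) (fun x => o x.1) (fun x => i x.2) one_pos
      (fiber_le_one _ _ (emb_inj hc.1).injOn) (fun _ _ => hc.1 _ _) (H.map ⟨_, emb_inj hc.1⟩)
      (fun x hx h => (mem_sdiff.1 hx).2 ((mem_map' _).1 h)) 1 t _
      fun G hG => ⟨fun e he => ?_, by simpa using hG.2.2⟩).trans ?_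
    · obtain ⟨x, hx, rfl⟩ := mem_map.1 he
      exact hG.2.1 x hx
    · have c1 : (#(NB ω H \ H) : ℝ) ≤ β := (Nat.cast_le.2 (card_le_card sdiff_subset)).trans hc.2
      have c2 := mul_le_mul (mul_le_mul_of_nonneg_left c1 p0)
        (show Real.exp 1 - 1 ≤ 2 by linarith [Real.exp_one_lt_three])
        (sub_nonneg.2 (Real.one_le_exp zero_le_one)) (mul_nonneg p0 ((Nat.cast_nonneg _).trans c1))
      simp only [card_map, Nat.cast_one, div_one, one_mul]
      exact mul_le_mul_of_nonneg_left (Real.exp_le_exp.2 (by linarith)) (by positivity)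
  · rw [sum_product]
    simp only [sum_const, card_univ, nsmul_eq_mul, ← sum_mul, Fintype.card_prod]
    have c1 := card_emb_le (V := V) ι
    have c2 := sum_planted (V := ι × ι) (m := m) p0 hz hz1
    rw [Fintype.card_prod, Nat.cast_mul, ← sq] at c2
    rw [add_sub_assoc, Real.exp_add (_ + _), two_mul (Fintype.card ι), pow_add, mul_assoc (_ ^ _)]
    push_cast
    gcongr

end Pool.Agent.MP_d6d719_co.H74
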