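import Pool.Agent.MP_d6d719_co.h74.Link
import Pool.Agent.MP_d6d719_co.h74.Pieces

set_option autoImplicit false
set_option linter.unusedSectionVars false

open Finset Equiv Equiv.Perm

namespace Pool.Agent.MP_d6d719_co.H74

section Seg

variable {α : Type*} {R : α → α → Prop} {x y z : α} {l l' : List α}

/-- The list `l` continues a chain from `x` and ends at `y`. -/
def Seg (R : α → α → Prop) (x : α) (l : List α) (y : α) : Prop :=
  List.IsChain R (x :: l) ∧ (x :: l).getLast? = some y

theorem Seg.nil : Seg R x [] x := ⟨List.isChain_singleton _, rfl⟩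

theorem Seg.cons (h : R x y) (h' : Seg R y l z) : Seg R x (y :: l) z :=
  ⟨List.isChain_cons_cons.2 ⟨h, h'.1⟩, by rw [List.getLast?_cons_cons]; exact h'.2⟩

theorem Seg.append (h : Seg R x l y) (h' : Seg R y l' z) : Seg R x (l ++ l') z := by
  induction l generalizing x with
  | nil =>
    obtain rfl : x = y := by simpa using h.2
    exact h'
  | cons a l ih =>
    have := List.isChain_cons_cons.1 h.1
    exact Seg.cons this.1 (ih ⟨this.2, by simpa [List.getLast?_cons_cons] using h.2⟩)

theorem Seg.range {m : ℕ} {f : ℕ → List α} {x : ℕ → α} (h : ∀ i < m, Seg R (x i) (f i) (x (i + 1))) :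
    Seg R (x 0) ((List.range m).flatMap f) (x m) := by
  induction m with
  | zero => exact Seg.nil
  | succ m ih =>
    rw [List.range_succ, List.flatMap_append]
    exact (ih fun i hi => h i (by omega)).append (by simpa using h m (by omega))

theorem Seg.map {m : ℕ} {v : ℕ → α} (h : ∀ i < m, R (v i) (v (i + 1))) :
    Seg R (v 0) ((List.range m).map fun t => v (t + 1)) (v m) := by
  have := Seg.range (R := R) (f := fun t => [v (t + 1)]) (x := v) fun i hi =>
    Seg.cons (h i hi) Seg.nil
  rwa [← List.map_eq_flatMap] at this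

theorem Seg.imp {R' : α → α → Prop} (h : Seg R x l y)
    (hR : ∀ a, ∀ b ∈ l, R a b → R' a b) : Seg R' x l y := by
  refine ⟨?_, h.2⟩
  have h1 := h.1
  clear h
  induction l generalizing x with
  | nil => exact List.isChain_singleton _
  | cons a l ih =>
    have := List.isChain_cons_cons.1 h1
    exact List.isChain_cons_cons.2 ⟨hR _ _ List.mem_cons_self this.1,
      ih (fun a b hb => hR a b (List.mem_cons_of_mem _ hb)) this.2⟩

theorem Seg.formPerm [DecidableEq α] (h : Seg R x l x) (hn : l.Nodup) :
    ∀ y ∈ l, R y (l.formPerm y) := by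
  rcases l with _ | ⟨a, t⟩
  · simp
  · intro y hy
    have h1 := List.isChain_cons_cons.1 h.1
    have h2 : Seg R a (t ++ [a]) a := Seg.append
      (⟨h1.2, by simpa [List.getLast?_cons_cons] using h.2⟩ : Seg R a t x) (Seg.cons h1.1 Seg.nil)
    exact rel_formPerm hn h2.1 hy

theorem nodup_flatMap_of {β : Type*} {o : List β} {f : β → List α} (h1 : o.Nodup)
    (h2 : ∀ b ∈ o, (f b).Nodup) (h3 : ∀ b ∈ o, ∀ b' ∈ o, ∀ x ∈ f b, x ∈ f b' → b = b') :
    (o.flatMap f).Nodup := by
  rw [List.nodup_flatMap]
  refine ⟨h2, h1.pairwise_of_forall_ne fun b hb b' hb' hne => ?_⟩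
  intro x a c
  exact hne (h3 b hb b' hb' x a c)

end Seg

variable {ι : Type*} [Fintype ι] [DecidableEq ι] {D : ι → ι → Prop} {r : ℕ} {U : Finset ι}
  {a b : ι} {v : ℕ → ι} {z : Bool}

/-- The inner nodes of a link. -/
def inner (r : ℕ) (v : ℕ → ι) : List ι := (List.range (2 * r)).map fun t => v (t + 1)

theorem mem_inner {x : ι} : x ∈ inner r v ↔ ∃ t < 2 * r, v (t + 1) = x := by simp [inner]

theorem IsLink.nodup (h : IsLink D r U z a b v) : (inner r v).Nodup :=
  List.Nodup.map_on (fun i hi j hj e => h.inj i (List.mem_range.1 hi) j (List.mem_range.1 hj) e)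
    List.nodup_range

theorem IsLink.sub (h : IsLink D r U z a b v) {x : ι} (hx : x ∈ inner r v) : x ∈ U := by
  obtain ⟨t, ht, rfl⟩ := mem_inner.1 hx
  exact h.mem t ht

theorem IsLink.seg (h : IsLink D r U false a b v) : Seg D a (inner r v ++ [b]) b := by
  have k : ∀ t ≤ 2 * r, D (v t) (v (t + 1)) := fun t ht => by simpa [Arc] using h.arc t ht
  have := (Seg.map (R := D) (m := 2 * r) (v := v) fun i hi => k i hi.le).append
    (Seg.cons (k _ le_rfl) Seg.nil)
  rwa [h.fst, h.lst] at this

theorem IsLink.back (h : IsLink D r U true a b v) {t : ℕ} (ht : t ≤ r) :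
    D (v (2 * t + 1)) (v (2 * t)) := by
  simpa [Arc] using h.arc (2 * t) (by omega)

theorem IsLink.forth (h : IsLink D r U true a b v) {t : ℕ} (ht : t < r) :
    D (v (2 * t + 1)) (v (2 * t + 2)) := by
  simpa [Arc] using h.arc (2 * t + 1) (by omega)

/-- The two traversals of an absorber. -/
def modes (z : ι) (m : Bool) (k : ℕ) (B : ℕ → List ι) : List ι :=
  if m then z :: (List.range (2 * k + 1)).flatMap B
  else (List.range k).flatMap (fun i => B (2 * i + 1)) ++
    (List.range (k + 1)).flatMap (fun i => B (2 * i))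

theorem mem_modes {z x : ι} {m : Bool} {k : ℕ} {B : ℕ → List ι} :
    x ∈ modes z m k B ↔ (m = true ∧ x = z) ∨ ∃ j < 2 * k + 1, x ∈ B j := by
  unfold modes
  cases m
  · simp only [Bool.false_eq_true, if_false, List.mem_append, List.mem_flatMap, List.mem_range,
      false_and, false_or]
    constructor
    · rintro (⟨i, h1, h2⟩ | ⟨i, h1, h2⟩)
      · exact ⟨_, by omega, h2⟩
      · exact ⟨_, by omega, h2⟩
    · rintro ⟨j, h1, h2⟩
      rcases Nat.even_or_odd' j with ⟨i, rfl | rfl⟩
      · exact Or.inr ⟨i, by omega, h2⟩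
      · exact Or.inl ⟨i, by omega, h2⟩
  · simp

theorem nodup_modes {z : ι} {m : Bool} {k : ℕ} {B : ℕ → List ι}
    (h1 : ∀ j < 2 * k + 1, (B j).Nodup ∧ z ∉ B j)
    (h2 : ∀ j < 2 * k + 1, ∀ j' < 2 * k + 1, ∀ x ∈ B j, x ∈ B j' → j = j') :
    (modes z m k B).Nodup := by
  unfold modes
  cases m
  · simp only [Bool.false_eq_true, if_false]
    refine List.nodup_append.2 ⟨nodup_flatMap_of List.nodup_range (fun i hi => ?_)
      fun i hi j hj x a b => ?_, nodup_flatMap_of List.nodup_range (fun i hi => ?_)
      fun i hi j hj x a b => ?_, fun x hx y hy e => ?_⟩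
    · exact (h1 _ (by have := List.mem_range.1 hi; omega)).1
    · rw [List.mem_range] at hi hj
      have := h2 _ (by omega) _ (by omega) x a b
      omega
    · exact (h1 _ (by have := List.mem_range.1 hi; omega)).1
    · rw [List.mem_range] at hi hj
      have := h2 _ (by omega) _ (by omega) x a b
      omega
    · obtain ⟨i, hi, a⟩ := List.mem_flatMap.1 hx
      obtain ⟨j, hj, b⟩ := List.mem_flatMap.1 hy
      rw [List.mem_range] at hi hj
      have := h2 _ (by omega) _ (by omega) x a (e ▸ b)
      omega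
  · simp only [if_true]
    refine List.nodup_cons.2 ⟨fun hx => ?_, nodup_flatMap_of List.nodup_range
      (fun i hi => (h1 i (List.mem_range.1 hi)).1)
      fun i hi j hj => h2 i (List.mem_range.1 hi) j (List.mem_range.1 hj)⟩
    obtain ⟨i, hi, a⟩ := List.mem_flatMap.1 hx
    exact (h1 i (List.mem_range.1 hi)).2 a

theorem seg_modes {R : ι → ι → Prop} {z : ι} {m : Bool} {k : ℕ} {B : ℕ → List ι} {α β : ℕ → ι}
    (hB : ∀ j < 2 * k + 1, ∀ x, R x (α j) → Seg R x (B j) (β (j + 1))) (h0 : R (β 0) z)
    (h1 : R z (α 0)) (h2 : ∀ j, 0 < j → j ≤ 2 * k → R (β j) (α j))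
    (h3 : ∀ j < 2 * k, R (β j) (α (j + 1))) (h4 : R (β (2 * k)) (α 0)) :
    Seg R (β 0) (modes z m k B) (β (2 * k + 1)) := by
  unfold modes
  cases m
  · simp only [Bool.false_eq_true, if_false]
    have b1 := Seg.range (R := R) (m := k) (f := fun i => B (2 * i + 1)) (x := fun i => β (2 * i))
      fun i hi => hB _ (by omega) _ (h3 _ (by omega))
    have b2 := Seg.range (R := R) (m := k + 1) (f := fun i => B (2 * i))
      (x := fun i => if i = 0 then β (2 * k) else β (2 * i - 1)) fun i hi => by
        rw [if_neg (Nat.succ_ne_zero i), show 2 * (i + 1) - 1 = 2 * i + 1 by omega]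
        refine hB _ (by omega) _ ?_
        split_ifs with c
        · rw [c]; exact h4
        · have := h3 (2 * i - 1) (by omega)
          rwa [show 2 * i - 1 + 1 = 2 * i by omega] at this
    simp only [if_true, if_neg (Nat.succ_ne_zero k),
      show 2 * (k + 1) - 1 = 2 * k + 1 by omega] at b2
    exact b1.append b2
  · simp only [if_true]
    have b2 := Seg.range (R := R) (m := 2 * k + 1) (f := B)
      (x := fun i => if i = 0 then z else β i) fun i hi => by
        rw [if_neg (Nat.succ_ne_zero i)]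
        refine hB _ hi _ ?_
        split_ifs with c
        · rw [c]; exact h1
        · exact h2 i (by omega) (by omega)
    simp only [if_true, if_neg (Nat.succ_ne_zero (2 * k))] at b2
    exact Seg.cons h0 b2

end Pool.Agent.MP_d6d719_co.H74
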